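import Pool.Agent.P.MP_e30989_nt.W.St2
import Pool.Agent.P.MP_a14ce1_nt.Ch.MR

/-! Short interval means of non-pretentious functions, also in residue classes. -/

open Finset MeasureTheory Filter

namespace Pool.Agent.P.MP_e30989_nt.W

open Pool.Agent.P.MP_a14ce1_nt.Ch

theorem mrNP (hR : S_Reduce) (hS : S_Scales) (hF : S_FinalNP) : S_MRNP := by
  obtain ⟨C, hC, hR⟩ := hR
  obtain ⟨c, hc, hF⟩ := hF
  intro δ hδ
  set e : ℝ := δ / (3 * C) with he
  have he0 : 0 < e := by positivity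
  obtain ⟨h, hh, hS⟩ := hS c (e ^ 2 / 2) hc (by positivity)
  obtain ⟨X2, hS⟩ := hS h le_rfl
  obtain ⟨ε, X3, hε, hF⟩ := hF (e ^ 2 / 2) (by positivity)
  refine ⟨min ε (min e 1), ⌈h / e⌉₊, X2 + X3 + ⌈h⌉₊ + 2, by positivity,
    fun Y hY f hf hL R hR0 hR1 => ?_⟩
  have hhR : h ≤ e * R := by
    have : h / e ≤ R := (Nat.le_ceil _).trans (by exact_mod_cast hR0)
    rwa [div_le_iff₀' he0] at this
  have hhY : h ≤ Y := (Nat.le_ceil _).trans (by exact_mod_cast (show ⌈h⌉₊ ≤ Y by omega))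
  have hY0 : (0 : ℝ) < Y := by exact_mod_cast (show 0 < Y by omega)
  have hRY : (R : ℝ) ≤ e * Y :=
    hR1.trans (mul_le_mul_of_nonneg_right ((min_le_right _ _).trans (min_le_left _ _)) hY0.le)
  have hRY' : R ≤ Y := by
    have := hR1.trans
      (mul_le_mul_of_nonneg_right ((min_le_right _ _).trans (min_le_right _ _)) hY0.le)
    rw [one_mul] at this
    exact_mod_cast this
  obtain ⟨U, hU, hU1, hU2, hU3⟩ := hS Y (by omega) f hf
  have hU4 := hF Y (by omega) f hf (fun t ht => (hL t ht).trans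
    (mul_le_mul_of_nonneg_right (min_le_left _ _) (Real.log_natCast_nonneg Y))) U hU hU1 hU2
  obtain ⟨B, hB⟩ := MR.norm_Fx_le (f := f) Y
  have hcont : Continuous fun t => ‖Fx f Y t‖ ^ 2 := (continuous_Fx f Y).norm.pow 2
  have hint := integrable_cw_mul (T := Y / h) (by positivity) hcont hB
  have h3 : ∫ t in U, cw (Y / h) t * ‖Fx f Y t‖ ^ 2 ≤ ∫ t in U, ‖Fx f Y t‖ ^ 2 :=
    setIntegral_mono hint.integrableOn (hcont.integrableOn_Icc.mono_set hU1) fun t =>
      mul_le_of_le_one_left (by positivity) (cw_le_one _ _)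
  have h4 : √(∫ t : ℝ, cw (Y / h) t * ‖Fx f Y t‖ ^ 2) ≤ e := by
    rw [Real.sqrt_le_left he0.le, ← integral_add_compl hU hint]
    linarith
  refine (hR f Y R h hf.bd hh hhY hRY' (by omega)).trans ?_
  have h5 : (R : ℝ) * Y * √(∫ t : ℝ, cw (Y / h) t * ‖Fx f Y t‖ ^ 2) ≤ R * Y * e :=
    mul_le_mul_of_nonneg_left h4 (by positivity)
  have h6 : h * Y ≤ e * R * Y := mul_le_mul_of_nonneg_right hhR hY0.le
  have h7 : (R : ℝ) ^ 2 ≤ R * (e * Y) := by
    rw [sq]; exact mul_le_mul_of_nonneg_left hRY (by positivity)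
  calc _ ≤ C * (3 * e * R * Y) := mul_le_mul_of_nonneg_left (by linarith) hC.le
    _ = δ * R * Y := by rw [he]; field_simp

namespace MRH

theorem tw_CM {f : ℕ → ℂ} (hf : CM f) {b : ℕ} (χ : DirichletCharacter ℂ b) : CM (tw f χ) := by
  constructor
  · intro m n hm hn
    unfold tw
    rw [hf.mul m n hm hn, Nat.cast_mul, map_mul]; ring
  · intro n
    unfold tw
    rw [norm_mul]
    exact mul_le_one₀ (hf.bd n) (norm_nonneg _) (χ.norm_le_one _)

theorem tw_one {f : ℕ → ℂ} (hf : UCM f) {b : ℕ} (χ : DirichletCharacter ℂ b) : tw f χ 1 = 1 := by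
  have h0 : f 1 ≠ 0 := fun h => by simpa [h] using hf.2 1 one_ne_zero
  have h1 : f 1 = 1 := by
    have := hf.1.mul 1 1 one_ne_zero one_ne_zero
    rw [mul_one] at this
    exact (mul_left_cancel₀ h0 (this.symm.trans (mul_one _).symm))
  rw [tw, h1, Nat.cast_one, map_one, mul_one]

theorem coprime_class (f : ℕ → ℂ) (b : ℕ) (hb : 0 < b) (A : Finset ℕ) (R c : ℕ) (K : ℝ)
    (hc : Nat.Coprime c b)
    (h : ∀ χ : DirichletCharacter ℂ b, ∑ x ∈ A, ‖∑ j ∈ range R, tw f χ (x + j)‖ ≤ K) :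
    ∑ x ∈ A, ‖∑ j ∈ (range R).filter (fun j => x + j ≡ c [MOD b]), f (x + j)‖ ≤ K := by
  have : NeZero b := ⟨hb.ne'⟩
  have hu : IsUnit (c : ZMod b) := (ZMod.isUnit_iff_coprime c b).2 hc
  have hφ : (0 : ℝ) < b.totient := by exact_mod_cast Nat.totient_pos.2 hb
  have key : ∀ x : ℕ, (b.totient : ℝ) *
      ‖∑ j ∈ (range R).filter (fun j => x + j ≡ c [MOD b]), f (x + j)‖ ≤
      ∑ χ : DirichletCharacter ℂ b, ‖∑ j ∈ range R, tw f χ (x + j)‖ := by
    intro x
    have e : (b.totient : ℂ) * ∑ j ∈ (range R).filter (fun j => x + j ≡ c [MOD b]), f (x + j)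
        = ∑ χ : DirichletCharacter ℂ b, χ (c : ZMod b)⁻¹ * ∑ j ∈ range R, tw f χ (x + j) := by
      simp only [mul_sum, tw]
      rw [sum_comm, sum_filter]
      refine sum_congr rfl fun j _ => ?_
      have := DirichletCharacter.sum_char_inv_mul_char_eq ℂ hu ((x + j : ℕ) : ZMod b)
      simp only [mul_left_comm _ (f (x + j)), ← mul_sum]
      rw [this]
      simp only [ZMod.natCast_eq_natCast_iff]
      by_cases h : x + j ≡ c [MOD b]
      · simp [h, h.symm, mul_comm]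
      · have h' : ¬c ≡ x + j [MOD b] := fun h' => h h'.symm
        simp [h, h']
    rw [← Complex.norm_natCast, ← norm_mul, e]
    refine (norm_sum_le _ _).trans (sum_le_sum fun χ _ => ?_)
    rw [norm_mul]
    exact mul_le_of_le_one_left (norm_nonneg _) (χ.norm_le_one _)
  refine le_of_mul_le_mul_left ?_ hφ
  rw [mul_sum]
  refine (sum_le_sum fun x _ => key x).trans ?_
  rw [sum_comm]
  refine (sum_le_sum fun χ _ => h χ).trans (le_of_eq ?_)
  rw [sum_const, card_univ, ← Nat.card_eq_fintype_card,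
    DirichletCharacter.card_eq_totient_of_hasEnoughRootsOfUnity, nsmul_eq_mul]

theorem point {f : ℕ → ℂ} (hf : CM f) (d b c R x : ℕ) (hd : 0 < d) (hx : 0 < x) :
    ‖∑ j ∈ (range R).filter (fun j => x + j ≡ d * c [MOD d * b]), f (x + j)‖ ≤
      ‖∑ j ∈ (range (R / d)).filter (fun j => (x + d - 1) / d + j ≡ c [MOD b]),
        f ((x + d - 1) / d + j)‖ + 1 := by
  set y := (x + d - 1) / d with hy
  set z := (x + R + d - 1) / d with hz
  have hy' : ∀ n, y ≤ n ↔ x ≤ d * n := fun n => by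
    rw [hy, Nat.div_le_iff_le_mul_add_pred hd]; omega
  have hz' : ∀ n, z ≤ n ↔ x + R ≤ d * n := fun n => by
    rw [hz, Nat.div_le_iff_le_mul_add_pred hd]; omega
  clear_value y z
  have h4 := Nat.mul_div_le R d
  have h5 := Nat.div_add_mod R d
  have h6 := Nat.mod_lt R hd
  generalize R / d = r at *
  have hy0 : 0 < y := by
    by_contra h
    have := (hy' 0).1 (by omega)
    omega
  have h1 : y + r ≤ z := by
    by_contra h
    have h2 := (hz' (y + r - 1)).1 (by omega)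
    have h3 := (hy' (y - 1)).not.1 (by omega)
    rw [show y + r - 1 = (y - 1) + r by omega, mul_add] at h2
    omega
  have h2 : z ≤ y + r + 1 := by
    rw [hz', mul_add, mul_add]
    have h3 := (hy' y).1 le_rfl
    omega
  have e1 : ∑ j ∈ (range R).filter (fun j => x + j ≡ d * c [MOD d * b]), f (x + j) =
      f d * ∑ n ∈ (Ico y z).filter (fun n => n ≡ c [MOD b]), f n := by
    rw [mul_sum]
    symm
    refine sum_bij (fun n _ => d * n - x) (fun n hn => ?_) (fun n hn n' hn' e => ?_)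
      (fun j hj => ?_) fun n hn => ?_
    · simp only [mem_filter, mem_Ico, mem_range] at hn ⊢
      have h3 := (hy' n).1 hn.1.1
      have h4 := (hz' n).not.1 (by omega)
      refine ⟨by omega, ?_⟩
      rw [show x + (d * n - x) = d * n by omega]
      exact hn.2.mul_left' d
    · simp only [mem_filter, mem_Ico] at hn hn'
      have h3 := (hy' n).1 hn.1.1
      have h4 := (hy' n').1 hn'.1.1
      exact Nat.eq_of_mul_eq_mul_left hd (by omega)
    · simp only [mem_filter, mem_range] at hj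
      obtain ⟨n, hn⟩ : d ∣ x + j :=
        (Nat.modEq_zero_iff_dvd).1 ((hj.2.of_mul_right b).trans
          (Nat.modEq_zero_iff_dvd.2 (dvd_mul_right d c)))
      refine ⟨n, ?_, by omega⟩
      simp only [mem_filter, mem_Ico]
      refine ⟨⟨(hy' n).2 (by omega), not_le.1 ((hz' n).not.2 (by omega))⟩, ?_⟩
      have := hj.2
      rw [hn] at this
      exact Nat.ModEq.mul_left_cancel' hd.ne' this
    · simp only [mem_filter, mem_Ico] at hn
      have h3 := (hy' n).1 hn.1.1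
      rw [show x + (d * n - x) = d * n by omega, hf.mul _ _ hd.ne' (by omega)]
  have e2 : ∑ j ∈ (range r).filter (fun j => y + j ≡ c [MOD b]), f (y + j) =
      ∑ n ∈ (Ico y (y + r)).filter (fun n => n ≡ c [MOD b]), f n := by
    rw [sum_filter, sum_filter, sum_Ico_eq_sum_range, Nat.add_sub_cancel_left]
  rw [e1, e2, norm_mul]
  refine (mul_le_of_le_one_left (norm_nonneg _) (hf.bd d)).trans ?_
  rw [sum_filter, sum_filter]
  rcases h1.eq_or_lt with h | h
  · rw [h]; linarith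
  · rw [show z = y + r + 1 by omega, sum_Ico_succ_top (by omega)]
    refine (norm_add_le _ _).trans (add_le_add_right ?_ _)
    split_ifs
    · exact hf.bd _
    · simp

theorem sum_ceil (F : ℕ → ℝ) (hF : ∀ y, 0 ≤ F y) (d Y : ℕ) (hd : 0 < d) :
    ∑ x ∈ Ico Y (2 * Y), F ((x + d - 1) / d) ≤ d * ∑ y ∈ Ico (Y / d) (2 * (Y / d) + 3), F y := by
  have hmap : ∀ x ∈ Ico Y (2 * Y), (x + d - 1) / d ∈ Ico (Y / d) (2 * (Y / d) + 3) := fun x hx => by
    rw [mem_Ico] at hx ⊢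
    refine ⟨Nat.div_le_div_right (by omega), ?_⟩
    rw [Nat.div_lt_iff_lt_mul hd]
    have h2 := Nat.div_add_mod Y d
    have h3 := Nat.mod_lt Y hd
    rw [add_mul, mul_assoc, mul_comm (Y / d)]
    omega
  rw [← sum_fiberwise_of_maps_to hmap, mul_sum]
  refine sum_le_sum fun y _ => ?_
  rw [sum_congr rfl fun x hx => by rw [(mem_filter.1 hx).2], sum_const, nsmul_eq_mul]
  refine mul_le_mul_of_nonneg_right ?_ (hF y)
  have : ((Ico Y (2 * Y)).filter fun x => (x + d - 1) / d = y) ⊆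
      Ico (d * y + 1 - d) (d * y + 1) := by
    intro x hx
    have h1 := (mem_filter.1 hx).2
    have h2 := Nat.div_add_mod (x + d - 1) d
    have h3 := Nat.mod_lt (x + d - 1) hd
    rw [h1] at h2
    exact mem_Ico.2 (by omega)
  have h := card_le_card this
  rw [Nat.card_Ico] at h
  exact_mod_cast h.trans (by omega)

theorem scaled {f : ℕ → ℂ} (hf : CM f) (d b c R Y : ℕ) (hd : 0 < d) (hb : 0 < b) (hY : 0 < Y)
    (hc : Nat.Coprime c b) (η : ℝ) (hη : 0 ≤ η)
    (h : ∀ χ : DirichletCharacter ℂ b, ∑ x ∈ Ico (Y / d) (2 * (Y / d)),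
      ‖∑ j ∈ range (R / d), tw f χ (x + j)‖ ≤ η * (R / d : ℕ) * (Y / d : ℕ)) :
    ∑ x ∈ Ico Y (2 * Y), ‖∑ j ∈ (range R).filter (fun j => x + j ≡ d * c [MOD d * b]),
      f (x + j)‖ ≤ η * R * Y + 3 * R + Y := by
  let F : ℕ → ℝ := fun y => ‖∑ j ∈ (range (R / d)).filter (fun j => y + j ≡ c [MOD b]), f (y + j)‖
  have h1 : ∀ y, F y ≤ (R / d : ℕ) := fun y => by
    refine (norm_sum_le _ _).trans ((sum_le_card_nsmul _ _ 1 fun j _ => hf.bd _).trans ?_)
    rw [nsmul_eq_mul, mul_one]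
    exact_mod_cast (card_filter_le _ _).trans (card_range _).le
  have h2 : ∑ y ∈ Ico (Y / d) (2 * (Y / d)), F y ≤ η * (R / d : ℕ) * (Y / d : ℕ) :=
    coprime_class f b hb _ _ c _ hc h
  have h3 : ∑ y ∈ Ico (Y / d) (2 * (Y / d) + 3), F y ≤
      η * (R / d : ℕ) * (Y / d : ℕ) + 3 * (R / d : ℕ) := by
    rw [sum_Ico_succ_top (by omega), sum_Ico_succ_top (by omega), sum_Ico_succ_top (by omega)]
    linarith [h1 (2 * (Y / d)), h1 (2 * (Y / d) + 1), h1 (2 * (Y / d) + 2)]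
  have h4 := sum_ceil F (fun _ => norm_nonneg _) d Y hd
  refine (sum_le_sum fun x hx => point hf d b c R x hd (hY.trans_le (mem_Ico.1 hx).1)).trans ?_
  rw [sum_add_distrib, sum_const, Nat.card_Ico, nsmul_eq_mul, mul_one,
    show 2 * Y - Y = Y by omega]
  refine add_le_add (h4.trans ((mul_le_mul_of_nonneg_left h3 (by positivity)).trans ?_)) le_rfl
  have h6 : (d : ℝ) * (R / d : ℕ) ≤ R := by exact_mod_cast Nat.mul_div_le R d
  have h7 : ((Y / d : ℕ) : ℝ) ≤ Y := by exact_mod_cast Nat.div_le_self Y d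
  have h8 : (d : ℝ) * (R / d : ℕ) * (Y / d : ℕ) ≤ R * Y :=
    mul_le_mul h6 h7 (by positivity) (by positivity)
  nlinarith [mul_le_mul_of_nonneg_left h8 hη]

end MRH

theorem rmrh (hU : S_EulerUp) (hM : S_MRNP) : S_RMRH := by
  intro f0 l hl _ hN b hb δ hδ
  obtain ⟨ε, R1, X1, hε, hM⟩ := hM (δ / 3) (by positivity)
  set C : ℕ := b + ⌈2 / δ⌉₊ + 1 + ⌈12 / ε⌉₊ with hC
  have hb0 : (0 : ℝ) < b := by exact_mod_cast hb
  have c1 : 2 / δ + 1 ≤ (C : ℝ) := by
    rw [hC]; push_cast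
    linarith [Nat.le_ceil (2 / δ), Nat.cast_nonneg (α := ℝ) ⌈12 / ε⌉₊]
  have c2 : 12 / ε ≤ (C : ℝ) :=
    (Nat.le_ceil _).trans (by exact_mod_cast (show ⌈12 / ε⌉₊ ≤ C by omega))
  have c0 : (0 : ℝ) < C := lt_of_lt_of_le (by positivity) c2
  have c3 : 2 * Real.exp (-(C : ℝ) / 6) ≤ ε := by
    have h1 : (C : ℝ) / 6 ≤ Real.exp (C / 6) := by linarith [Real.add_one_le_exp ((C : ℝ) / 6)]
    rw [div_le_iff₀ hε] at c2
    rw [neg_div, Real.exp_neg, ← div_eq_mul_inv, div_le_iff₀ (Real.exp_pos _)]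
    nlinarith
  have ev : ∀ᶠ X : ℕ in atTop, 3 ≤ X ∧
      2 * b + X1 + 3 + 9 / δ ≤ (X : ℝ) ^ (1 / (C : ℝ)) :=
    (eventually_ge_atTop 3).and (((tendsto_rpow_atTop (by positivity)).comp
      tendsto_natCast_atTop_atTop).eventually_ge_atTop _)
  refine ⟨b * R1 + ⌈3 / δ⌉₊, ε / (2 * b), by positivity, ?_⟩
  filter_upwards [hN C (by omega), hl ev] with X hX0 ⟨hX3, hy⟩ f hf hff Y hY1 hY2 R hR0 hR1 c
  have hX1 : (1 : ℝ) ≤ X := by exact_mod_cast (show 1 ≤ X by omega)
  set y : ℝ := (X : ℝ) ^ (1 / (C : ℝ)) with hyd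
  have hX : ∀ b : ℕ, 0 < b → b ≤ C → ∀ (χ : DirichletCharacter ℂ b) (t : ℝ),
      |t| ≤ (X : ℝ) ^ C → (C : ℝ) ≤ dd (tw f χ) t y := fun b hb hbC χ t ht => by
    refine (hX0 b hb hbC χ t ht).trans (le_of_eq (sum_congr rfl fun p hp => ?_))
    have hp1 := mem_filter.1 hp
    have hp2 : (p : ℝ) ≤ y :=
      (Nat.le_floor_iff (by positivity)).1 (mem_Ioc.1 hp1.1).2
    have hp3 : y ≤ (X : ℝ) ^ δ := by
      refine Real.rpow_le_rpow_of_exponent_le hX1 ?_
      rw [div_le_iff₀' c0, ← div_le_iff₀ hδ]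
      have : 1 / δ ≤ 2 / δ := by gcongr; norm_num
      linarith
    simp only [tw, hff p hp1.2 (hp2.trans hp3)]
  have p1 : (0 : ℝ) ≤ X1 := by positivity
  have p2 : 0 < 9 / δ := by positivity
  have y2 : y * y ≤ Y := by
    rw [hyd, ← Real.rpow_add (by positivity)]
    refine (Real.rpow_le_rpow_of_exponent_le hX1 ?_).trans hY1
    rw [← add_div, div_le_iff₀' c0, ← div_le_iff₀ hδ]
    linarith
  have y3 : 2 * b * y ≤ Y := (mul_le_mul_of_nonneg_right (by linarith) (by linarith)).trans y2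
  set d := Nat.gcd c b with hd
  have d0 : 0 < d := Nat.gcd_pos_of_pos_right c hb
  have d1 : d ≤ b := Nat.gcd_le_right c hb
  have bY : b ≤ Y := by
    have : (b : ℝ) ≤ Y := le_trans (by nlinarith) y3
    exact_mod_cast this
  have Y1 : 0 < Y / d := Nat.div_pos (d1.trans bY) d0
  have Y2 : (Y : ℝ) ≤ 2 * b * (Y / d : ℕ) := by
    have h2 := Nat.div_add_mod Y d
    have h3 := Nat.mod_lt Y d0
    have h4 : d * (Y / d) ≤ b * (Y / d) := Nat.mul_le_mul_right _ d1
    have h5 : d ≤ d * (Y / d) := Nat.le_mul_of_pos_right _ Y1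
    have : Y ≤ 2 * b * (Y / d) := by rw [mul_assoc]; omega
    exact_mod_cast this
  have Y3 : y ≤ (Y / d : ℕ) := le_of_mul_le_mul_left (y3.trans Y2) (by positivity)
  have Y4 : ((Y / d : ℕ) : ℝ) ≤ Y := by exact_mod_cast Nat.div_le_self Y d
  have Y5 : 3 * ((Y / d : ℕ) : ℝ) ≤ (X : ℝ) ^ C := by
    have h1 : (3 : ℝ) ≤ X := by exact_mod_cast hX3
    have h2 : (X : ℝ) ^ (1 / δ) * X ≤ (X : ℝ) ^ C := by
      rw [← Real.rpow_add_one (by positivity), ← Real.rpow_natCast]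
      refine Real.rpow_le_rpow_of_exponent_le hX1 (le_trans ?_ c1)
      have : 1 / δ ≤ 2 / δ := by gcongr; norm_num
      linarith
    refine le_trans ?_ h2
    rw [mul_comm]
    exact mul_le_mul (Y4.trans hY2) h1 (by norm_num) (by positivity)
  have Y6 : 1 ≤ Real.log (Y / d : ℕ) := by
    rw [Real.le_log_iff_exp_le (by exact_mod_cast Y1)]
    linarith [Real.exp_one_lt_three]
  have b1 : 0 < b / d := Nat.div_pos d1 d0
  have key := MRH.scaled hf.1 d (b / d) (c / d) R Y d0 b1 (hb.trans_le bY)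
    (Nat.coprime_div_gcd_div_gcd d0) (δ / 3) (by positivity) fun χ => by
      refine hM (Y / d) (by exact_mod_cast (show (X1 : ℝ) ≤ (Y / d : ℕ) by linarith)) _
        (MRH.tw_CM hf.1 χ) (fun t ht => ?_) (R / d) ?_ ?_
      · have h1 := hX (b / d) b1 ((Nat.div_le_self _ _).trans (by omega)) χ t (ht.trans Y5)
        refine (hU _ (MRH.tw_CM hf.1 χ) (MRH.tw_one hf χ) y _ t (by linarith) Y3).trans ?_
        have h2 : Real.exp (-(dd (tw f χ) t y) / 6) ≤ Real.exp (-(C : ℝ) / 6) :=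
          Real.exp_le_exp.2 (by linarith)
        calc _ ≤ (2 * Real.log (Y / d : ℕ)) * Real.exp (-(C : ℝ) / 6) :=
              mul_le_mul (by linarith) h2 (Real.exp_pos _).le (by linarith)
          _ = 2 * Real.exp (-(C : ℝ) / 6) * Real.log (Y / d : ℕ) := by ring
          _ ≤ _ := mul_le_mul_of_nonneg_right c3 (by linarith)
      · rw [Nat.le_div_iff_mul_le d0]
        have := Nat.mul_le_mul_left R1 d1
        rw [mul_comm R1 b] at this
        omega
      · have h1 : ((R / d : ℕ) : ℝ) ≤ R := by exact_mod_cast Nat.div_le_self R d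
        refine h1.trans (hR1.trans ?_)
        rw [div_mul_eq_mul_div, div_le_iff₀ (by positivity)]
        nlinarith
  rw [Nat.mul_div_cancel' (Nat.gcd_dvd_left c b), Nat.mul_div_cancel' (Nat.gcd_dvd_right c b)]
    at key
  refine key.trans ?_
  have r1 : 3 ≤ δ * R := by
    have : 3 / δ ≤ R := (Nat.le_ceil _).trans (by exact_mod_cast (show ⌈3 / δ⌉₊ ≤ R by omega))
    rwa [div_le_iff₀' hδ] at this
  have r2 : 9 ≤ δ * Y := by
    have : 9 / δ ≤ Y := by linarith
    rwa [div_le_iff₀' hδ] at this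
  nlinarith [mul_le_mul_of_nonneg_left r1 (Nat.cast_nonneg (α := ℝ) Y),
    mul_le_mul_of_nonneg_left r2 (Nat.cast_nonneg (α := ℝ) R)]

theorem mrh (hU : S_EulerUp) (hM : S_MRNP) : S_MRH := fun f l hl hf hN =>
  (rmrh hU hM f l hl hf hN).mrh hf

end Pool.Agent.P.MP_e30989_nt.W
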