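import Pool.Agent.P.MP_e30989_nt.W.St

/-!
Package W9: the unimodular completely multiplicative function attached to f.
-/

open Finset MeasureTheory Filter Topology

namespace Pool.Agent.P.MP_e30989_nt.W

open Pool.Agent.P.MP_a14ce1_nt.Ch

namespace Att

theorem norm_le (z : Disc) : ‖(z : ℂ)‖ ≤ 1 := mem_closedBall_zero_iff.mp z.2

/-- the argument of a complex number, as a point of the unit circle -/
noncomputable def sg (z : ℂ) : ℂ := if z = 0 then 1 else z / ‖z‖

theorem norm_sg (z : ℂ) : ‖sg z‖ = 1 := by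
  unfold sg
  split_ifs with h
  · exact norm_one
  · rw [norm_div, Complex.norm_real, norm_norm, div_self (norm_ne_zero_iff.mpr h)]

theorem mul_sg (z : ℂ) : z = (‖z‖ : ℂ) * sg z := by
  unfold sg
  split_ifs with h
  · simp [h]
  · rw [mul_div_cancel₀ _ (by simpa using h)]

theorem norm_nit (t y : ℝ) : ‖nit t y‖ = 1 := Complex.norm_exp_ofReal_mul_I _

theorem cpow_eq (t : ℝ) {p : ℕ} (hp : p ≠ 0) : (p : ℂ) ^ (-(t * Complex.I)) = nit t p := by
  rw [Complex.cpow_def_of_ne_zero (Nat.cast_ne_zero.mpr hp), nit, ex, ← Complex.natCast_log]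
  congr 1
  push_cast
  ring

theorem re_le {g : ℕ → ℂ} (hg : UCM g) {b : ℕ} (χ : DirichletCharacter ℂ b) (t : ℝ) (p : ℕ) :
    |(tw g χ p * nit t p).re| ≤ 1 := by
  refine (Complex.abs_re_le_norm _).trans ?_
  rw [tw, norm_mul, norm_mul, norm_nit, mul_one]
  exact mul_le_one₀ (hg.1.bd p) (norm_nonneg _) (χ.norm_le_one _)

theorem pret {f : ℕ → Disc} {g : ℕ → ℂ} (h : Att f g) (hF : Full f) (hP : Pret' g) : Pret f := by
  obtain ⟨b, hb, χ, t, C, hC⟩ := hP
  have : NeZero b := ⟨hb.ne'⟩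
  have h1 : Summable fun p : Nat.Primes =>
      (1 - (tw g χ p * nit t ((p : ℕ) : ℝ)).re) / ((p : ℕ) : ℝ) := by
    refine summable_of_sum_le (c := C) (fun p => div_nonneg (sub_nonneg.mpr
      (abs_le.mp (re_le h.1 χ t p)).2) (Nat.cast_nonneg _)) fun u => ?_
    refine le_trans ?_ (hC (u.sup Subtype.val : ℕ))
    rw [← Finset.sum_image (s := u) (g := Subtype.val)
      (f := fun p : ℕ => (1 - (tw g χ p * nit t p).re) / p) Subtype.val_injective.injOn]
    refine sum_le_sum_of_subset_of_nonneg (fun p hp => ?_) fun p _ _ => div_nonneg (sub_nonneg.mpr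
      (abs_le.mp (re_le h.1 χ t p)).2) (Nat.cast_nonneg _)
    obtain ⟨q, hq, rfl⟩ := mem_image.mp hp
    simp only [pr, Nat.floor_zero, Nat.floor_natCast, mem_filter, mem_Ioc]
    exact ⟨⟨q.2.pos, le_sup (f := Subtype.val) hq⟩, q.2⟩
  have h2 : ∀ p : Nat.Primes, ((f p : ℂ) * (starRingEnd ℂ) (χ⁻¹ ((p : ℕ) : ZMod b)) *
      ((p : ℕ) : ℂ) ^ (-(t * Complex.I))).re =
      ‖(f p : ℂ)‖ * (tw g χ p * nit t ((p : ℕ) : ℝ)).re := fun p => by
    rw [cpow_eq t p.2.ne_zero, ← MulChar.star_apply', starRingEnd_apply, star_star,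
      ← Complex.re_ofReal_mul, tw, ← mul_assoc, ← mul_assoc, ← h.2 p p.2]
  refine ⟨b, hb, χ⁻¹, t, .of_nonneg_of_le (fun p => ?_) (fun p => ?_) (hF.add h1)⟩
  · rw [h2]
    refine div_nonneg (sub_nonneg.mpr ?_) (Nat.cast_nonneg _)
    have := abs_le.mp (re_le h.1 χ t p)
    nlinarith [norm_le (f p), norm_nonneg (f p : ℂ)]
  · rw [h2, ← add_div]
    refine div_le_div_of_nonneg_right ?_ (Nat.cast_nonneg _)
    have := abs_le.mp (re_le h.1 χ t p)
    nlinarith [norm_le (f p), norm_nonneg (f p : ℂ)]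

/-- the local error -/
noncomputable def er (f : ℕ → Disc) (p n : ℕ) : ℝ := (1 - ‖(f p : ℂ)‖) + if p ^ 2 ∣ n then 2 else 0

theorem er_nonneg (f : ℕ → Disc) (p n : ℕ) : 0 ≤ er f p n :=
  add_nonneg (sub_nonneg.mpr (norm_le _)) (by positivity)

theorem er_mono (f : ℕ → Disc) (p : ℕ) {m n : ℕ} (h : m ∣ n) : er f p m ≤ er f p n := by
  unfold er
  by_cases h1 : p ^ 2 ∣ m
  · rw [if_pos h1, if_pos (h1.trans h)]
  · rw [if_neg h1]
    exact add_le_add le_rfl (by positivity)

theorem close {f : ℕ → Disc} {g : ℕ → ℂ} (hf : IsMult f) (h : Att f g) (m : ℕ) (hm : m ≠ 0) :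
    ‖(f m : ℂ) - g m‖ ≤ ∑ p ∈ m.primeFactors, er f p m := by
  induction m using Nat.recOnPosPrimePosCoprime with
  | zero => exact absurd rfl hm
  | one =>
    have h1 := h.1.1.mul 1 1 one_ne_zero one_ne_zero
    have h2 : g 1 ≠ 0 := norm_ne_zero_iff.mp (by rw [h.1.2 1 one_ne_zero]; exact one_ne_zero)
    rw [hf.1, (mul_eq_left₀ h2).mp h1.symm]
    simp
  | prime_pow p n hp hn =>
    rw [Nat.primeFactors_prime_pow hn.ne' hp, sum_singleton]
    obtain rfl | h1 := (Nat.succ_le_of_lt hn).eq_or_lt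
    · refine le_trans ?_ (le_add_of_nonneg_right (by positivity))
      simp only [Nat.succ_eq_add_one, zero_add, pow_one]
      conv_lhs => rw [h.2 p hp, ← sub_one_mul, norm_mul, h.1.2 p hp.ne_zero, mul_one,
        ← Complex.ofReal_one, ← Complex.ofReal_sub, Complex.norm_real, Real.norm_eq_abs]
      rw [abs_sub_comm, abs_of_nonneg (sub_nonneg.mpr (norm_le _))]
    · rw [er, if_pos (pow_dvd_pow p h1)]
      linarith [norm_sub_le (f (p ^ n) : ℂ) (g (p ^ n)), norm_le (f (p ^ n)), norm_le (f p),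
        h.1.1.bd (p ^ n)]
  | coprime a b ha hb hab iha ihb =>
    have ha0 : a ≠ 0 := by omega
    have hb0 : b ≠ 0 := by omega
    rw [hab.primeFactors_mul, sum_union hab.disjoint_primeFactors,
      hf.2 a b (by omega) (by omega) hab, h.1.1.mul a b ha0 hb0,
      show (f a : ℂ) * f b - g a * g b = (f a - g a) * f b + g a * (f b - g b) by ring]
    refine (norm_add_le _ _).trans (add_le_add ?_ ?_)
    · rw [norm_mul]
      exact (mul_le_of_le_one_right (norm_nonneg _) (norm_le _)).trans ((iha ha0).trans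
        (sum_le_sum fun p _ => er_mono f p (dvd_mul_right a b)))
    · rw [norm_mul, h.1.2 a ha0, one_mul]
      exact (ihb hb0).trans (sum_le_sum fun p _ => er_mono f p (dvd_mul_left b a))

theorem count (N q : ℕ) (c : ℝ) (hc : 0 ≤ c) :
    ∑ n ∈ Icc 1 N, (if q ∣ n then c else 0) ≤ c / q * N := by
  rw [← sum_filter, sum_const, show Icc 1 N = Ioc 0 N from rfl, Nat.Ioc_filter_dvd_card_eq_div,
    nsmul_eq_mul, div_mul_eq_mul_div, mul_div_assoc, mul_comm]
  exact mul_le_mul_of_nonneg_left Nat.cast_div_le hc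

end Att

open Att

theorem att : S_Att := fun f => by
  have h1 : ∀ n : ℕ, ‖n.factorization.prod fun p k => sg (f p) ^ k‖ = 1 := fun n => by
    simp [Finsupp.prod, norm_prod, norm_sg]
  have h : Att f fun n => n.factorization.prod fun p k => sg (f p) ^ k := by
    refine ⟨⟨⟨fun m n hm hn => ?_, fun n => (h1 n).le⟩, fun n _ => h1 n⟩, fun p hp => ?_⟩
    · rw [Nat.factorization_mul hm hn,
        Finsupp.prod_add_index' (fun _ => pow_zero _) fun _ _ _ => pow_add _ _ _]
    · simp only [hp.factorization]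
      rw [Finsupp.prod_single_index (by simp), pow_one]
      exact mul_sg _
  exact ⟨_, h, pret h⟩

theorem tail : S_Tail := fun f g hf hF h ε hε => by
  have h1 : Summable fun p : Nat.Primes => (2 : ℝ) / ((p : ℕ) ^ 2 : ℕ) := by
    have := ((Real.summable_nat_pow_inv.mpr one_lt_two).mul_left 2).comp_injective
      (Subtype.val_injective (p := Nat.Prime))
    refine this.congr fun p => ?_
    simp [div_eq_mul_inv]
  obtain ⟨s, hs⟩ := (hF.add h1).vanishing (Iic_mem_nhds hε)
  refine ⟨s.sup Subtype.val, fun w hw => ⟨fun n => ∑ p ∈ n.primeFactors with w < p, er f p n,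
    fun n => sum_nonneg fun p _ => er_nonneg f p n, fun d m hd hm _ hc => ?_, fun N => ?_⟩⟩
  · refine (close hf h m hm.ne').trans ((sum_le_sum fun p _ =>
      er_mono f p (dvd_mul_left m d)).trans (sum_le_sum_of_subset_of_nonneg (fun p hp => ?_)
        fun p _ _ => er_nonneg f p _))
    have hp1 := Nat.prime_of_mem_primeFactors hp
    have hp2 := Nat.dvd_of_mem_primeFactors hp
    refine mem_filter.mpr ⟨Nat.mem_primeFactors.mpr ⟨hp1, hp2.mul_left d, by positivity⟩, ?_⟩
    by_contra h2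
    exact hp1.one_lt.ne' (Nat.eq_one_of_dvd_coprimes hc hp2
      (hp1.dvd_primorial_iff.mpr (not_lt.mp h2)))
  · have h2 := hs ((Ioc w N).subtype Nat.Prime) (disjoint_left.mpr fun p h2 h3 => by
      have := (mem_Ioc.mp (mem_subtype.mp h2)).1
      exact absurd ((le_sup (f := Subtype.val) h3).trans hw) (not_le.mpr this))
    have h3 := sum_subtype_eq_sum_filter (s := Ioc w N) (p := Nat.Prime)
      fun p : ℕ => (1 - ‖(f p : ℂ)‖) / (p : ℝ) + (2 : ℝ) / (p ^ 2 : ℕ)
    replace h2 := h3.ge.trans h2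
    calc ∑ n ∈ Icc 1 N, ∑ p ∈ n.primeFactors with w < p, er f p n
        ≤ ∑ n ∈ Icc 1 N, ∑ p ∈ Ioc w N with p.Prime,
          ((if p ∣ n then 1 - ‖(f p : ℂ)‖ else 0) + if p ^ 2 ∣ n then 2 else 0) := by
          refine sum_le_sum fun n hn => ?_
          refine (sum_congr rfl fun p hp => ?_).trans_le (sum_le_sum_of_subset_of_nonneg
            (fun p hp => ?_) fun p _ _ => ?_)
          · rw [if_pos (Nat.dvd_of_mem_primeFactors (mem_filter.mp hp).1), er]
          · obtain ⟨h4, h5⟩ := mem_filter.mp hp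
            exact mem_filter.mpr ⟨mem_Ioc.mpr ⟨h5, (Nat.le_of_mem_primeFactors h4).trans
              (mem_Icc.mp hn).2⟩, Nat.prime_of_mem_primeFactors h4⟩
          · have := sub_nonneg.mpr (norm_le (f p))
            positivity
      _ ≤ ∑ p ∈ Ioc w N with p.Prime,
          ((1 - ‖(f p : ℂ)‖) / (p : ℝ) + (2 : ℝ) / (p ^ 2 : ℕ)) * N := by
          rw [sum_comm]
          refine sum_le_sum fun p _ => ?_
          rw [sum_add_distrib, add_mul]
          exact add_le_add (count N p _ (sub_nonneg.mpr (norm_le _))) (count N _ 2 zero_le_two)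
      _ ≤ ε * N := by
          rw [← sum_mul]
          exact mul_le_mul_of_nonneg_right h2 (Nat.cast_nonneg N)

end Pool.Agent.P.MP_e30989_nt.W
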