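import Pool.Agent.P.MP_e30989_nt.W.St

/-!
A multiplicative function is close in mean to a combination of unimodular completely multiplicative
functions.
-/

open Finset

namespace Pool.Agent.P.MP_e30989_nt.W

open Pool.Agent.P.MP_a14ce1_nt.Ch

namespace Comb

theorem ucm_mul {u v : ℕ → ℂ} (hu : UCM u) (hv : UCM v) : UCM fun n => u n * v n := by
  refine ⟨⟨fun m n hm hn => ?_, fun n => ?_⟩, fun n hn => ?_⟩
  · rw [hu.1.mul m n hm hn, hv.1.mul m n hm hn]
    ring
  · rw [norm_mul]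
    exact mul_le_one₀ (hu.1.bd n) (norm_nonneg _) (hv.1.bd n)
  · rw [norm_mul, hu.2 n hn, hv.2 n hn, one_mul]

theorem ucm_one {g : ℕ → ℂ} (hg : UCM g) : g 1 = 1 := by
  have h1 := hg.1.mul 1 1 one_ne_zero one_ne_zero
  have h2 : g 1 ≠ 0 := fun h => by simpa [h] using hg.2 1 one_ne_zero
  rw [mul_one] at h1
  exact mul_left_cancel₀ h2 (by rw [← h1, mul_one])

theorem ucm_pow {g : ℕ → ℂ} (hg : UCM g) {p : ℕ} (hp : p ≠ 0) (k : ℕ) : g (p ^ k) = g p ^ k := by
  induction k with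
  | zero => rw [pow_zero, pow_zero, ucm_one hg]
  | succ k ih => rw [pow_succ, hg.1.mul _ _ (pow_ne_zero _ hp) hp, ih, pow_succ]

/-- combinations of unimodular completely multiplicative functions trivial at large primes -/
def K (w : ℕ) (a : ℕ → ℂ) : Prop :=
  ∃ (ι : Type) (_ : Fintype ι) (c : ι → ℂ) (v : ι → ℕ → ℂ),
    (∀ i, UCM (v i) ∧ ∀ p, p.Prime → w < p → v i p = 1) ∧ ∀ n, a n = ∑ i, c i * v i n

theorem K_one (w : ℕ) : K w fun _ => 1 :=
  ⟨Unit, inferInstance, fun _ => 1, fun _ _ => 1,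
    fun _ => ⟨⟨⟨fun _ _ _ _ => (mul_one _).symm, fun _ => norm_one.le⟩, fun _ _ => norm_one⟩,
      fun _ _ _ => rfl⟩, fun _ => by simp⟩

theorem K_mul {w : ℕ} {a b : ℕ → ℂ} (ha : K w a) (hb : K w b) : K w fun n => a n * b n := by
  obtain ⟨ι, _, c, v, hv, ha⟩ := ha
  obtain ⟨ι', _, c', v', hv', hb⟩ := hb
  refine ⟨ι × ι', inferInstance, fun i => c i.1 * c' i.2, fun i n => v i.1 n * v' i.2 n,
    fun i => ⟨ucm_mul (hv _).1 (hv' _).1, fun p hp hw => ?_⟩, fun n => ?_⟩
  · simp only [(hv _).2 p hp hw, (hv' _).2 p hp hw, mul_one]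
  · simp only [ha n, hb n, sum_mul_sum, Fintype.sum_prod_type]
    exact sum_congr rfl fun i _ => sum_congr rfl fun j _ => by ring

theorem K_prod {w : ℕ} (P : Finset ℕ) {a : ℕ → ℕ → ℂ} (ha : ∀ p ∈ P, K w (a p)) :
    K w fun n => ∏ p ∈ P, a p n := by
  induction P using Finset.induction_on with
  | empty => simpa using K_one w
  | insert p P hp ih =>
    simp only [prod_insert hp]
    exact K_mul (ha p (mem_insert_self _ _)) (ih fun q hq => ha q (mem_insert_of_mem hq))

theorem K_phi {w p J : ℕ} (hp : p ≤ w) (hJ : 0 < J) (φ : ℕ → ℂ) :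
    K w fun n => φ (n.factorization p % J) := by
  haveI : NeZero J := ⟨hJ.ne'⟩
  refine ⟨ZMod J, inferInstance, fun j => (J : ℂ)⁻¹ * ZMod.dft (fun k : ZMod J => φ k.val) j,
    fun j n => ZMod.stdAddChar (j * (n.factorization p : ZMod J)),
    fun j => ⟨⟨⟨fun m n hm hn => ?_, fun n => ?_⟩, fun n _ => ?_⟩, fun q hq hw => ?_⟩, fun n => ?_⟩
  · simp only [Nat.factorization_mul hm hn, Finsupp.add_apply, Nat.cast_add, mul_add,
      AddChar.map_add_eq_mul]
  · simp only [ZMod.stdAddChar_apply, Circle.norm_coe, le_refl]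
  · simp only [ZMod.stdAddChar_apply, Circle.norm_coe]
  · simp only [hq.factorization, Finsupp.single_eq_of_ne (show p ≠ q by omega), Nat.cast_zero,
      mul_zero, AddChar.map_zero_eq_one]
  · have h := ZMod.invDFT_apply (ZMod.dft fun k : ZMod J => φ k.val) (n.factorization p : ZMod J)
    rw [LinearEquiv.symm_apply_apply, ZMod.val_natCast, smul_eq_mul, mul_sum] at h
    exact h.trans (sum_congr rfl fun j _ => by simp only [smul_eq_mul]; ring)

theorem prod_pos' {P : Finset ℕ} (hP : ∀ p ∈ P, p.Prime) (k : ℕ → ℕ) : 0 < ∏ p ∈ P, p ^ k p :=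
  prod_pos fun p hp => pow_pos (hP p hp).pos _

theorem mult_prod {f : ℕ → Disc} (hf : IsMult f) (k : ℕ → ℕ) (P : Finset ℕ)
    (hP : ∀ p ∈ P, p.Prime) : (f (∏ p ∈ P, p ^ k p) : ℂ) = ∏ p ∈ P, (f (p ^ k p) : ℂ) := by
  induction P using Finset.induction_on with
  | empty => simpa using hf.1
  | insert p P hp ih =>
    have hP' : ∀ q ∈ P, q.Prime := fun q hq => hP q (mem_insert_of_mem hq)
    have hpp := hP p (mem_insert_self _ _)
    rw [prod_insert hp, prod_insert hp, hf.2 _ _ (pow_pos hpp.pos _) (prod_pos' hP' k), ih hP']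
    exact Nat.Coprime.prod_right fun q hq =>
      Nat.Coprime.pow _ _ ((Nat.coprime_primes hpp (hP' q hq)).2 fun h => hp (h ▸ hq))

theorem ucm_prod {g : ℕ → ℂ} (hg : UCM g) (k : ℕ → ℕ) (P : Finset ℕ)
    (hP : ∀ p ∈ P, p.Prime) : g (∏ p ∈ P, p ^ k p) = ∏ p ∈ P, g p ^ k p := by
  induction P using Finset.induction_on with
  | empty => simpa using ucm_one hg
  | insert p P hp ih =>
    have hP' : ∀ q ∈ P, q.Prime := fun q hq => hP q (mem_insert_of_mem hq)
    have hpp := hP p (mem_insert_self _ _)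
    rw [prod_insert hp, prod_insert hp, hg.1.mul _ _ (pow_pos hpp.pos _).ne' (prod_pos' hP' k).ne',
      ih hP', ucm_pow hg hpp.ne_zero]

/-- splitting off the part supported on a set of primes -/
theorem split {P : Finset ℕ} (hP : ∀ p ∈ P, p.Prime) {n : ℕ} (hn : n ≠ 0) :
    ∃ m, 0 < m ∧ n = (∏ p ∈ P, p ^ n.factorization p) * m ∧ ∀ p ∈ P, Nat.Coprime m p := by
  have hd := prod_pos' hP n.factorization
  have hfac : ∀ q, (∏ p ∈ P, p ^ n.factorization p).factorization q =
      if q ∈ P then n.factorization q else 0 := fun q => by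
    rw [Nat.factorization_prod fun p hp => (pow_pos (hP p hp).pos _).ne', Finsupp.finset_sum_apply,
      sum_congr rfl fun p hp => by rw [(hP p hp).factorization_pow, Finsupp.single_apply],
      sum_ite_eq']
  obtain ⟨m, hm⟩ : (∏ p ∈ P, p ^ n.factorization p) ∣ n :=
    (Nat.factorization_le_iff_dvd hd.ne' hn).1 fun q => by
      rw [hfac]
      split_ifs
      exacts [le_rfl, Nat.zero_le _]
  have hm0 : m ≠ 0 := fun h => hn (by rw [hm, h, mul_zero])
  refine ⟨m, Nat.pos_of_ne_zero hm0, hm, fun p hp => ?_⟩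
  have h1 : n.factorization p = (∏ p ∈ P, p ^ n.factorization p).factorization p +
      m.factorization p := by
    rw [← Finsupp.add_apply, ← Nat.factorization_mul hd.ne' hm0, ← hm]
  rw [hfac, if_pos hp] at h1
  refine ((hP p hp).coprime_iff_not_dvd.2 fun h => ?_).symm
  have := (hP p hp).factorization_pos_of_dvd hm0 h
  omega

theorem norm_disc (z : Disc) : ‖(z : ℂ)‖ ≤ 1 := mem_closedBall_zero_iff.1 z.2

theorem count (p J N : ℕ) (hp : 2 ≤ p) :
    ∑ n ∈ Icc 1 N, (if p ^ J ∣ n then (1 : ℝ) else 0) ≤ N / 2 ^ J := by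
  rw [sum_boole, show Icc 1 N = Ioc 0 N from rfl, Nat.Ioc_filter_dvd_card_eq_div]
  refine Nat.cast_div_le.trans (div_le_div_of_nonneg_left (Nat.cast_nonneg _) (by positivity) ?_)
  exact_mod_cast Nat.pow_le_pow_left hp J

end Comb

open Comb

theorem comb (hT : S_Tail) : S_Comb := by
  intro f g hf hF hA ε hε
  obtain ⟨w, hw⟩ := hT f g hf hF hA (ε / 2) (half_pos hε)
  obtain ⟨e, he0, he, heN⟩ := hw w le_rfl
  obtain ⟨J₀, hJ₀⟩ := pow_unbounded_of_one_lt (4 * ((w : ℝ) + 1) / ε) (one_lt_two (α := ℝ))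
  set J := J₀ + 1 with hJ
  have hJε : 4 * ((w : ℝ) + 1) ≤ ε * 2 ^ J := by
    rw [div_lt_iff₀ hε] at hJ₀
    have : (2 : ℝ) ^ J₀ ≤ 2 ^ J := pow_le_pow_right₀ one_le_two (Nat.le_succ _)
    nlinarith
  set P := (range (w + 1)).filter Nat.Prime with hPdef
  have hP : ∀ p ∈ P, p.Prime := fun p hp => (mem_filter.1 hp).2
  have hPw : ∀ p ∈ P, p ≤ w := fun p hp => Nat.lt_succ_iff.1 (mem_range.1 (mem_filter.1 hp).1)
  set φ : ℕ → ℕ → ℂ := fun p v => f (p ^ v) * (starRingEnd ℂ) (g p) ^ v with hφ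
  obtain ⟨ι, _, c, v, hv, hb⟩ := K_prod (w := w) P
    (a := fun p n => φ p (n.factorization p % J)) fun p hp => K_phi (hPw p hp) (Nat.succ_pos _) _
  have hsum : ∀ n, ∑ i, c i * (g n * v i n) = g n * ∏ p ∈ P, φ p (n.factorization p % J) :=
    fun n => by
      rw [show ∏ p ∈ P, φ p (n.factorization p % J) = _ from hb n, mul_sum]
      exact sum_congr rfl fun i _ => by ring
  have hbd : ∀ n, ‖g n * ∏ p ∈ P, φ p (n.factorization p % J)‖ ≤ 1 := fun n => by
    rw [norm_mul, norm_prod]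
    refine mul_le_one₀ (hA.1.1.bd n) (prod_nonneg fun _ _ => norm_nonneg _)
      (prod_le_one (fun _ _ => norm_nonneg _) fun p _ => ?_)
    rw [hφ, norm_mul, norm_pow, Complex.norm_conj]
    exact mul_le_one₀ (norm_disc _) (by positivity) (pow_le_one₀ (norm_nonneg _) (hA.1.1.bd p))
  refine ⟨w, ι, inferInstance, c, fun i n => g n * v i n,
    fun i => ⟨ucm_mul hA.1 (hv i).1, fun p hp hw => by simp only [(hv i).2 p hp hw, mul_one]⟩,
    fun n => by rw [hsum]; exact hbd n, fun N => ?_⟩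
  have key : ∀ n ∈ Icc 1 N, ‖(f n : ℂ) - ∑ i, c i * (g n * v i n)‖ ≤
      e n + 2 * ∑ p ∈ P, if p ^ J ∣ n then (1 : ℝ) else 0 := by
    intro n hn
    have hn0 : n ≠ 0 := Nat.one_le_iff_ne_zero.1 (mem_Icc.1 hn).1
    have hnn : ∀ p ∈ P, (0 : ℝ) ≤ if p ^ J ∣ n then (1 : ℝ) else 0 := fun p _ => by
      split_ifs <;> norm_num
    rw [hsum]
    by_cases h : ∃ p ∈ P, p ^ J ∣ n
    · obtain ⟨p, hp, hpn⟩ := h
      have h1 := single_le_sum hnn hp
      rw [if_pos hpn] at h1
      have h2 := (norm_sub_le _ _).trans (add_le_add (norm_disc (f n)) (hbd n))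
      linarith [he0 n]
    · push Not at h
      obtain ⟨m, hm, hnm, hcop⟩ := split hP hn0
      have hd := prod_pos' hP n.factorization
      have hmod : ∀ p ∈ P, n.factorization p % J = n.factorization p := fun p hp =>
        Nat.mod_eq_of_lt (lt_of_not_ge fun hle =>
          h p hp (((hP p hp).pow_dvd_iff_le_factorization hn0).2 hle))
      have hprod : ∏ p ∈ P, φ p (n.factorization p % J) = f (∏ p ∈ P, p ^ n.factorization p) *
          (starRingEnd ℂ) (g (∏ p ∈ P, p ^ n.factorization p)) := by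
        rw [mult_prod hf _ P hP, ucm_prod hA.1 _ P hP, map_prod, ← prod_mul_distrib]
        exact prod_congr rfl fun p hp => by rw [hmod p hp, map_pow]
      have hdw : ∀ q, q.Prime → q ∣ ∏ p ∈ P, p ^ n.factorization p → q ≤ w := fun q hq hqd => by
        obtain ⟨p, hp, hqp⟩ := (Prime.dvd_finset_prod_iff hq.prime _).1 hqd
        exact (Nat.le_of_dvd (hP p hp).pos (hq.dvd_of_dvd_pow hqp)).trans (hPw p hp)
      have hdm : Nat.Coprime (∏ p ∈ P, p ^ n.factorization p) m :=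
        Nat.Coprime.prod_left fun p hp => (hcop p hp).symm.pow_left _
      rw [hprod]
      generalize ∏ p ∈ P, p ^ n.factorization p = d at hnm hd hdw hdm
      have h1 := he d m hd hm hdw (Nat.Coprime.prod_right hcop)
      have h2 : g d * (starRingEnd ℂ) (g d) = 1 := by
        rw [Complex.mul_conj, Complex.normSq_eq_norm_sq, hA.1.2 d hd.ne']
        simp
      have h3 : (f n : ℂ) - g n * (f d * (starRingEnd ℂ) (g d)) = f d * (f m - g m) := by
        rw [hnm, hf.2 d m hd hm hdm, hA.1.1.mul d m hd.ne' hm.ne']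
        linear_combination (-(f d : ℂ) * g m) * h2
      rw [h3, norm_mul, ← hnm] at *
      have h4 := mul_le_of_le_one_left (norm_nonneg ((f m : ℂ) - g m)) (norm_disc (f d))
      have h5 := sum_nonneg hnn
      linarith
  refine (sum_le_sum key).trans ?_
  rw [sum_add_distrib, ← mul_sum, sum_comm]
  have h1 : ∑ p ∈ P, ∑ n ∈ Icc 1 N, (if p ^ J ∣ n then (1 : ℝ) else 0) ≤
      (w + 1) * (N / 2 ^ J) := by
    refine (sum_le_card_nsmul _ _ _ fun p hp => count p J N (hP p hp).two_le).trans ?_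
    rw [nsmul_eq_mul]
    refine mul_le_mul_of_nonneg_right ?_ (by positivity)
    exact_mod_cast (card_filter_le _ _).trans (card_range _).le
  have h2 : 2 * (((w : ℝ) + 1) * (N / 2 ^ J)) ≤ ε / 2 * N := by
    rw [← mul_div_assoc, ← mul_div_assoc, div_le_iff₀ (by positivity)]
    nlinarith [mul_le_mul_of_nonneg_right hJε (Nat.cast_nonneg (α := ℝ) N)]
  linarith [heN N]

end Pool.Agent.P.MP_e30989_nt.W
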