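import Pool.Agent.P.MP_e30989_nt.W.St2

/-! Package W16: correlations of the multiplicative function itself. -/

open Finset Filter Topology

namespace Pool.Agent.P.MP_e30989_nt.W

open Pool.Agent.P.MP_a14ce1_nt.Ch

namespace Corr

variable {l : Filter ℕ}

theorem aas_add {c c' : ℕ → ℂ} (h : Aas l c) (h' : Aas l c') : Aas l fun N => c N + c' N := by
  intro δ hδ
  filter_upwards [h (δ / 2) (half_pos hδ), h' (δ / 2) (half_pos hδ)] with X h1 h2
  calc ∑ N ∈ Icc 1 X, ‖c N + c' N‖ / (N : ℝ)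
      ≤ ∑ N ∈ Icc 1 X, (‖c N‖ / (N : ℝ) + ‖c' N‖ / (N : ℝ)) := sum_le_sum fun N _ => by
        rw [← add_div]
        exact div_le_div_of_nonneg_right (norm_add_le _ _) (Nat.cast_nonneg _)
    _ ≤ δ * Real.log X := by rw [sum_add_distrib]; linarith

theorem aas_mul (a : ℂ) {c : ℕ → ℂ} (h : Aas l c) : Aas l fun N => a * c N := by
  intro δ hδ
  have hp : 0 < ‖a‖ + 1 := by positivity
  filter_upwards [h (δ / (‖a‖ + 1)) (div_pos hδ hp)] with X h1
  calc ∑ N ∈ Icc 1 X, ‖a * c N‖ / (N : ℝ)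
      ≤ ∑ N ∈ Icc 1 X, (‖a‖ + 1) * (‖c N‖ / (N : ℝ)) := sum_le_sum fun N _ => by
        rw [norm_mul, mul_div_assoc]
        exact mul_le_mul_of_nonneg_right (by linarith) (by positivity)
    _ ≤ (‖a‖ + 1) * (δ / (‖a‖ + 1) * Real.log X) := by
        rw [← mul_sum]; exact mul_le_mul_of_nonneg_left h1 hp.le
    _ = δ * Real.log X := by field_simp

theorem aas_zero : Aas l fun _ => 0 := fun δ hδ => Eventually.of_forall fun X => by
  simpa using mul_nonneg hδ.le (Real.log_natCast_nonneg X)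

theorem aas_sum {ι : Type} (s : Finset ι) {c : ι → ℕ → ℂ} (h : ∀ i, Aas l (c i)) :
    Aas l fun N => ∑ i ∈ s, c i N := by
  classical
  induction s using Finset.induction_on with
  | empty => simpa using aas_zero
  | insert a s ha ih => simpa only [sum_insert ha] using aas_add (h a) ih

theorem aas_approx (hl : l ≤ atTop) {c : ℕ → ℂ}
    (h : ∀ ε : ℝ, 0 < ε → ∃ c', Aas l c' ∧ ∀ N, 1 ≤ N → ‖c N - c' N‖ ≤ ε) : Aas l c := by
  intro δ hδ
  obtain ⟨c', h1, h2⟩ := h (δ / 4) (by positivity)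
  filter_upwards [h1 (δ / 2) (half_pos hδ), hl (eventually_ge_atTop 3)] with X h3 h4
  have h4' : (3 : ℝ) ≤ X := by exact_mod_cast h4
  have h5 : 1 ≤ Real.log X := by
    rw [Real.le_log_iff_exp_le (by linarith)]
    exact (Real.exp_one_lt_d9.le.trans (by norm_num)).trans h4'
  have h6 : ∑ N ∈ Icc 1 X, (1 : ℝ) / N ≤ 1 + Real.log X := by
    have := harmonic_le_one_add_log X
    rw [harmonic_eq_sum_Icc] at this
    simpa using this
  calc ∑ N ∈ Icc 1 X, ‖c N‖ / (N : ℝ)
      ≤ ∑ N ∈ Icc 1 X, (‖c' N‖ / (N : ℝ) + δ / 4 * (1 / N)) := sum_le_sum fun N hN => by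
        rw [mul_one_div, ← add_div]
        refine div_le_div_of_nonneg_right ?_ (Nat.cast_nonneg _)
        have := norm_add_le (c' N) (c N - c' N)
        rw [add_sub_cancel] at this
        linarith [h2 N (mem_Icc.1 hN).1]
    _ ≤ δ / 2 * Real.log X + δ / 4 * (1 + Real.log X) := by
        rw [sum_add_distrib, ← mul_sum]
        exact add_le_add h3 (mul_le_mul_of_nonneg_left h6 (by positivity))
    _ ≤ δ * Real.log X := by nlinarith

theorem ucm_conj {u : ℕ → ℂ} (h : UCM u) : UCM fun n => (starRingEnd ℂ) (u n) := by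
  obtain ⟨⟨h1, h2⟩, h3⟩ := h
  refine ⟨⟨?_, ?_⟩, fun n hn => by simpa using h3 n hn⟩
  · intro m n hm hn
    simp only [h1 m n hm hn, map_mul]
  · intro n
    simpa using h2 n

theorem mono_cons (a : ℕ × Bool) (m : List (ℕ × Bool)) (x : ℕ → ℂ) : mono (a :: m) x =
    (if a.2 then (starRingEnd ℂ) (x (a.1 + 1)) else x (a.1 + 1)) * mono m x := by
  simp [mono]

theorem mono_nil (x : ℕ → ℂ) : mono [] x = 1 := by simp [mono]

theorem norm_mono_le (m : List (ℕ × Bool)) {x : ℕ → ℂ} (hx : ∀ n, ‖x n‖ ≤ 1) :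
    ‖mono m x‖ ≤ 1 := by
  induction m with
  | nil => simp [mono_nil]
  | cons a m ih =>
    rw [mono_cons, norm_mul]
    refine mul_le_one₀ ?_ (norm_nonneg _) ih
    split_ifs
    · simpa using hx _
    · exact hx _

theorem norm_mul_sub {a b a' b' : ℂ} (hb : ‖b‖ ≤ 1) (ha : ‖a'‖ ≤ 1) :
    ‖a * b - a' * b'‖ ≤ ‖a - a'‖ + ‖b - b'‖ := by
  have e : a * b - a' * b' = (a - a') * b + a' * (b - b') := by ring
  rw [e]
  refine (norm_add_le _ _).trans (add_le_add ?_ ?_)
  · rw [norm_mul]; exact mul_le_of_le_one_right (norm_nonneg _) hb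
  · rw [norm_mul]; exact mul_le_of_le_one_left (norm_nonneg _) ha

theorem shift_sum {e : ℕ → ℝ} (h0 : ∀ n, 0 ≤ e n) (N k : ℕ) :
    ∑ n ∈ Icc 1 N, e (n + k) ≤ ∑ n ∈ Icc 1 (N + k), e n := by
  have : ∑ n ∈ Icc 1 N, e (n + k) = ∑ n ∈ (Icc 1 N).map (addRightEmbedding k), e n := by
    rw [sum_map]; rfl
  rw [this, map_add_right_Icc]
  exact sum_le_sum_of_subset_of_nonneg (Icc_subset_Icc_left (by omega)) fun n _ _ => h0 n

theorem approx (m : List (ℕ × Bool)) : ∃ K : ℝ, 0 ≤ K ∧ ∀ (x y : ℕ → ℂ) (ε : ℝ), 0 ≤ ε →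
    (∀ n, ‖x n‖ ≤ 1) → (∀ n, ‖y n‖ ≤ 1) → (∀ N : ℕ, ∑ n ∈ Icc 1 N, ‖x n - y n‖ ≤ ε * N) →
    ∀ N : ℕ, 1 ≤ N → ∑ n ∈ Icc 1 N,
      ‖mono m (fun j => x (n + j)) - mono m (fun j => y (n + j))‖ ≤ K * ε * N := by
  induction m with
  | nil => exact ⟨0, le_rfl, fun x y ε _ _ _ _ N _ => by simp [mono_nil]⟩
  | cons a m ih =>
    obtain ⟨K, hK, ih⟩ := ih
    refine ⟨K + (a.1 + 2), by positivity, fun x y ε hε hx hy h N hN => ?_⟩
    have h1 := ih x y ε hε hx hy h N hN
    have h2 := (shift_sum (e := fun n => ‖x n - y n‖) (fun n => norm_nonneg _) N (a.1 + 1)).trans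
      (h _)
    have hN' : (1 : ℝ) ≤ N := by exact_mod_cast hN
    have h3 : ε * ((N + (a.1 + 1) : ℕ) : ℝ) ≤ (a.1 + 2) * ε * N := by
      push_cast
      have : (0 : ℝ) ≤ a.1 := Nat.cast_nonneg _
      nlinarith [mul_nonneg hε (mul_nonneg (by linarith : (0 : ℝ) ≤ a.1 + 1)
        (by linarith : (0 : ℝ) ≤ N - 1))]
    calc _ ≤ ∑ n ∈ Icc 1 N, (‖x (n + (a.1 + 1)) - y (n + (a.1 + 1))‖ +
          ‖mono m (fun j => x (n + j)) - mono m (fun j => y (n + j))‖) :=
          sum_le_sum fun n _ => by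
            rw [mono_cons, mono_cons]
            refine (norm_mul_sub (norm_mono_le m fun j => hx _) ?_).trans (add_le_add_left ?_ _)
            · split_ifs
              · simpa using hy _
              · exact hy _
            · split_ifs
              · rw [← map_sub, RCLike.norm_conj]
              · exact le_rfl
      _ ≤ _ := by rw [sum_add_distrib]; linarith

theorem expand {v : ℕ → ℂ} (hE : Ell v l) {ι : Type}
    [Fintype ι] (c : ι → ℂ) (u : ι → ℕ → ℂ) (hu : ∀ i, UCM (u i)) (m : List (ℕ × Bool)) :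
    ∀ (r : ℕ) (g : Fin r → ℕ → ℂ) (h : Fin r → ℕ), (∀ j, UCM (g j)) → (∀ j, 0 < h j) →
      Aas l fun N => (∑ n ∈ Icc 1 N, (v n * ∏ j, g j (n + h j)) *
        mono m (fun j => ∑ i, c i * u i (n + j))) / (N : ℂ) := by
  induction m with
  | nil =>
    intro r g h hg hh
    simpa only [mono_nil, mul_one] using hE r g h hg hh
  | cons a m ih =>
    intro r g h hg hh
    let c' : ι → ℂ := fun i => if a.2 then (starRingEnd ℂ) (c i) else c i
    let u' : ι → ℕ → ℂ := fun i => if a.2 then fun n => (starRingEnd ℂ) (u i n) else u i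
    have hu' : ∀ i, UCM (u' i) := fun i => by
      simp only [u']
      split_ifs
      exacts [ucm_conj (hu i), hu i]
    have e : ∀ n, (if a.2 then (starRingEnd ℂ) (∑ i, c i * u i (n + (a.1 + 1)))
        else ∑ i, c i * u i (n + (a.1 + 1))) = ∑ i, c' i * u' i (n + (a.1 + 1)) := fun n => by
      simp only [c', u']
      split_ifs
      · simp
      · rfl
    have h1 := aas_sum (l := l) univ fun i => aas_mul (c' i) (ih (r + 1)
      (Fin.cons (α := fun _ => ℕ → ℂ) (u' i) g) (Fin.cons (α := fun _ => ℕ) (a.1 + 1) h)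
      (fun j => Fin.cases (hu' i) (fun j => hg j) j)
      (fun j => Fin.cases (Nat.succ_pos _) (fun j => hh j) j))
    convert h1 using 2 with N
    simp only [mono_cons, e, Fin.prod_univ_succ, Fin.cons_zero, Fin.cons_succ, ← mul_div_assoc,
      ← sum_div, mul_sum, sum_mul]
    rw [sum_comm]
    congr 1
    exact sum_congr rfl fun i _ => sum_congr rfl fun n _ => by ring

end Corr

theorem corr (hE : S_EllN) (hS : S_NPstab) (hC : S_Comb) : S_Corr := by
  intro f g l hf hF hA hl hN m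
  obtain ⟨K, hK, hap⟩ := Corr.approx m
  refine Corr.aas_approx hl fun ε hε => ?_
  have hp : 0 < K + 1 := by positivity
  obtain ⟨w, ι, _, c, u, hu, hb, he⟩ := hC f g hf hF hA (ε / (K + 1)) (div_pos hε hp)
  have hf1 : ∀ n, ‖(f n : ℂ)‖ ≤ 1 := fun n => mem_closedBall_zero_iff.1 (f n).2
  refine ⟨fun N => (∑ n ∈ Icc 1 N, (starRingEnd ℂ) (∑ i, c i * u i n) *
    mono m (fun j => ∑ i, c i * u i (n + j))) / (N : ℂ), ?_, fun N hN1 => ?_⟩
  · have h1 := Corr.aas_sum (l := l) univ fun i => Corr.aas_mul ((starRingEnd ℂ) (c i))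
      (Corr.expand (hE l hl _ (Corr.ucm_conj (hu i).1)
        (hS _ l hl (hu i).1 ((hS g l hl hA.1 hN).2 (u i) w (hu i).1 (hu i).2)).1) c u
        (fun i => (hu i).1) m 0 Fin.elim0 Fin.elim0 (fun j => j.elim0) (fun j => j.elim0))
    convert h1 using 2 with N
    simp only [Fin.prod_univ_zero, mul_one, map_sum, map_mul, ← mul_div_assoc, ← sum_div, mul_sum,
      sum_mul]
    rw [sum_comm]
    congr 1
    exact sum_congr rfl fun i _ => sum_congr rfl fun n _ => by ring
  · have hN' : (0 : ℝ) < N := by exact_mod_cast hN1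
    rw [← sub_div, ← sum_sub_distrib, norm_div, Complex.norm_natCast, div_le_iff₀ hN']
    have h2 := hap (fun n => (f n : ℂ)) (fun n => ∑ i, c i * u i n) _ (div_pos hε hp).le hf1 hb he
      N hN1
    calc _ ≤ ∑ n ∈ Icc 1 N, (‖(f n : ℂ) - ∑ i, c i * u i n‖ +
          ‖mono m (fun j => (f (n + j) : ℂ)) - mono m (fun j => ∑ i, c i * u i (n + j))‖) :=
          (norm_sum_le _ _).trans (sum_le_sum fun n _ => by
            refine (Corr.norm_mul_sub (Corr.norm_mono_le m fun j => hf1 _) ?_).trans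
              (add_le_add_left (le_of_eq ?_) _)
            · rw [RCLike.norm_conj]; exact hb n
            · rw [← map_sub, RCLike.norm_conj])
      _ ≤ ε / (K + 1) * N + K * (ε / (K + 1)) * N := by
          rw [sum_add_distrib]; exact add_le_add (he N) h2
      _ = ε * N := by field_simp; ring

end Pool.Agent.P.MP_e30989_nt.W
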