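import Pool.Agent.P.MP_e30989_nt.W.St

/-!
Package W15: diagonal choice of good scales.
-/

open Finset Filter Topology

namespace Pool.Agent.P.MP_e30989_nt.W

namespace Diag

theorem log_le_sum (X : ℕ) : Real.log X ≤ ∑ N ∈ Icc 1 X, 1 / (N : ℝ) := by
  have h1 := log_add_one_le_harmonic X
  have h2 : ((harmonic X : ℚ) : ℝ) = ∑ N ∈ Icc 1 X, 1 / (N : ℝ) := by
    rw [harmonic_eq_sum_Icc]
    push_cast
    exact Finset.sum_congr rfl fun N _ => by rw [one_div]
  rw [← h2]
  refine le_trans ?_ h1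
  rcases Nat.eq_zero_or_pos X with rfl | hX
  · simp
  · apply Real.log_le_log (by exact_mod_cast hX)
    push_cast
    linarith

theorem good (l : Filter ℕ) [l.NeBot] (hl : l ≤ atTop) (c : ℕ → ℕ → ℂ) (hc : ∀ i, Aas l (c i))
    (k K : ℕ) (η : ℝ) (hη : 0 < η) : ∃ N, K ≤ N ∧ ∀ i ∈ range k, ‖c i N‖ ≤ η := by
  by_contra hcon
  push Not at hcon
  have hk : (0 : ℝ) < 2 * (k + 1) := by positivity
  have h1 : ∀ᶠ X : ℕ in l, ∀ i ∈ range k,
      ∑ N ∈ Icc 1 X, ‖c i N‖ / (N : ℝ) ≤ η / (2 * (k + 1)) * Real.log X :=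
    (Filter.eventually_all_finset _).2 fun i _ => hc i _ (div_pos hη hk)
  have h2 : ∀ᶠ X : ℕ in l, 2 * (K : ℝ) < Real.log X :=
    ((Real.tendsto_log_atTop.comp tendsto_natCast_atTop_atTop).eventually_gt_atTop _).filter_mono hl
  obtain ⟨X, hX1, hX2⟩ := (h1.and h2).exists
  have hK0 : (0 : ℝ) ≤ K := Nat.cast_nonneg K
  have hlog : 0 < Real.log X := by linarith
  have hpt : ∀ N ∈ Icc 1 X, η * (1 / (N : ℝ)) ≤
      (∑ i ∈ range k, ‖c i N‖ / (N : ℝ)) + (if N ∈ range K then η else 0) := by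
    intro N hN
    have hN1 : (1 : ℝ) ≤ N := by exact_mod_cast (mem_Icc.1 hN).1
    have hN0 : (0 : ℝ) < N := by linarith
    have hs : 0 ≤ ∑ i ∈ range k, ‖c i N‖ / (N : ℝ) := sum_nonneg fun i _ => by positivity
    by_cases hNK : N ∈ range K
    · rw [if_pos hNK]
      have : η * (1 / (N : ℝ)) ≤ η := by
        rw [mul_one_div]; exact div_le_self hη.le hN1
      linarith
    · rw [if_neg hNK, add_zero]
      obtain ⟨i, hi, hlt⟩ := hcon N (by simpa using hNK)
      calc η * (1 / (N : ℝ)) ≤ ‖c i N‖ / (N : ℝ) := by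
            rw [mul_one_div]; exact div_le_div_of_nonneg_right hlt.le hN0.le
        _ ≤ _ := single_le_sum (f := fun i => ‖c i N‖ / (N : ℝ)) (fun i _ => by positivity) hi
  have hsum := sum_le_sum hpt
  rw [← mul_sum, sum_add_distrib, sum_comm] at hsum
  have h3 : ∑ i ∈ range k, ∑ N ∈ Icc 1 X, ‖c i N‖ / (N : ℝ) ≤
      k * (η / (2 * (k + 1)) * Real.log X) := by
    have := sum_le_card_nsmul _ _ _ hX1
    simpa using this
  have h4 : ∑ N ∈ Icc 1 X, (if N ∈ range K then η else 0) ≤ K * η := by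
    rw [← sum_filter, sum_const, nsmul_eq_mul]
    apply mul_le_mul_of_nonneg_right _ hη.le
    have : ((Icc 1 X).filter (fun N => N ∈ range K)).card ≤ (range K).card :=
      card_le_card fun N hN => (mem_filter.1 hN).2
    rw [card_range] at this
    exact_mod_cast this
  have h5 : (k : ℝ) * (η / (2 * (k + 1)) * Real.log X) ≤ η / 2 * Real.log X := by
    rw [← mul_assoc]
    apply mul_le_mul_of_nonneg_right _ hlog.le
    rw [← mul_div_assoc, div_le_div_iff₀ hk (by norm_num)]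
    nlinarith
  have h6 := mul_le_mul_of_nonneg_left (log_le_sum X) hη.le
  nlinarith

end Diag

theorem diag : S_Diag := by
  intro l hne hl ι _ c _ hc
  rcases isEmpty_or_nonempty ι with hι | hι
  · exact ⟨id, tendsto_id, fun i => hι.elim i⟩
  obtain ⟨e, he⟩ := exists_surjective_nat ι
  have h := fun k : ℕ => Diag.good l hl (fun i => c (e i)) (fun i => hc _) k k (1 / ((k : ℝ) + 1))
    (by positivity)
  choose N hN1 hN2 using h
  refine ⟨N, tendsto_atTop_mono hN1 tendsto_id, fun i => ?_⟩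
  obtain ⟨j, rfl⟩ := he i
  rw [tendsto_zero_iff_norm_tendsto_zero]
  refine squeeze_zero' (Eventually.of_forall fun _ => norm_nonneg _) ?_
    tendsto_one_div_add_atTop_nhds_zero_nat
  filter_upwards [eventually_gt_atTop j] with k hk
  exact hN2 k j (mem_range.2 hk)

end Pool.Agent.P.MP_e30989_nt.W
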