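import Pool.Agent.P.MP_e30989_nt.W.St
import Pool.Agent.P.MP_a14ce1_nt.Ch.RxSmall

/-! Upper and lower bounds for the Dirichlet series through the Euler product. -/

open Finset Filter Topology

namespace Pool.Agent.P.MP_e30989_nt.W

open Pool.Agent.P.MP_a14ce1_nt.Ch

namespace Euler

noncomputable def hom {F : ℕ → ℂ} (hF : CM F) (h1 : F 1 = 1) (s : ℂ) : ℕ →*₀ ℂ where
  toFun n := LSeries.term F s n
  map_zero' := by simp
  map_one' := by simp [LSeries.term_of_ne_zero, h1]
  map_mul' m n := by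
    rcases eq_or_ne m 0 with rfl | hm
    · simp
    rcases eq_or_ne n 0 with rfl | hn
    · simp
    rw [LSeries.term_of_ne_zero (mul_ne_zero hm hn), LSeries.term_of_ne_zero hm,
      LSeries.term_of_ne_zero hn, hF.mul m n hm hn, Nat.cast_mul, Complex.natCast_mul_natCast_cpow,
      mul_div_mul_comm]

theorem euler {F : ℕ → ℂ} (hF : CM F) (h1 : F 1 = 1) {η : ℝ} (hη : 0 < η) (t : ℝ) :
    Tendsto (fun N : ℕ => ∏ p ∈ Nat.primesBelow N,
      ‖(1 - LSeries.term F ((1 + η : ℝ) + t * Complex.I) p)⁻¹‖) atTop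
      (𝓝 ‖LSeries F ((1 + η : ℝ) + t * Complex.I)‖) := by
  have hs : Summable fun n : ℕ => ‖hom hF h1 ((1 + η : ℝ) + t * Complex.I) n‖ :=
    Summable.of_nonneg_of_le (fun _ => norm_nonneg _) (RxSmall.norm_term_le hF.bd _ t)
      (Real.summable_nat_rpow_inv.2 (by linarith))
  have h := (EulerProduct.eulerProduct_completely_multiplicative hs).norm
  simp only [norm_prod] at h
  exact h

/-- the modulus of p ^ (-s) -/
noncomputable def rr (η : ℝ) (p : ℕ) : ℝ := Real.exp (-((1 + η) * Real.log p))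

theorem rr_pos (η : ℝ) (p : ℕ) : 0 < rr η p := Real.exp_pos _

theorem rr_eq (η : ℝ) {p : ℕ} (hp : p ≠ 0) : rr η p = Real.exp (-(η * Real.log p)) / p := by
  have hp' : (0 : ℝ) < p := by exact_mod_cast Nat.pos_of_ne_zero hp
  unfold rr
  rw [show -((1 + η) * Real.log p) = -(η * Real.log p) - Real.log p by ring, Real.exp_sub,
    Real.exp_log hp']

theorem rr_le {η : ℝ} (hη : 0 ≤ η) {p : ℕ} (hp : p ≠ 0) : rr η p ≤ 1 / p := by
  rw [rr_eq η hp]
  have h0 : 0 ≤ Real.log p := Real.log_natCast_nonneg p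
  refine div_le_div_of_nonneg_right ?_ (Nat.cast_nonneg _)
  rw [Real.exp_le_one_iff]
  nlinarith [mul_nonneg hη h0]

theorem rr_lt_one {η : ℝ} (hη : 0 ≤ η) {p : ℕ} (hp : p.Prime) : rr η p < 1 := by
  have h2 : (2 : ℝ) ≤ p := by exact_mod_cast hp.two_le
  refine (rr_le hη hp.ne_zero).trans_lt ?_
  rw [div_lt_one (by linarith)]
  linarith

theorem term_eq' (F : ℕ → ℂ) (η t : ℝ) {p : ℕ} (hp : p ≠ 0) :
    LSeries.term F ((1 + η : ℝ) + t * Complex.I) p = (rr η p : ℂ) * (F p * nit t p) := by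
  rw [RxSmall.term_eq F (1 + η) t hp]
  unfold rr
  ring

theorem abs_re_le {F : ℕ → ℂ} (hF : CM F) (t : ℝ) (p : ℕ) : ‖F p * nit t p‖ ≤ 1 := by
  rw [norm_mul, norm_nit, mul_one]
  exact hF.bd p

theorem re_le {F : ℕ → ℂ} (hF : CM F) (t : ℝ) (p : ℕ) : |(F p * nit t p).re| ≤ 1 :=
  (Complex.abs_re_le_norm _).trans (abs_re_le hF t p)

/-- one factor, upper bound -/
theorem fac_up {r : ℝ} {w : ℂ} (hr0 : 0 < r) (hr : r < 1) (hw : ‖w‖ ≤ 1) :
    ‖(1 - (r : ℂ) * w)⁻¹‖ ≤ ‖(1 - (r : ℂ) * 1)⁻¹‖ * Real.exp (-(r * (1 - w.re)) / 2) := by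
  have ha := abs_le.1 ((Complex.abs_re_le_norm w).trans hw)
  have h1 : 1 - r * w.re ≤ ‖1 - (r : ℂ) * w‖ := by
    have := Complex.re_le_norm (1 - (r : ℂ) * w)
    simpa using this
  have h2 : ‖(1 : ℂ) - (r : ℂ) * 1‖ = 1 - r := by
    rw [mul_one, ← Complex.ofReal_one, ← Complex.ofReal_sub, Complex.norm_real, Real.norm_eq_abs,
      abs_of_pos (by linarith)]
  set u := r * (1 - w.re) with hu
  have hu0 : 0 ≤ u := mul_nonneg hr0.le (by linarith)
  have hu1 : u ≤ 2 * r := by nlinarith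
  have h3 : 1 - u / 2 ≤ Real.exp (-u / 2) := by
    have := Real.add_one_le_exp (-u / 2)
    linarith
  have h4 : 0 < 1 - r * w.re := by nlinarith
  have h5 : 1 - r * w.re = 1 - r + u := by rw [hu]; ring
  rw [norm_inv, norm_inv, h2, inv_mul_eq_div, le_div_iff₀ (by linarith), inv_mul_eq_div,
    div_le_iff₀ (by linarith)]
  calc 1 - r ≤ (1 - u / 2) * (1 - r + u) := by nlinarith
    _ ≤ Real.exp (-u / 2) * ‖1 - (r : ℂ) * w‖ :=
      mul_le_mul h3 (by linarith) (by linarith) (Real.exp_pos _).le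

/-- one factor, lower bound -/
theorem fac_low {r : ℝ} {w : ℂ} (hr0 : 0 < r) (hr : r < 1) (hw : ‖w‖ ≤ 1) :
    Real.exp (r * w.re - r ^ 2 / 2) ≤ ‖(1 - (r : ℂ) * w)⁻¹‖ := by
  have ha := abs_le.1 ((Complex.abs_re_le_norm w).trans hw)
  have h1 : 1 - r * w.re ≤ ‖1 - (r : ℂ) * w‖ := by
    have := Complex.re_le_norm (1 - (r : ℂ) * w)
    simpa using this
  have h4 : 0 < 1 - r * w.re := by nlinarith
  have hw2 : w.re ^ 2 + w.im ^ 2 ≤ 1 := by
    have h := Complex.sq_norm w
    rw [Complex.normSq_apply] at h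
    nlinarith [norm_nonneg w]
  have h2 : ‖1 - (r : ℂ) * w‖ ^ 2 ≤ (Real.exp (-(r * w.re - r ^ 2 / 2))) ^ 2 := by
    rw [Complex.sq_norm, Complex.normSq_apply, ← Real.exp_nat_mul]
    have := Real.add_one_le_exp (((2 : ℕ) : ℝ) * -(r * w.re - r ^ 2 / 2))
    refine le_trans ?_ this
    simp only [Complex.sub_re, Complex.one_re, Complex.mul_re, Complex.ofReal_re,
      Complex.ofReal_im, zero_mul, sub_zero, Complex.sub_im, Complex.one_im, Complex.mul_im,
      add_zero, zero_sub]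
    push_cast
    nlinarith [mul_le_mul_of_nonneg_left hw2 (sq_nonneg r)]
  have h3 : ‖1 - (r : ℂ) * w‖ ≤ Real.exp (-(r * w.re - r ^ 2 / 2)) :=
    (pow_le_pow_iff_left₀ (norm_nonneg _) (Real.exp_pos _).le two_ne_zero).1 h2
  rw [norm_inv, le_inv_comm₀ (Real.exp_pos _) (by linarith), ← Real.exp_neg]
  exact h3

theorem pr_subset {y : ℝ} {N : ℕ} (hN : ⌊y⌋₊ < N) : pr 0 y ⊆ Nat.primesBelow N := by
  intro p hp
  rw [mem_pr le_rfl] at hp
  exact Nat.mem_primesBelow.2 ⟨(Nat.le_floor hp.2.2).trans_lt hN, hp.1⟩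

end Euler

open Euler

theorem eulerUp : S_EulerUp := by
  intro F hF h1 y Y t hy hY
  have hL : 0 < Real.log Y := Real.log_pos (by linarith)
  set η := 1 / Real.log Y with hη
  have hη0 : 0 < η := by positivity
  have hone : CM (fun _ => (1 : ℂ)) := ⟨fun _ _ _ _ => by simp, fun _ => by simp⟩
  have hA := euler hF h1 hη0 t
  have hB := (euler hone rfl hη0 0).mul_const (Real.exp (-(dd F t y) / 6))
  have hC := RxSmall.norm_L_le hone.bd hη0 0
  have e : 1 / η = Real.log Y := by rw [hη, one_div_one_div]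
  rw [e] at hC
  refine le_trans (le_of_tendsto_of_tendsto hA hB ?_)
    (mul_le_mul_of_nonneg_right hC (Real.exp_pos _).le)
  filter_upwards [eventually_gt_atTop ⌊y⌋₊] with N hN
  have h2 : ∏ p ∈ Nat.primesBelow N, ‖(1 - LSeries.term F ((1 + η : ℝ) + t * Complex.I) p)⁻¹‖ ≤
      ∏ p ∈ Nat.primesBelow N,
        (‖(1 - LSeries.term (fun _ => (1 : ℂ)) ((1 + η : ℝ) + (0 : ℝ) * Complex.I) p)⁻¹‖ *
          Real.exp (-(rr η p * (1 - (F p * nit t p).re)) / 2)) := by
    refine prod_le_prod (fun _ _ => norm_nonneg _) fun p hp => ?_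
    have hp' := (Nat.mem_primesBelow.1 hp).2
    rw [term_eq' F η t hp'.ne_zero, term_eq' _ η 0 hp'.ne_zero]
    have e0 : nit 0 p = 1 := by simp [nit, ex_zero]
    rw [e0, mul_one (1 : ℂ)]
    exact fac_up (rr_pos η p) (rr_lt_one hη0.le hp') (abs_re_le hF t p)
  refine h2.trans ?_
  rw [prod_mul_distrib, ← Real.exp_sum]
  refine mul_le_mul_of_nonneg_left (Real.exp_le_exp.2 ?_) (prod_nonneg fun _ _ => norm_nonneg _)
  have h3 : ∑ p ∈ pr 0 y, rr η p * (1 - (F p * nit t p).re) ≤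
      ∑ p ∈ Nat.primesBelow N, rr η p * (1 - (F p * nit t p).re) :=
    sum_le_sum_of_subset_of_nonneg (pr_subset hN) fun p _ _ =>
      mul_nonneg (rr_pos η p).le (by linarith [(abs_le.1 (re_le hF t p)).2])
  have h4 : dd F t y / 3 ≤ ∑ p ∈ pr 0 y, rr η p * (1 - (F p * nit t p).re) := by
    unfold dd
    rw [sum_div]
    refine sum_le_sum fun p hp => ?_
    rw [mem_pr le_rfl] at hp
    obtain ⟨hp1, hp2, hp3⟩ := hp
    have ha : 0 ≤ 1 - (F p * nit t p).re := by linarith [(abs_le.1 (re_le hF t p)).2]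
    have hl : η * Real.log p ≤ 1 := by
      rw [hη, one_div, inv_mul_le_iff₀ hL, mul_one]
      exact Real.log_le_log hp2 (hp3.trans hY)
    have he : 1 / 3 ≤ Real.exp (-(η * Real.log p)) := by
      have h5 : Real.exp (-1) ≤ Real.exp (-(η * Real.log p)) := Real.exp_le_exp.2 (by linarith)
      have h6 := Real.exp_neg_one_gt_d9
      linarith
    rw [rr_eq η hp1.ne_zero, div_mul_eq_mul_div, div_right_comm]
    refine div_le_div_of_nonneg_right ?_ hp2.le
    nlinarith
  have h5 : ∑ p ∈ Nat.primesBelow N, -(rr η p * (1 - (F p * nit t p).re)) / 2 =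
      -(∑ p ∈ Nat.primesBelow N, rr η p * (1 - (F p * nit t p).re)) / 2 := by
    rw [← sum_neg_distrib, sum_div]
  rw [h5]
  linarith

theorem eulerLow (h1 : S_M1) (h2 : S_M2) (h6 : S_M6) : S_EulerLow := by
  obtain ⟨C1, hC1, m1⟩ := h1
  obtain ⟨C2, hC2, m2⟩ := h2
  obtain ⟨C6, hC6, m6⟩ := h6
  refine ⟨Real.exp (C1 + C2 + C6 + 2), Real.exp_pos _, fun F hF hF1 y t hy => ?_⟩
  have hL1 : 1 ≤ Real.log y := by
    rw [Real.le_log_iff_exp_le (by linarith)]
    linarith [Real.exp_one_lt_d9]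
  have hL : 0 < Real.log y := by linarith
  set η := 1 / Real.log y with hη
  have hη0 : 0 < η := by positivity
  have hη1 : η ≤ 1 := by rw [hη, div_le_one hL]; exact hL1
  have hηL : η * Real.log y = 1 := by rw [hη]; field_simp
  have hA := euler hF hF1 hη0 t
  have key : Real.exp (Real.log (Real.log y) - dd F t y - (C1 + C2 + C6 + 2)) ≤ ‖LL F y t‖ := by
    refine ge_of_tendsto hA ?_
    filter_upwards [eventually_gt_atTop ⌊y⌋₊] with N hN
    have a1 : ∏ p ∈ Nat.primesBelow N, Real.exp (rr η p * (F p * nit t p).re - rr η p ^ 2 / 2) ≤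
        ∏ p ∈ Nat.primesBelow N, ‖(1 - LSeries.term F ((1 + η : ℝ) + t * Complex.I) p)⁻¹‖ := by
      refine prod_le_prod (fun _ _ => (Real.exp_pos _).le) fun p hp => ?_
      have hp' := (Nat.mem_primesBelow.1 hp).2
      rw [term_eq' F η t hp'.ne_zero]
      exact fac_low (rr_pos η p) (rr_lt_one hη0.le hp') (abs_re_le hF t p)
    refine le_trans ?_ a1
    rw [← Real.exp_sum, Real.exp_le_exp, sum_sub_distrib]
    -- squares
    have a2 : ∑ p ∈ Nat.primesBelow N, rr η p ^ 2 / 2 ≤ 1 := by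
      have b1 := RxSmall.sum_rpow_le (η := 1) one_pos N
      have b2 : ∑ p ∈ Nat.primesBelow N, ((p : ℝ) ^ (1 + 1 : ℝ))⁻¹ ≤
          ∑ n ∈ range N, ((n : ℝ) ^ (1 + 1 : ℝ))⁻¹ :=
        sum_le_sum_of_subset_of_nonneg (filter_subset _ _) fun _ _ _ => by positivity
      have b3 : ∑ p ∈ Nat.primesBelow N, rr η p ^ 2 ≤
          ∑ p ∈ Nat.primesBelow N, ((p : ℝ) ^ (1 + 1 : ℝ))⁻¹ := by
        refine sum_le_sum fun p hp => ?_
        have hp' := (Nat.mem_primesBelow.1 hp).2
        rw [show (1 + 1 : ℝ) = ((2 : ℕ) : ℝ) by norm_num, Real.rpow_natCast, ← inv_pow, ← one_div]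
        exact pow_le_pow_left₀ (rr_pos η p).le (rr_le hη0.le hp'.ne_zero) 2
      rw [← sum_div]
      linarith
    -- split at y
    have a3 := sum_sdiff (f := fun p => rr η p * (F p * nit t p).re) (pr_subset hN)
    have a4 : rs (pr 0 y) - dd F t y - η * ∑ p ∈ pr 0 y, Real.log p / p ≤
        ∑ p ∈ pr 0 y, rr η p * (F p * nit t p).re := by
      unfold rs dd
      rw [mul_sum, ← sum_sub_distrib, ← sum_sub_distrib]
      refine sum_le_sum fun p hp => ?_
      rw [mem_pr le_rfl] at hp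
      obtain ⟨hp1, hp2, -⟩ := hp
      have ha := abs_le.1 (re_le hF t p)
      have hl : 0 ≤ η * Real.log p := mul_nonneg hη0.le (Real.log_natCast_nonneg p)
      have he := Real.add_one_le_exp (-(η * Real.log p))
      have he1 : Real.exp (-(η * Real.log p)) ≤ 1 := Real.exp_le_one_iff.2 (by linarith)
      rw [rr_eq η hp1.ne_zero, div_mul_eq_mul_div (Real.exp _), ← mul_div_assoc η, ← sub_div,
        ← sub_div]
      refine div_le_div_of_nonneg_right ?_ hp2.le
      nlinarith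
    have a5 : -C6 ≤ ∑ p ∈ Nat.primesBelow N \ pr 0 y, rr η p * (F p * nit t p).re := by
      have b1 := m6 η hη0 hη1 N
      have b2 : ∑ p ∈ Nat.primesBelow N \ pr 0 y,
          ArithmeticFunction.vonMangoldt p / (p : ℝ) ^ (1 + η) ≤
          ∑ n ∈ Icc 1 N, ArithmeticFunction.vonMangoldt n / (n : ℝ) ^ (1 + η) := by
        refine sum_le_sum_of_subset_of_nonneg (fun p hp => ?_) fun n _ _ =>
          div_nonneg ArithmeticFunction.vonMangoldt_nonneg (by positivity)
        have hp' := Nat.mem_primesBelow.1 (mem_sdiff.1 hp).1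
        exact mem_Icc.2 ⟨hp'.2.one_le, hp'.1.le⟩
      have b3 : ∑ p ∈ Nat.primesBelow N \ pr 0 y, -(rr η p * (F p * nit t p).re) ≤
          η * ∑ p ∈ Nat.primesBelow N \ pr 0 y,
            ArithmeticFunction.vonMangoldt p / (p : ℝ) ^ (1 + η) := by
        rw [mul_sum]
        refine sum_le_sum fun p hp => ?_
        obtain ⟨hp1, hp2⟩ := mem_sdiff.1 hp
        have hp' := (Nat.mem_primesBelow.1 hp1).2
        have hp0 : (0 : ℝ) < p := by exact_mod_cast hp'.pos
        have hyp : y < p := by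
          by_contra hcon
          exact hp2 ((mem_pr le_rfl).2 ⟨hp', hp0, not_lt.1 hcon⟩)
        have hl : 1 ≤ η * Real.log p := by
          rw [← hηL]
          exact mul_le_mul_of_nonneg_left (Real.log_le_log (by linarith) hyp.le) hη0.le
        have ha := abs_le.1 (re_le hF t p)
        have e : ArithmeticFunction.vonMangoldt p / (p : ℝ) ^ (1 + η) = Real.log p * rr η p := by
          rw [ArithmeticFunction.vonMangoldt_apply_prime hp', Real.rpow_def_of_pos hp0, rr,
            Real.exp_neg, mul_comm (1 + η), div_eq_mul_inv]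
        rw [e]
        have hr := rr_pos η p
        nlinarith
      rw [sum_neg_distrib] at b3
      have b4 : η * (C6 / η) = C6 := by field_simp
      have b5 := mul_le_mul_of_nonneg_left (b2.trans b1) hη0.le
      linarith
    have a6 : η * ∑ p ∈ pr 0 y, Real.log p / p ≤ 1 + C2 := by
      have b1 := (abs_le.1 (m2 y (by linarith))).2
      have b2 : η * ∑ p ∈ pr 0 y, Real.log p / p ≤ η * (Real.log y + C2) :=
        mul_le_mul_of_nonneg_left (by linarith) hη0.le
      nlinarith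
    have a7 : Real.log (Real.log y) - C1 ≤ rs (pr 0 y) := by
      have b1 := (abs_le.1 (m1 2 y le_rfl (by linarith))).1
      have b2 : rs (pr 2 y) ≤ rs (pr 0 y) := by
        refine sum_le_sum_of_subset_of_nonneg (fun p hp => ?_) fun _ _ _ => by positivity
        rw [mem_pr (by norm_num)] at hp
        exact (mem_pr le_rfl).2 ⟨hp.1, by linarith [hp.2.1], hp.2.2⟩
      have b3 : Real.log (Real.log y) ≤ Real.log (Real.log y / Real.log 2) := by
        refine Real.log_le_log hL ?_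
        have c1 : 0 < Real.log 2 := Real.log_pos one_lt_two
        have c2 := Real.log_two_lt_d9
        rw [le_div_iff₀ c1]
        nlinarith
      linarith
    linarith
  calc Real.log y * Real.exp (-(dd F t y))
      = Real.exp (C1 + C2 + C6 + 2) *
          Real.exp (Real.log (Real.log y) - dd F t y - (C1 + C2 + C6 + 2)) := by
        rw [← Real.exp_add, show C1 + C2 + C6 + 2 + (Real.log (Real.log y) - dd F t y -
          (C1 + C2 + C6 + 2)) = Real.log (Real.log y) + -(dd F t y) by ring, Real.exp_add,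
          Real.exp_log hL]
    _ ≤ _ := mul_le_mul_of_nonneg_left key (Real.exp_pos _).le

end Pool.Agent.P.MP_e30989_nt.W
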