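import Pool.Agent.P.MP_e30989_nt.W.St
import Pool.Agent.P.MP_a14ce1_nt.Ch.RxSmall

/-! The long smooth polynomial, and the large values of a prime polynomial. -/

open Finset MeasureTheory

namespace Pool.Agent.P.MP_e30989_nt.W

open Pool.Agent.P.MP_a14ce1_nt.Ch

theorem rxNP (hF : S_Fourier) : S_RxNP := by
  obtain ⟨Θ, C, hC, hΘ, hb, hinv, -⟩ := hF (fun v => Phi v * Real.exp v)
    (contDiff_Phi.mul Real.contDiff_exp) compact_Phi.mul_right
  refine ⟨4 * C * Real.pi, by positivity, fun f hf X ε hX hε h2 s hs => ?_⟩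
  unfold LL at h2
  have hX3 : (3 : ℝ) ≤ X := by exact_mod_cast hX
  set x := Real.log X with hx
  have hx1 : 1 ≤ x := by
    rw [hx, Real.le_log_iff_exp_le (by positivity)]
    linarith [Real.exp_one_lt_d9]
  have hx0 : 0 < x := by linarith
  have hΘi : Integrable Θ :=
    ((integrable_cw one_pos).const_mul C).mono' hΘ.aestronglyMeasurable
      (Filter.Eventually.of_forall hb)
  let F : ℕ → ℝ → ℂ := fun m u =>
    Θ u * LSeries.term f ((1 + 1 / x : ℝ) + (s + u / x : ℝ) * Complex.I) m
  have hFn : ∀ m u, ‖F m u‖ ≤ ‖Θ u‖ * ((m : ℝ) ^ (1 + 1 / x))⁻¹ := fun m u => by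
    rw [norm_mul]
    exact mul_le_mul_of_nonneg_left (RxSmall.norm_term_le hf.bd _ _ m) (norm_nonneg _)
  have hFi : ∀ m, Integrable (F m) := fun m => by
    refine (hΘi.norm.mul_const _).mono' (Continuous.aestronglyMeasurable ?_)
      (Filter.Eventually.of_forall (hFn m))
    rcases eq_or_ne m 0 with rfl | hm
    · simpa [F] using continuous_const
    · simp only [F, RxSmall.term_eq f _ _ hm]
      exact hΘ.mul (continuous_const.mul ((continuous_nit _).comp (by fun_prop)))
  have hs1 : Summable fun m : ℕ => ((m : ℝ) ^ (1 + 1 / x))⁻¹ :=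
    Real.summable_nat_rpow_inv.2 (by have : 0 < 1 / x := by positivity
                                     linarith)
  have hsum : Summable fun m => ∫ u, ‖F m u‖ :=
    Summable.of_nonneg_of_le (fun m => integral_nonneg fun u => norm_nonneg _)
      (fun m => by
        rw [← integral_mul_const]
        exact integral_mono (hFi m).norm (hΘi.norm.mul_const _) (hFn m))
      (hs1.mul_left (∫ u, ‖Θ u‖))
  have hI : ∀ m, ∫ u, F m u = f m * ((Phi (Real.log m / x) / m : ℝ) : ℂ) * nit s m := by
    intro m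
    rcases eq_or_ne m 0 with rfl | hm
    · simp [F]
    · have hm0 : (0 : ℝ) < m := by positivity
      have e1 : ∀ u, F m u = f m * (Real.exp (-((1 + 1 / x) * Real.log m)) : ℝ) * nit s m *
          (Θ u * ex (-(u * (Real.log m / x)))) := fun u => by
        simp only [F, RxSmall.term_eq f _ _ hm, nit_add]
        rw [show nit (u / x) m = ex (-(u * (Real.log m / x))) by unfold nit; congr 1; ring]
        ring
      simp only [e1]
      rw [integral_const_mul, ← hinv]
      have e2 : Phi (Real.log m / x) / m = Real.exp (-((1 + 1 / x) * Real.log m)) *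
          (Phi (Real.log m / x) * Real.exp (Real.log m / x)) := by
        rw [mul_left_comm, ← Real.exp_add, show -((1 + 1 / x) * Real.log m) + Real.log m / x =
          -Real.log m by ring, Real.exp_neg, Real.exp_log hm0, div_eq_mul_inv]
      rw [e2]
      push_cast
      ring
  have hR : Rx f X s = ∫ u, Θ u * LSeries f ((1 + 1 / x : ℝ) + (s + u / x : ℝ) * Complex.I) := by
    have h3 := integral_tsum_of_summable_integral_norm hFi hsum
    simp only [hI] at h3
    simp only [F, tsum_mul_left] at h3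
    rw [Rx, ← hx, ← tsum_eq_sum (L := SummationFilter.unconditional ℕ), h3]
    · rfl
    · intro m hm
      rcases eq_or_ne m 0 with rfl | hm0
      · simp
      · have h4 : X ^ 2 ≤ m := by
          rw [mem_Icc] at hm; omega
        have h5 : 2 * x ≤ Real.log m := by
          have := Real.log_le_log (by positivity) (show ((X : ℝ)) ^ 2 ≤ m by exact_mod_cast h4)
          rwa [Real.log_pow] at this
        rw [Phi_eq_zero (Or.inr (by rw [le_div_iff₀ hx0]; linarith))]
        simp
  have hint : Integrable fun u => C * (ε * x) * cw 1 u + 4 * C / x * cw x u :=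
    ((integrable_cw one_pos).const_mul _).add ((integrable_cw hx0).const_mul _)
  rw [hR]
  refine (norm_integral_le_of_norm_le hint (Filter.Eventually.of_forall fun u => ?_)).trans
    ?_
  · rw [norm_mul]
    have c1 := cw_pos 1 u
    have c2 := cw_pos x u
    rcases le_or_gt |u| x with hu | hu
    · have h3 : |s + u / x| ≤ 3 * X := by
        refine (abs_add_le _ _).trans ?_
        rw [abs_div, abs_of_pos hx0]
        have := (div_le_one hx0).2 hu
        linarith
      have h4 := h2 (s + u / x) h3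
      have h5 := mul_le_mul (hb u) h4 (norm_nonneg _) (by positivity)
      have h6 : 0 ≤ 4 * C / x * cw x u := by positivity
      linarith
    · have h4 := RxSmall.norm_L_le hf.bd (η := 1 / x) (by positivity) (s + u / x)
      rw [one_div_one_div] at h4
      have h5 := mul_le_mul (hb u) h4 (norm_nonneg _) (by positivity)
      have h6 : cw 1 u * (1 + x) ≤ 4 / x * cw x u := by
        have h7 : x ^ 2 ≤ u ^ 2 := by
          rw [← sq_abs u]; exact pow_le_pow_left₀ hx0.le hu.le 2
        unfold cw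
        rw [show 4 / x * (1 / (1 + (u / x) ^ 2)) = 4 * x / (x ^ 2 + u ^ 2) by field_simp, div_one,
          one_div_mul_eq_div, div_le_div_iff₀ (by positivity) (by positivity)]
        nlinarith [sq_nonneg u]
      have h7 := mul_le_mul_of_nonneg_left h6 hC.le
      have h8 : 0 ≤ C * (ε * x) * cw 1 u := by positivity
      have h9 : 4 * C / x * cw x u = C * (4 / x * cw x u) := by ring
      linarith
  · rw [integral_add ((integrable_cw one_pos).const_mul _) ((integrable_cw hx0).const_mul _),
      integral_const_mul, integral_const_mul, integral_cw one_pos, integral_cw hx0]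
    have h1 : 0 ≤ C * (ε * x) * Real.pi := by positivity
    have h3 : 4 * C / x * (Real.pi * x) = 4 * C * Real.pi := by field_simp
    nlinarith

namespace Few

theorem card_le {A : Finset ℕ} {F : ℕ → ℂ} {η : ℝ} (hF : ∀ n, ‖F n‖ ≤ 1) (hη : 0 < η)
    (hL : 0 < rs A) (J : Finset ℝ)
    (h1 : ∀ s ∈ J, η * rs A < ‖∑ p ∈ A, F p / p * nit s p‖)
    (h2 : ∀ s ∈ J, ∀ t ∈ J, s ≠ t → ‖∑ p ∈ A, (1 : ℂ) / p * nit (s - t) p‖ ≤ η ^ 2 * rs A / 2) :
    (J.card : ℝ) ≤ 2 / η ^ 2 := by
  rcases J.eq_empty_or_nonempty with rfl | hJ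
  · simp only [card_empty, Nat.cast_zero]; positivity
  have hm : (0 : ℝ) < J.card := by exact_mod_cast hJ.card_pos
  choose c hc1 hc2 using fun s : ℝ => Complex.exists_norm_eq_mul_self
    (∑ p ∈ A, F p / p * nit s p)
  let G : ℕ → ℂ := fun p => ∑ s ∈ J, c s * nit s p
  have e1 : J.card * (η * rs A) ≤ ∑ p ∈ A, 1 / (p : ℝ) * ‖G p‖ := by
    calc J.card * (η * rs A) = ∑ s ∈ J, η * rs A := by simp
      _ ≤ ∑ s ∈ J, ‖∑ p ∈ A, F p / p * nit s p‖ := sum_le_sum fun s hs => (h1 s hs).le
      _ = ‖((∑ s ∈ J, ‖∑ p ∈ A, F p / p * nit s p‖ : ℝ) : ℂ)‖ := by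
        rw [Complex.norm_real, Real.norm_of_nonneg (sum_nonneg fun _ _ => norm_nonneg _)]
      _ = ‖∑ p ∈ A, F p / p * G p‖ := by
        congr 1
        push_cast
        rw [sum_congr rfl fun s _ => hc2 s]
        simp only [G, mul_sum]
        rw [sum_comm]
        exact sum_congr rfl fun _ _ => sum_congr rfl fun _ _ => by ring
      _ ≤ _ := by
        refine (norm_sum_le _ _).trans (sum_le_sum fun p _ => ?_)
        rw [norm_mul, norm_div, Complex.norm_natCast]
        gcongr
        exact hF p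
  have e2 : (∑ p ∈ A, 1 / (p : ℝ) * ‖G p‖) ^ 2 ≤ rs A * ∑ p ∈ A, 1 / (p : ℝ) * ‖G p‖ ^ 2 :=
    sum_sq_le_sum_mul_sum_of_sq_le_mul _ (fun _ _ => by positivity) (fun _ _ => by positivity)
      fun _ _ => le_of_eq (by ring)
  have e3 : ∑ p ∈ A, 1 / (p : ℝ) * ‖G p‖ ^ 2 ≤
      ∑ s ∈ J, ∑ t ∈ J, ‖∑ p ∈ A, (1 : ℂ) / p * nit (s - t) p‖ := by
    calc ∑ p ∈ A, 1 / (p : ℝ) * ‖G p‖ ^ 2
        = ‖((∑ p ∈ A, 1 / (p : ℝ) * ‖G p‖ ^ 2 : ℝ) : ℂ)‖ := by
          rw [Complex.norm_real, Real.norm_of_nonneg (sum_nonneg fun _ _ => by positivity)]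
      _ = ‖∑ s ∈ J, ∑ t ∈ J, c s * (starRingEnd ℂ) (c t) *
            ∑ p ∈ A, (1 : ℂ) / p * nit (s - t) p‖ := by
        congr 1
        push_cast
        simp only [← Complex.mul_conj', G, map_sum]
        simp only [sum_mul_sum]
        simp only [mul_sum]
        rw [sum_comm]
        refine sum_congr rfl fun s _ => ?_
        rw [sum_comm]
        refine sum_congr rfl fun t _ => sum_congr rfl fun p _ => ?_
        have : (starRingEnd ℂ) (nit t p) = nit (-t) p := by
          rw [nit, conj_ex, nit, neg_mul]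
        rw [sub_eq_add_neg, nit_add, map_mul, this]
        ring
      _ ≤ _ := by
        refine (norm_sum_le _ _).trans (sum_le_sum fun s _ =>
          (norm_sum_le _ _).trans (sum_le_sum fun t _ => le_of_eq ?_))
        rw [norm_mul, norm_mul, Complex.norm_conj, hc1, hc1, one_mul, one_mul]
  have e4 : ∀ s ∈ J, ∑ t ∈ J, ‖∑ p ∈ A, (1 : ℂ) / p * nit (s - t) p‖ ≤
      rs A + J.card * (η ^ 2 * rs A / 2) := fun s hs => by
    classical
    calc _ ≤ ∑ t ∈ J, ((if s = t then rs A else 0) + η ^ 2 * rs A / 2) := by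
          refine sum_le_sum fun t ht => ?_
          split_ifs with h
          · have : ‖∑ p ∈ A, (1 : ℂ) / p * nit (s - t) p‖ ≤ rs A :=
              (norm_sum_le _ _).trans (sum_le_sum fun p _ => by simp [norm_nit])
            have h3 : 0 ≤ η ^ 2 * rs A / 2 := by positivity
            linarith
          · simpa using h2 s hs t ht h
      _ = _ := by simp [sum_add_distrib, hs]
  have e5 := e3.trans (sum_le_sum e4)
  rw [sum_const, nsmul_eq_mul] at e5
  have e6 := (pow_le_pow_left₀ (by positivity) e1 2).trans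
    (e2.trans (mul_le_mul_of_nonneg_left e5 hL.le))
  rw [le_div_iff₀ (by positivity)]
  have h3 : 0 < J.card * rs A ^ 2 := by positivity
  refine le_of_mul_le_mul_left ?_ h3
  nlinarith

end Few

theorem few : S_Few := by
  classical
  intro A F T C1 η hF hη hC hL hC1
  by_contra q
  push Not at q
  have hb : ∀ J : Finset ℝ, (∀ s ∈ J, |s| ≤ T ∧ η * rs A < ‖∑ p ∈ A, F p / p * nit s p‖) →
      (∀ s ∈ J, ∀ t ∈ J, s ≠ t → 1 ≤ |s - t|) → (J.card : ℝ) ≤ 2 / η ^ 2 := fun J h1 h2 =>
    Few.card_le hF hη hL J (fun s hs => (h1 s hs).2) fun s hs t ht h =>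
      (hC _ (h2 s hs t ht h) ((abs_sub _ _).trans
        (by linarith [(h1 s hs).1, (h1 t ht).1]))).trans (by linarith)
  have key : ∀ n : ℕ, ∃ J : Finset ℝ, J.card = n ∧
      (∀ s ∈ J, |s| ≤ T ∧ η * rs A < ‖∑ p ∈ A, F p / p * nit s p‖) ∧
      ∀ s ∈ J, ∀ t ∈ J, s ≠ t → 1 ≤ |s - t| := by
    intro n
    induction n with
    | zero => exact ⟨∅, rfl, by simp, by simp⟩
    | succ n ih =>
      obtain ⟨J, h0, h1, h2⟩ := ih
      obtain ⟨s, hs1, hs2, hs3⟩ := q J (hb J h1 h2)
      have hs : s ∉ J := fun h => by have := hs3 s h; simp at this; linarith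
      refine ⟨insert s J, by rw [card_insert_of_notMem hs, h0], ?_, ?_⟩
      · simpa only [forall_mem_insert] using ⟨⟨hs1, hs2⟩, h1⟩
      · intro a ha b hb hab
        rcases mem_insert.1 ha with e | ha' <;> rcases mem_insert.1 hb with e' | hb'
        · exact absurd (e.trans e'.symm) hab
        · rw [e]; exact (hs3 b hb').le
        · rw [e', abs_sub_comm]; exact (hs3 a ha').le
        · exact h2 a ha' b hb' hab
  obtain ⟨n, hn⟩ := exists_nat_gt (2 / η ^ 2)
  obtain ⟨J, rfl, h1, h2⟩ := key n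
  exact absurd (hb J h1 h2) (not_le.2 hn)

end Pool.Agent.P.MP_e30989_nt.W
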