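import Pool.Agent.P.MP_e30989_nt.W.St
import Pool.Agent.P.MP_a14ce1_nt.Ch.Final

/-!
Last stage of the short interval theorem for functions whose Dirichlet series is small.
-/

open Finset MeasureTheory

namespace Pool.Agent.P.MP_e30989_nt.W

open Pool.Agent.P.MP_a14ce1_nt.Ch Pool.Agent.P.MP_a14ce1_nt.Ch.Final

namespace FinalNP

/-- mean square of Gx from a mean square bound for the product of two polynomials -/
theorem Gx_bound' (A B : Finset ℕ) {f : ℕ → ℂ} (hf : CM f) (X : ℕ) (hx : 20 ≤ Real.log X)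
    (hA : ∀ p ∈ A, p.Prime ∧ Real.log p ≤ Real.log X / 10)
    (hB : ∀ p ∈ B, p.Prime ∧ Real.log p ≤ Real.log X / 10) (hAB : Disjoint A B)
    (Θ : ℝ → ℂ) {CF : ℝ} (hCF : 0 < CF) (hΘc : Continuous Θ) (hΘ : ∀ u, ‖Θ u‖ ≤ CF * cw 1 u)
    (hψ : ∀ v, (psi v : ℂ) = ∫ u : ℝ, Θ u * ex (-(u * v)))
    {SB K1 vol : ℝ} (hSB : ∀ t, sm B (fun p => f p / p) t ≤ SB)
    {U : Set ℝ} (hU : U ⊆ Set.Icc (-(X : ℝ)) X) (hvol : volume.real U ≤ vol)
    (hK1 : ∀ u : ℝ, |u| ≤ X → ∫ t in U, (‖Dp A f (t + u)‖ * ‖Rx f X (t + u)‖) ^ 2 ≤ K1) :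
    ∫ t in U, ‖Gx A B f X t‖ ^ 2 ≤ CF ^ 2 * SB * (Real.pi * K1
      + 2 * Real.pi * (vol * (rs A * (1 + 2 * Real.log X)) ^ 2) / X) := by
  have hX0 : (0 : ℝ) < X := by
    rcases Nat.eq_zero_or_pos X with h | h
    · rw [h] at hx; simp at hx; linarith
    · exact_mod_cast h
  have : IsFiniteMeasure (volume.restrict U) := ⟨by simpa using finite_of_subset hU⟩
  have hΘi : Integrable Θ :=
    ((integrable_cw one_pos).const_mul CF).mono' hΘc.aestronglyMeasurable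
      (Filter.Eventually.of_forall hΘ)
  set g : ℝ → ℝ := fun s => ‖Dp A f s‖ * ‖Rx f X s‖ with hg
  have hgc : Continuous g := (continuous_Dp A f).norm.mul (continuous_Rx f X).norm
  have hg0 : ∀ s, 0 ≤ g s := fun s => mul_nonneg (norm_nonneg _) (norm_nonneg _)
  have hgB : ∀ s, g s ≤ rs A * (1 + 2 * Real.log X) := fun s =>
    mul_le_mul (norm_Dp_le A hf.bd s) (norm_Rx_le hf.bd X s) (norm_nonneg _) (rs_nonneg _)
  have hgB' : ∀ s, |g s| ≤ rs A * (1 + 2 * Real.log X) := fun s => by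
    rw [abs_of_nonneg (hg0 s)]; exact hgB s
  have hg2 : ∀ s, g s ^ 2 ≤ (rs A * (1 + 2 * Real.log X)) ^ 2 := fun s =>
    pow_le_pow_left₀ (hg0 s) (hgB s) 2
  have hDB : ∀ s, |‖Dp B f s‖| ≤ rs B := fun s => by
    rw [abs_of_nonneg (norm_nonneg _)]; exact norm_Dp_le B hf.bd s
  have hSB0 : 0 ≤ SB := le_trans
    (integral_nonneg fun u => mul_nonneg (cw_pos _ _).le (sq_nonneg _)) (hSB 0)
  have hK10 : 0 ≤ K1 := le_trans (integral_nonneg fun u => sq_nonneg _) (hK1 0 (by simp))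
  have hvol0 : 0 ≤ vol := le_trans measureReal_nonneg hvol
  have hpt : ∀ t, ‖Gx A B f X t‖ ^ 2 ≤ CF ^ 2 * SB * ∫ u, cw 1 u * g (t + u) ^ 2 := by
    intro t
    have c1 : Continuous fun u => ‖Dp B f (t + u)‖ :=
      (continuous_Dp B f).norm.comp (continuous_const.add continuous_id)
    have c2 : Continuous fun u => g (t + u) := hgc.comp (continuous_const.add continuous_id)
    have i1 : Integrable (fun u => cw 1 u * (‖Dp B f (t + u)‖ * g (t + u))) := by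
      refine integrable_cw_mul one_pos (c1.mul c2) (B := rs B * (rs A * (1 + 2 * Real.log X)))
        fun u => ?_
      rw [abs_mul]
      exact mul_le_mul (hDB _) (hgB' _) (abs_nonneg _) (rs_nonneg _)
    have h1 : ‖Gx A B f X t‖ ≤ CF * ∫ u, cw 1 u * (‖Dp B f (t + u)‖ * g (t + u)) := by
      rw [Gx_eq_int A B hf X hx hA hB hAB Θ hΘi hψ t, ← integral_const_mul]
      refine norm_integral_le_of_norm_le (i1.const_mul CF) (Filter.Eventually.of_forall fun u => ?_)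
      rw [norm_mul, norm_mul, norm_ex, mul_one, norm_mul, norm_mul]
      have h2 : 0 ≤ ‖Dp A f (t + u)‖ * ‖Dp B f (t + u)‖ * ‖Rx f X (t + u)‖ := by positivity
      refine (mul_le_mul_of_nonneg_right (hΘ u) h2).trans (le_of_eq ?_)
      simp only [hg]; ring
    have h2 := cs_cw c1 c2 (fun u => hDB _) (fun u => hgB' _)
    have h3 : ∫ u, cw 1 u * ‖Dp B f (t + u)‖ ^ 2 ≤ SB := hSB t
    have h4 : 0 ≤ ∫ u, cw 1 u * g (t + u) ^ 2 :=
      integral_nonneg fun u => mul_nonneg (cw_pos _ _).le (sq_nonneg _)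
    calc ‖Gx A B f X t‖ ^ 2 ≤ (CF * ∫ u, cw 1 u * (‖Dp B f (t + u)‖ * g (t + u))) ^ 2 :=
          pow_le_pow_left₀ (norm_nonneg _) h1 2
      _ = CF ^ 2 * (∫ u, cw 1 u * (‖Dp B f (t + u)‖ * g (t + u))) ^ 2 := by ring
      _ ≤ CF ^ 2 * (SB * ∫ u, cw 1 u * g (t + u) ^ 2) :=
          mul_le_mul_of_nonneg_left (h2.trans (mul_le_mul_of_nonneg_right h3 h4)) (sq_nonneg _)
      _ = _ := by ring
  have hK2 : ∀ u, ∫ t in U, g (t + u) ^ 2 ≤ vol * (rs A * (1 + 2 * Real.log X)) ^ 2 := by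
    intro u
    have i1 : IntegrableOn (fun t => g (t + u) ^ 2) U :=
      integrableOn_of_cont hU ((hgc.comp (continuous_id.add continuous_const)).pow 2)
    refine (integral_mono i1 (integrable_const _) fun t => hg2 _).trans ?_
    rw [integral_const, smul_eq_mul]
    refine mul_le_mul_of_nonneg_right ?_ (sq_nonneg _)
    simpa using hvol
  obtain ⟨i1, h1⟩ := fubini_bound hX0 hU (g := fun s => g s ^ 2) (hgc.pow 2)
    (B := (rs A * (1 + 2 * Real.log X)) ^ 2)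
    (fun s => by rw [abs_of_nonneg (sq_nonneg _)]; exact hg2 s)
    hK10 (by positivity) hK1 hK2
  have i2 : IntegrableOn (fun t => ‖Gx A B f X t‖ ^ 2) U :=
    integrableOn_of_cont hU ((continuous_Gx A B f X).norm.pow 2)
  refine (integral_mono i2 (i1.const_mul _) hpt).trans ?_
  rw [integral_const_mul]
  exact mul_le_mul_of_nonneg_left h1 (by positivity)

/-- the product of the two polynomials: small off a bounded number of unit intervals -/
theorem K1_bound (A : Finset ℕ) {f : ℕ → ℂ} (hf : ∀ n, ‖f n‖ ≤ 1) (X : ℕ) {D RB SA KH N : ℝ}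
    (J : Finset ℝ) (hJ : (J.card : ℝ) ≤ N)
    (hD : ∀ s : ℝ, |s| ≤ 2 * X → D < ‖Dp A f s‖ → ∃ j ∈ J, |s - j| ≤ 1)
    (hRB : ∀ s : ℝ, |s| ≤ 2 * X → ‖Rx f X s‖ ≤ RB)
    (hSA : ∀ t, sm A (fun p => f p / p) t ≤ SA)
    {U : Set ℝ} (hUm : MeasurableSet U) (hU : U ⊆ Set.Icc (-(X : ℝ)) X)
    (hKH : ∀ u, ∫ t in U, ‖Rx f X (t + u)‖ ^ 2 ≤ KH) (u : ℝ) (hu : |u| ≤ X) :
    ∫ t in U, (‖Dp A f (t + u)‖ * ‖Rx f X (t + u)‖) ^ 2 ≤ D ^ 2 * KH + RB ^ 2 * (N * (2 * SA)) := by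
  have hSA0 : 0 ≤ SA := le_trans
    (integral_nonneg fun u => mul_nonneg (cw_pos _ _).le (sq_nonneg _)) (hSA 0)
  have hDc := continuous_Dp A f
  have hRc := continuous_Rx f X
  have hDb : ∀ s, |‖Dp A f s‖ ^ 2| ≤ rs A ^ 2 := fun s => by
    rw [abs_of_nonneg (sq_nonneg _)]
    exact pow_le_pow_left₀ (norm_nonneg _) (norm_Dp_le A hf s) 2
  have i1 : IntegrableOn (fun t => (‖Dp A f (t + u)‖ * ‖Rx f X (t + u)‖) ^ 2) U :=
    integrableOn_of_cont hU
      (((hDc.norm.mul hRc.norm).comp (continuous_id.add continuous_const)).pow 2)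
  have i3 : IntegrableOn (fun t => ‖Rx f X (t + u)‖ ^ 2) U :=
    integrableOn_of_cont hU ((hRc.norm.comp (continuous_id.add continuous_const)).pow 2)
  have i0 : ∀ j : ℝ, Integrable (fun v => cw 1 v * ‖Dp A f (j + v)‖ ^ 2) := fun j =>
    integrable_cw_mul one_pos ((hDc.norm.comp (continuous_const.add continuous_id)).pow 2)
      (fun v => hDb _)
  have e0 : ∀ j t : ℝ, j + (t + (u - j)) = t + u := fun j t => by ring
  have i2 : ∀ j : ℝ, Integrable (fun t => cw 1 (t + (u - j)) * ‖Dp A f (t + u)‖ ^ 2) := fun j => by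
    have h := (i0 j).comp_add_right (u - j)
    simpa only [e0] using h
  have h2 : ∀ j : ℝ, ∫ t in U, cw 1 (t + (u - j)) * ‖Dp A f (t + u)‖ ^ 2 ≤ SA := fun j => by
    refine (setIntegral_le_integral (i2 j) (Filter.Eventually.of_forall fun t =>
      mul_nonneg (cw_pos _ _).le (sq_nonneg _))).trans ?_
    have h := integral_add_right_eq_self (μ := volume)
      (fun v => cw 1 v * ‖Dp A f (j + v)‖ ^ 2) (u - j)
    simp only [e0] at h
    rw [h]
    exact hSA j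
  have i4 : IntegrableOn (fun t => ∑ j ∈ J, cw 1 (t + (u - j)) * ‖Dp A f (t + u)‖ ^ 2) U :=
    (integrable_finsetSum _ fun j _ => i2 j).integrableOn
  have i5 : IntegrableOn (fun t => D ^ 2 * ‖Rx f X (t + u)‖ ^ 2) U := i3.const_mul _
  have i6 : IntegrableOn
      (fun t => 2 * RB ^ 2 * ∑ j ∈ J, cw 1 (t + (u - j)) * ‖Dp A f (t + u)‖ ^ 2) U := i4.const_mul _
  have i7 : IntegrableOn (fun t => D ^ 2 * ‖Rx f X (t + u)‖ ^ 2 +
      2 * RB ^ 2 * ∑ j ∈ J, cw 1 (t + (u - j)) * ‖Dp A f (t + u)‖ ^ 2) U := i5.add i6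
  have hle : ∀ t ∈ U, (‖Dp A f (t + u)‖ * ‖Rx f X (t + u)‖) ^ 2 ≤ D ^ 2 * ‖Rx f X (t + u)‖ ^ 2 +
      2 * RB ^ 2 * ∑ j ∈ J, cw 1 (t + (u - j)) * ‖Dp A f (t + u)‖ ^ 2 := by
    intro t ht
    have h1 : |t + u| ≤ 2 * X := by
      have h2 : |t| ≤ X := abs_le.2 ⟨(hU ht).1, (hU ht).2⟩
      have := abs_add_le t u
      linarith
    have hnn : ∀ j ∈ J, 0 ≤ cw 1 (t + (u - j)) * ‖Dp A f (t + u)‖ ^ 2 := fun j _ =>
      mul_nonneg (cw_pos _ _).le (sq_nonneg _)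
    have hs0 : 0 ≤ ∑ j ∈ J, cw 1 (t + (u - j)) * ‖Dp A f (t + u)‖ ^ 2 := sum_nonneg hnn
    rw [mul_pow]
    by_cases hs : D < ‖Dp A f (t + u)‖
    · obtain ⟨j, hj, hj1⟩ := hD _ h1 hs
      have h3 : 1 ≤ 2 * cw 1 (t + (u - j)) := by
        unfold cw
        have h4 : (t + (u - j)) ^ 2 ≤ 1 := by
          rw [← sq_abs, show t + (u - j) = t + u - j by ring]
          nlinarith [abs_nonneg (t + u - j)]
        rw [div_one, mul_one_div, le_div_iff₀ (by positivity)]; linarith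
      have h4 := single_le_sum hnn hj
      have h5 : ‖Dp A f (t + u)‖ ^ 2 ≤
          2 * ∑ j ∈ J, cw 1 (t + (u - j)) * ‖Dp A f (t + u)‖ ^ 2 := by
        have := mul_le_mul_of_nonneg_right h3 (sq_nonneg ‖Dp A f (t + u)‖)
        linarith
      have h6 : ‖Rx f X (t + u)‖ ^ 2 ≤ RB ^ 2 := pow_le_pow_left₀ (norm_nonneg _) (hRB _ h1) 2
      have h7 := mul_le_mul h5 h6 (sq_nonneg _) (by positivity)
      have h8 : 0 ≤ D ^ 2 * ‖Rx f X (t + u)‖ ^ 2 := by positivity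
      linarith
    · have h3 : ‖Dp A f (t + u)‖ ^ 2 ≤ D ^ 2 := pow_le_pow_left₀ (norm_nonneg _) (not_lt.1 hs) 2
      have h4 := mul_le_mul_of_nonneg_right h3 (sq_nonneg ‖Rx f X (t + u)‖)
      have h5 : 0 ≤ 2 * RB ^ 2 * ∑ j ∈ J, cw 1 (t + (u - j)) * ‖Dp A f (t + u)‖ ^ 2 := by positivity
      linarith
  refine (setIntegral_mono_on i1 i7 hUm hle).trans ?_
  rw [integral_add i5 i6, integral_const_mul, integral_const_mul,
    integral_finsetSum _ fun j _ => (i2 j).integrableOn]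
  have h3 : ∑ j ∈ J, ∫ t in U, cw 1 (t + (u - j)) * ‖Dp A f (t + u)‖ ^ 2 ≤ N * SA := by
    refine (sum_le_sum fun j _ => h2 j).trans ?_
    rw [sum_const, nsmul_eq_mul]
    exact mul_le_mul_of_nonneg_right hJ hSA0
  have h4 := mul_le_mul_of_nonneg_left h3 (show 0 ≤ 2 * RB ^ 2 by positivity)
  have h5 := mul_le_mul_of_nonneg_left (hKH u) (sq_nonneg D)
  linarith

theorem arith' {LA LB x k1 k2 CF CP CH η r E : ℝ} (hLA : 1 ≤ LA) (hLB : 1 ≤ LB) (hx : 0 < x)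
    (hk1 : 0 < k1) (hk2 : 0 < k2) (hCP : 0 < CP) (hCH : 0 < CH) (hη : 0 < η)
    (hE : E ≤ 72 * LA ^ 2) :
    2 / (LA * LB) ^ 2 * (CF ^ 2 * (CP * LB / (x / k1)) *
      (Real.pi * ((η * LA) ^ 2 * (CH * x) +
        (r * x) ^ 2 * (2 / η ^ 2 * (2 * (CP * LA / (x / k2))))) + 2 * Real.pi * E)) ≤
    2 * CF ^ 2 * CP * k1 * Real.pi * CH * η ^ 2 +
      8 * CF ^ 2 * CP ^ 2 * k1 * k2 * Real.pi / η ^ 2 * r ^ 2 +
      288 * CF ^ 2 * CP * k1 * Real.pi / x := by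
  have hpi := Real.pi_pos
  have hA : 0 < LA := by linarith
  have hB : 0 < LB := by linarith
  have h1 : 2 / (LA * LB) ^ 2 * (CF ^ 2 * (CP * LB / (x / k1)) *
      (Real.pi * ((η * LA) ^ 2 * (CH * x) +
        (r * x) ^ 2 * (2 / η ^ 2 * (2 * (CP * LA / (x / k2))))) + 2 * Real.pi * E)) ≤
      2 / (LA * LB) ^ 2 * (CF ^ 2 * (CP * LB / (x / k1)) *
      (Real.pi * ((η * LA) ^ 2 * (CH * x) +
        (r * x) ^ 2 * (2 / η ^ 2 * (2 * (CP * LA / (x / k2))))) +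
        2 * Real.pi * (72 * LA ^ 2))) := by
    gcongr
  refine h1.trans ?_
  have h2 : 2 / (LA * LB) ^ 2 * (CF ^ 2 * (CP * LB / (x / k1)) *
      (Real.pi * ((η * LA) ^ 2 * (CH * x) +
        (r * x) ^ 2 * (2 / η ^ 2 * (2 * (CP * LA / (x / k2))))) +
        2 * Real.pi * (72 * LA ^ 2))) =
      2 * CF ^ 2 * CP * k1 * Real.pi * CH * η ^ 2 / LB +
      8 * CF ^ 2 * CP ^ 2 * k1 * k2 * Real.pi / η ^ 2 * r ^ 2 / (LA * LB) +
      288 * CF ^ 2 * CP * k1 * Real.pi / x / LB := by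
    field_simp
    ring
  rw [h2]
  have h3 : 1 ≤ LA * LB := one_le_mul_of_one_le_of_one_le hLA hLB
  exact add_le_add (add_le_add (div_le_self (by positivity) hLB) (div_le_self (by positivity) h3))
    (div_le_self (by positivity) hLB)

theorem div_le_fifth {P L δ : ℝ} (hδ : 0 < δ) (hL : 0 < L) (h : 5 * P / δ ≤ L) : P / L ≤ δ / 5 := by
  rw [div_le_iff₀ hδ] at h
  rw [div_le_iff₀ hL]
  linarith

theorem exists_small {Q δ : ℝ} (hQ : 0 < Q) (hδ : 0 < δ) :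
    ∃ η : ℝ, 0 < η ∧ Q * η ^ 2 ≤ δ / 5 := by
  refine ⟨min 1 (δ / (5 * Q)), lt_min one_pos (by positivity), ?_⟩
  set η := min 1 (δ / (5 * Q)) with hη
  have h0 : 0 < η := lt_min one_pos (by positivity)
  have h1 : η ≤ 1 := min_le_left _ _
  have h2 : η ≤ δ / (5 * Q) := min_le_right _ _
  rw [le_div_iff₀ (by positivity)] at h2
  have h3 : η ^ 2 ≤ η := by nlinarith
  have h4 := mul_le_mul_of_nonneg_left h3 hQ.le
  linarith

theorem lc_one_prime (χ : DirichletCharacter ℂ 1) {p : ℕ} (hp : p.Prime) : lc χ p = -1 := by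
  unfold lc
  rw [lam_prime hp, Subsingleton.elim ((p : ℕ) : ZMod 1) 1, map_one]
  simp

end FinalNP

open FinalNP

theorem finalNP (h1 : S_M1) (hT : S_TK) (hM : S_MVT) (hF : S_Fourier) (hP : S_SmPrimes)
    (hH : S_HM) (hH1 : S_H1) (hX : S_RxNP) (hW : S_Few) : S_FinalNP := by
  obtain ⟨C0, hC0, hM1⟩ := h1
  obtain ⟨Θ, CF, hCF, hΘc, hΘ, hψ, -⟩ := hF psi (contDiff_psi (n := 2)) compact_psi
  obtain ⟨CP, hCP, hP⟩ := hP
  obtain ⟨c, CH, XH, hc, hCH, hH⟩ := hH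
  refine ⟨min c (1 / 2), lt_min hc (by norm_num), fun δ hδ => ?_⟩
  obtain ⟨C1, hC1, hH1⟩ := hH1 1 1
  obtain ⟨CR, hCR, hX⟩ := hX
  have hpi := Real.pi_pos
  obtain ⟨b0, hb1, hb2⟩ : ∃ b0 : ℝ, 1 ≤ b0 ∧ 5 * (2 * 14688 * Real.pi) / δ ≤ b0 :=
    ⟨max 1 _, le_max_left _ _, le_max_right _ _⟩
  set k1 : ℝ := 10 * Real.exp (b0 + C0) with hk1
  have hk1' : 10 ≤ k1 := by
    have := Real.one_le_exp (show 0 ≤ b0 + C0 by linarith)
    linarith
  have hk10 : 0 < k1 := by linarith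
  obtain ⟨η, hη, hη2⟩ := exists_small
    (show 0 < 2 * CF ^ 2 * CP * k1 * Real.pi * CH by positivity) hδ
  obtain ⟨a0, ha1, ha2, ha3⟩ : ∃ a0 : ℝ, 1 ≤ a0 ∧ 5 * (2 * 14688 * Real.pi * (2 * k1) ^ 2) / δ ≤ a0 ∧
      2 * C1 / η ^ 2 ≤ a0 :=
    ⟨max 1 (max _ _), le_max_left _ _, (le_max_left _ _).trans (le_max_right _ _),
      (le_max_right _ _).trans (le_max_right _ _)⟩
  set k2 : ℝ := k1 * Real.exp (a0 + C0) with hk2
  have hk2' : k1 ≤ k2 := by
    exact le_mul_of_one_le_right (by linarith) (Real.one_le_exp (by linarith))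
  have hk20 : 0 < k2 := by linarith
  obtain ⟨ε, hε, hε2⟩ := exists_small
    (show 0 < 8 * CF ^ 2 * CP ^ 2 * k1 * k2 * Real.pi / η ^ 2 * (2 * CR) ^ 2 by positivity) hδ
  obtain ⟨k, hk⟩ := exists_nat_ge (4 * k2)
  obtain ⟨y0, hy0⟩ := hH1 k
  obtain ⟨x0, hx1, hx2, hx3, hx4⟩ : ∃ x0 : ℝ, 2 * k2 ≤ x0 ∧ k2 * y0 ≤ x0 ∧
      5 * (288 * CF ^ 2 * CP * k1 * Real.pi) / δ ≤ x0 ∧ 1 / ε ≤ x0 :=
    ⟨max (max (2 * k2) _) (max _ _), (le_max_left _ _).trans (le_max_left _ _),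
      (le_max_right _ _).trans (le_max_left _ _), (le_max_left _ _).trans (le_max_right _ _),
      (le_max_right _ _).trans (le_max_right _ _)⟩
  refine ⟨ε, max XH (max 4 ⌈Real.exp x0⌉₊), hε, fun X hXX f hf hL U hUm hU hvol => ?_⟩
  have hXH : XH ≤ X := (le_max_left _ _).trans hXX
  have hX4 : 4 ≤ X := ((le_max_left _ _).trans (le_max_right _ _)).trans hXX
  have hXe : ⌈Real.exp x0⌉₊ ≤ X := ((le_max_right _ _).trans (le_max_right _ _)).trans hXX
  have hX0 : (0 : ℝ) < X := by exact_mod_cast (show 0 < X by omega)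
  have hX1 : (1 : ℝ) ≤ X := by exact_mod_cast (show 1 ≤ X by omega)
  have hX4' : (4 : ℝ) ≤ X := by exact_mod_cast hX4
  have hxx : x0 ≤ Real.log X := by
    rw [Real.le_log_iff_exp_le hX0]
    exact (Nat.ceil_le.1 hXe)
  have hRx := hX f hf X ε (by omega) hε hL
  obtain ⟨x, hxdef⟩ : ∃ x, x = Real.log X := ⟨_, rfl⟩
  have hXexp : (X : ℝ) = Real.exp x := by rw [hxdef, Real.exp_log hX0]
  rw [← hxdef] at hxx hRx
  have hx20 : 20 ≤ x := by linarith
  have hx0 : 0 < x := by linarith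
  have hr2 : 2 ≤ x / k2 := by rw [le_div_iff₀ hk20]; linarith
  have hr21 : x / k2 ≤ x / k1 := div_le_div_of_nonneg_left hx0.le hk10 hk2'
  have hr10 : x / k1 ≤ x / 10 := div_le_div_of_nonneg_left hx0.le (by norm_num) hk1'
  have hy2 : 2 ≤ Real.exp (x / k2) := by linarith [Real.add_one_le_exp (x / k2)]
  have hyQ : Real.exp (x / k2) ≤ Real.exp (x / k1) := Real.exp_le_exp.2 hr21
  have hQW : Real.exp (x / k1) ≤ Real.exp (x / 10) := Real.exp_le_exp.2 hr10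
  have hWX : Real.exp (x / 10) ≤ X := by rw [hXexp]; exact Real.exp_le_exp.2 (by linarith)
  set A := pr (Real.exp (x / k2)) (Real.exp (x / k1)) with hAdef
  set B := pr (Real.exp (x / k1)) (Real.exp (x / 10)) with hBdef
  have hmA : ∀ p ∈ A, p.Prime ∧ Real.exp (x / k2) < p ∧ (p : ℝ) ≤ Real.exp (x / k1) :=
    fun p hp => (mem_pr (Real.exp_pos _).le).1 hp
  have hmB : ∀ p ∈ B, p.Prime ∧ Real.exp (x / k1) < p ∧ (p : ℝ) ≤ Real.exp (x / 10) :=
    fun p hp => (mem_pr (Real.exp_pos _).le).1 hp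
  have hlog : ∀ p : ℕ, p.Prime → (p : ℝ) ≤ Real.exp (x / 10) → Real.log p ≤ Real.log X / 10 := by
    intro p hp h
    rw [← hxdef, Real.log_le_iff_le_exp (by exact_mod_cast hp.pos)]
    exact h
  have hA : ∀ p ∈ A, p.Prime ∧ Real.log p ≤ Real.log X / 10 :=
    fun p hp => ⟨(hmA p hp).1, hlog p (hmA p hp).1 ((hmA p hp).2.2.trans hQW)⟩
  have hB : ∀ p ∈ B, p.Prime ∧ Real.log p ≤ Real.log X / 10 :=
    fun p hp => ⟨(hmB p hp).1, hlog p (hmB p hp).1 (hmB p hp).2.2⟩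
  have hAB : Disjoint A B := disjoint_left.2 fun p hp hq =>
    absurd (hmA p hp).2.2 (not_le.2 (hmB p hq).2.1)
  have hLA : a0 ≤ rs A := by
    have h := hM1 _ _ hy2 hyQ
    rw [Real.log_exp, Real.log_exp] at h
    have h2 : x / k1 / (x / k2) = Real.exp (a0 + C0) := by
      rw [hk2]; field_simp
    rw [h2, Real.log_exp] at h
    linarith [(abs_le.1 h).1]
  have hLB : b0 ≤ rs B := by
    have h := hM1 _ _ (hy2.trans hyQ) hQW
    rw [Real.log_exp, Real.log_exp] at h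
    have h2 : x / 10 / (x / k1) = Real.exp (b0 + C0) := by
      rw [hk1]; field_simp
    rw [h2, Real.log_exp] at h
    linarith [(abs_le.1 h).1]
  have hLA1 : 1 ≤ rs A := ha1.trans hLA
  have hLB1 : 1 ≤ rs B := hb1.trans hLB
  have hcard : ∀ u v : ℝ, v ≤ X → (pr u v).card ≤ 8 * X := by
    intro u v hv
    have h2 : ⌊v⌋₊ ≤ X := by simpa using Nat.floor_le_floor hv
    have h3 := card_pr_le u v
    omega
  have hK : ∀ n ∈ Icc 1 (8 * X), om B n ≤ 2 * k1 := by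
    intro n hn
    rw [mem_Icc] at hn
    have h2 := om_le B (fun p hp => (hmB p hp).1) (l := x / k1) (fun p hp => by
      rw [Real.le_log_iff_exp_le (by exact_mod_cast (hmB p hp).1.pos)]
      exact (hmB p hp).2.1.le) hn.1
    have h3 : Real.log n ≤ 2 * x := by
      rw [Real.log_le_iff_le_exp (by exact_mod_cast hn.1), two_mul, Real.exp_add, ← hXexp]
      have h4 : (n : ℝ) ≤ 8 * X := by exact_mod_cast hn.2
      have h5 : (8 : ℝ) ≤ X := by rw [hXexp]; linarith [Real.add_one_le_exp x]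
      exact h4.trans (mul_le_mul_of_nonneg_right h5 hX0.le)
    have h4 : om B n * (x / k1) ≤ 2 * k1 * (x / k1) := by
      have : 2 * k1 * (x / k1) = 2 * x := by field_simp
      linarith
    exact le_of_mul_le_mul_right h4 (div_pos hx0 hk10)
  have hD := diff_bound hT hM A B hf.bd X (by omega) (fun p hp => (hmA p hp).1)
    (fun p hp => (hmB p hp).1) (hcard _ _ (hQW.trans hWX)) (hcard _ _ hWX) (by linarith) hLB1 hK hUm hU
  have hSB : ∀ t, sm B (fun p => f p / p) t ≤ CP * rs B / (x / k1) := by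
    intro t
    have h := hP (Real.exp (x / k1)) B (fun p => f p / p) (hy2.trans hyQ)
      (fun p hp => ⟨(hmB p hp).1, (hmB p hp).2.1⟩) (fun p _ => norm_div_le hf.bd p) t
    rwa [Real.log_exp] at h
  have hSA : ∀ t, sm A (fun p => f p / p) t ≤ CP * rs A / (x / k2) := by
    intro t
    have h := hP (Real.exp (x / k2)) A (fun p => f p / p) hy2
      (fun p hp => ⟨(hmA p hp).1, (hmA p hp).2.1⟩) (fun p _ => norm_div_le hf.bd p) t
    rwa [Real.log_exp] at h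
  have hC1' : ∀ s : ℝ, 1 ≤ |s| → |s| ≤ 2 * (2 * X) →
      ‖∑ p ∈ A, (1 : ℂ) / p * nit s p‖ ≤ C1 := by
    intro s hs1 hs2
    have h2 : y0 ≤ ⌊Real.exp (x / k2)⌋₊ := by
      apply Nat.le_floor
      have h3 : (y0 : ℝ) ≤ x / k2 := by rw [le_div_iff₀ hk20]; linarith
      linarith [Real.add_one_le_exp (x / k2)]
    have e1 : ∑ p ∈ A, (1 : ℂ) / p * nit s p =
        -∑ p ∈ A, lc (1 : DirichletCharacter ℂ 1) p / p * nit s p := by
      rw [← sum_neg_distrib]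
      refine sum_congr rfl fun p hp => ?_
      rw [lc_one_prime _ (hmA p hp).1]; ring
    rw [e1, norm_neg]
    refine hy0 _ _ h2 (Nat.floor_le_floor hyQ) s hs1 (hs2.trans ?_)
    have h3 : Real.exp (x / k2 / 2) ≤ (⌊Real.exp (x / k2)⌋₊ : ℝ) := by
      have h4 := Nat.lt_floor_add_one (Real.exp (x / k2))
      have h5 : Real.exp (x / k2) = Real.exp (x / k2 / 2) * Real.exp (x / k2 / 2) := by
        rw [← Real.exp_add]; congr 1; ring
      have h6 : 2 ≤ Real.exp (x / k2 / 2) := by linarith [Real.add_one_le_exp (x / k2 / 2)]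
      have h7 := mul_le_mul_of_nonneg_right h6 (Real.exp_pos (x / k2 / 2)).le
      linarith
    have h4 := pow_le_pow_left₀ (Real.exp_pos _).le h3 k
    refine le_trans ?_ h4
    rw [← Real.exp_nat_mul]
    have h5 : x + x ≤ k * (x / k2 / 2) := by
      have h6 : 4 * k2 * (x / k2 / 2) = x + x := by field_simp; ring
      rw [← h6]
      exact mul_le_mul_of_nonneg_right hk (by positivity)
    refine le_trans ?_ (Real.exp_le_exp.2 h5)
    rw [Real.exp_add, ← hXexp]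
    have h6 := mul_le_mul_of_nonneg_right hX4' hX0.le
    linarith
  have hC1'' : 2 * C1 ≤ η ^ 2 * rs A := by
    have h := ha3.trans hLA
    rw [div_le_iff₀ (by positivity)] at h
    linarith
  obtain ⟨J, hJ, hJ2⟩ := hW A f (2 * X) C1 η hf.bd hη hC1' (by linarith) hC1''
  have hvol1 : volume.real U ≤ (X : ℝ) ^ c :=
    hvol.trans (Real.rpow_le_rpow_of_exponent_le hX1 (min_le_left _ _))
  have hvol2 : volume.real U ≤ Real.exp (x / 2) := by
    refine hvol.trans ((Real.rpow_le_rpow_of_exponent_le hX1 (min_le_right _ _)).trans (le_of_eq ?_))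
    rw [Real.rpow_def_of_pos hX0, ← hxdef]; congr 1; ring
  have hKH : ∀ u, ∫ t in U, ‖Rx f X (t + u)‖ ^ 2 ≤ CH * x := by
    intro u
    have h := hH X hXH (fun m => f m * nit u m)
      (fun m => by rw [norm_mul, norm_nit, mul_one]; exact hf.bd m) U hUm hU hvol1
    simp_rw [Rx_shift] at h
    rwa [← hxdef] at h
  have hRB : ∀ s : ℝ, |s| ≤ 2 * X → ‖Rx f X s‖ ≤ 2 * CR * ε * x := by
    intro s hs
    have h2 : 1 ≤ ε * x := by
      have h := hx4.trans hxx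
      rw [div_le_iff₀ hε] at h
      linarith
    have h3 := mul_le_mul_of_nonneg_left (show ε * x + 1 ≤ 2 * (ε * x) by linarith) hCR.le
    have h4 := hRx s hs
    linarith
  have hK1 := K1_bound A hf.bd X J hJ hJ2 hRB hSA hUm hU hKH
  have hG := Gx_bound' A B hf X (by rw [← hxdef]; exact hx20) hA hB hAB Θ hCF hΘc hΘ hψ hSB
    hU hvol2 hK1
  have hS := split_bound A B f X (L := rs A * rs B) (by positivity) hU
  rw [← hxdef, mul_div_assoc (2 * Real.pi)] at hG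
  have hE : Real.exp (x / 2) * (rs A * (1 + 2 * x)) ^ 2 / (X : ℝ) ≤ 72 * rs A ^ 2 := by
    rw [hXexp]; exact tail_small (by linarith)
  have hAr := arith' (CF := CF) (r := 2 * CR * ε) hLA1 hLB1 hx0 hk10 hk20 hCP hCH hη hE
  have hG2 := (mul_le_mul_of_nonneg_left hG
    (show 0 ≤ 2 / (rs A * rs B) ^ 2 by positivity)).trans hAr
  have t1 := div_le_fifth hδ (by linarith) (hb2.trans hLB)
  have t2 := div_le_fifth hδ (by linarith) (ha2.trans hLA)
  have t3 := div_le_fifth hδ hx0 (hx3.trans hxx)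
  have e1 : 2 * (14688 * Real.pi * (1 / rs B + (2 * k1) ^ 2 / rs A)) =
      2 * 14688 * Real.pi / rs B + 2 * 14688 * Real.pi * (2 * k1) ^ 2 / rs A := by ring
  have e2 : 8 * CF ^ 2 * CP ^ 2 * k1 * k2 * Real.pi / η ^ 2 * (2 * CR * ε) ^ 2 =
      8 * CF ^ 2 * CP ^ 2 * k1 * k2 * Real.pi / η ^ 2 * (2 * CR) ^ 2 * ε ^ 2 := by ring
  linarith

end Pool.Agent.P.MP_e30989_nt.W
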