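import Pool.Agent.P.MP_e30989_nt.W.St

/-!
Package Lower: the mean square of a multiplicative function with convergent defect sum is bounded
below. We count along the progression `1 + w! k`.
-/

open Finset Filter Topology

namespace Pool.Agent.P.MP_e30989_nt.W

namespace Lower

theorem nrm_le (z : Disc) : ‖(z : ℂ)‖ ≤ 1 := mem_closedBall_zero_iff.mp z.2

open Classical in
/-- the weight of a divisor -/
noncomputable def bb (f : ℕ → Disc) (d : ℕ) : ℝ :=
  if d.Prime then 1 - ‖(f d : ℂ)‖ else if IsSquare d then 1 else 0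

theorem bb_nonneg (f : ℕ → Disc) (d : ℕ) : 0 ≤ bb f d := by
  unfold bb
  split_ifs
  · exact sub_nonneg.mpr (nrm_le _)
  · exact zero_le_one
  · exact le_rfl

theorem bb_le (f : ℕ → Disc) (d : ℕ) : bb f d ≤ 1 := by
  unfold bb
  split_ifs
  · exact sub_le_self _ (norm_nonneg _)
  · exact le_rfl
  · exact zero_le_one

theorem bb_summable {f : ℕ → Disc} (hf : Full f) : Summable fun d : ℕ => bb f d / d := by
  classical
  have h1 : Summable (Set.indicator {p : ℕ | p.Prime} fun p => (1 - ‖(f p : ℂ)‖) / (p : ℝ)) :=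
    summable_subtype_iff_indicator.mp hf
  have h2 : Summable fun d : ℕ => (if IsSquare d then (1 : ℝ) else 0) / d := by
    have hi : Function.Injective fun m : ℕ => m ^ 2 := Nat.pow_left_injective two_ne_zero
    refine (hi.summable_iff fun d hd => ?_).mp ?_
    · rw [if_neg, zero_div]
      rintro ⟨m, rfl⟩
      exact hd ⟨m, sq m⟩
    · refine (Real.summable_one_div_nat_pow.mpr one_lt_two).congr fun m => ?_
      rw [Function.comp, if_pos ⟨m, sq m⟩, Nat.cast_pow]
  refine (h1.add h2).of_nonneg_of_le (fun d => div_nonneg (bb_nonneg f d) d.cast_nonneg) fun d => ?_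
  by_cases hd : d.Prime
  · rw [bb, if_pos hd, Set.indicator_of_mem (show d ∈ {p : ℕ | p.Prime} from hd)]
    refine le_add_of_nonneg_right (div_nonneg ?_ d.cast_nonneg)
    split_ifs <;> norm_num
  · rw [bb, if_neg hd, Set.indicator_of_notMem (show d ∉ {p : ℕ | p.Prime} from hd), zero_add]

theorem tail {u : ℕ → ℝ} (hu : Summable u) {ε : ℝ} (hε : 0 < ε) :
    ∃ w : ℕ, ∀ t : Finset ℕ, (∀ d ∈ t, w < d) → ∑ d ∈ t, u d ≤ ε := by
  obtain ⟨s, hs⟩ := hu.vanishing (Iic_mem_nhds hε)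
  refine ⟨s.sup id, fun t ht => hs t (disjoint_left.mpr fun d h1 h2 => ?_)⟩
  exact absurd (le_sup (f := id) h2) (not_le.mpr (ht d h1))

theorem prod_primes {f : ℕ → Disc} (hf : IsMult f) (s : Finset ℕ) (hs : ∀ p ∈ s, p.Prime) :
    1 - ‖(f (∏ p ∈ s, p) : ℂ)‖ ≤ ∑ p ∈ s, (1 - ‖(f p : ℂ)‖) := by
  classical
  induction s using Finset.induction_on with
  | empty => simp [hf.1]
  | insert p s hp ih =>
    have h1 := hs p (mem_insert_self p s)
    have h2 : ∀ q ∈ s, q.Prime := fun q hq => hs q (mem_insert_of_mem hq)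
    rw [prod_insert hp, sum_insert hp, hf.2 _ _ h1.pos (prod_pos fun q hq => (h2 q hq).pos)
      (Nat.Coprime.prod_right fun q hq => (Nat.coprime_primes h1 (h2 q hq)).mpr
        fun e => hp (e ▸ hq)), norm_mul]
    nlinarith [ih h2, mul_nonneg (sub_nonneg.mpr (nrm_le (f p)))
      (sub_nonneg.mpr (nrm_le (f (∏ p ∈ s, p))))]

theorem defect {f : ℕ → Disc} (hf : IsMult f) {n : ℕ} (hn : n ≠ 0) :
    1 - ‖(f n : ℂ)‖ ≤ ∑ d ∈ n.divisors.erase 1, bb f d := by
  by_cases h : Squarefree n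
  · have h1 := prod_primes hf n.primeFactors fun p hp => Nat.prime_of_mem_primeFactors hp
    rw [Nat.prod_primeFactors_of_squarefree h] at h1
    refine h1.trans (le_trans (le_of_eq (sum_congr rfl fun p hp => ?_))
      (sum_le_sum_of_subset_of_nonneg (s := n.primeFactors) (fun p hp => ?_)
        fun d _ _ => bb_nonneg f d))
    · rw [bb, if_pos (Nat.prime_of_mem_primeFactors hp)]
    · exact mem_erase.mpr ⟨(Nat.prime_of_mem_primeFactors hp).ne_one,
        Nat.mem_divisors.mpr ⟨Nat.dvd_of_mem_primeFactors hp, hn⟩⟩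
  · rw [Nat.squarefree_iff_prime_squarefree] at h
    push Not at h
    obtain ⟨p, hp, hd⟩ := h
    have h1 : p * p ∈ n.divisors.erase 1 :=
      mem_erase.mpr ⟨fun e => hp.ne_one (Nat.eq_one_of_mul_eq_one_left e),
        Nat.mem_divisors.mpr ⟨hd, hn⟩⟩
    refine le_trans ?_ (single_le_sum (fun d _ => bb_nonneg f d) h1)
    rw [bb, if_neg (Nat.not_prime_mul hp.ne_one hp.ne_one), if_pos ⟨p, rfl⟩]
    exact sub_le_self _ (norm_nonneg _)

theorem count (W K d : ℕ) :
    ((((range K).filter fun k => d ∣ 1 + W * k).card : ℕ) : ℝ) ≤ K / d + 1 := by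
  have h : ((range K).filter fun k => d ∣ 1 + W * k).card ≤ (range (K / d + 1)).card := by
    refine card_le_card_of_injOn (fun k => k / d) (fun k hk => ?_) fun k hk k' hk' e => ?_
    · have := mem_range.mp (mem_filter.mp hk).1
      exact mem_coe.mpr (mem_range.mpr (Nat.lt_succ_of_le (Nat.div_le_div_right this.le)))
    · have h1 := (mem_filter.mp hk).2
      have h2 := (mem_filter.mp hk').2
      have hc : Nat.gcd d W = 1 := Nat.eq_one_of_dvd_one ((Nat.dvd_add_left
        ((Nat.gcd_dvd_right d W).mul_right k)).mp ((Nat.gcd_dvd_left d W).trans h1))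
      have h3 : 1 + W * k ≡ 1 + W * k' [MOD d] :=
        ((Nat.modEq_zero_iff_dvd).mpr h1).trans ((Nat.modEq_zero_iff_dvd).mpr h2).symm
      have h4 : k % d = k' % d := Nat.ModEq.cancel_left_of_coprime hc (h3.add_left_cancel' 1)
      have e' : k / d = k' / d := e
      rw [← Nat.div_add_mod k d, ← Nat.div_add_mod k' d, e', h4]
  rw [card_range] at h
  calc _ ≤ ((K / d + 1 : ℕ) : ℝ) := Nat.cast_le.mpr h
    _ ≤ _ := by
      rw [Nat.cast_add, Nat.cast_one]
      exact add_le_add_left Nat.cast_div_le 1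

theorem sum_defect {f : ℕ → Disc} (hf : IsMult f) (w K N : ℕ)
    (hK : ∀ k ∈ range K, 1 + w.factorial * k ≤ N) :
    ∑ k ∈ range K, (1 - ‖(f (1 + w.factorial * k) : ℂ)‖) ≤
      K * ∑ d ∈ Ioc w N, bb f d / d + ∑ d ∈ Ioc 0 N, bb f d := by
  calc _ ≤ ∑ k ∈ range K, ∑ d ∈ Ioc w N, if d ∣ 1 + w.factorial * k then bb f d else 0 := by
        refine sum_le_sum fun k hk => (defect hf (by omega)).trans ?_
        rw [← sum_filter]
        refine sum_le_sum_of_subset_of_nonneg (fun d hd => ?_) fun d _ _ => bb_nonneg f d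
        obtain ⟨h1, h2⟩ := mem_erase.mp hd
        have h3 := Nat.dvd_of_mem_divisors h2
        refine mem_filter.mpr ⟨mem_Ioc.mpr ⟨not_le.mp fun h4 => h1 ?_,
          (Nat.le_of_dvd (by omega) h3).trans (hK k hk)⟩, h3⟩
        exact Nat.eq_one_of_dvd_one ((Nat.dvd_add_left
          ((Nat.dvd_factorial (Nat.pos_of_mem_divisors h2) h4).mul_right k)).mp h3)
    _ = ∑ d ∈ Ioc w N, bb f d * ((range K).filter fun k => d ∣ 1 + w.factorial * k).card := by
        rw [sum_comm]
        refine sum_congr rfl fun d _ => ?_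
        rw [← sum_filter, sum_const, nsmul_eq_mul, mul_comm]
    _ ≤ ∑ d ∈ Ioc w N, (K * (bb f d / d) + bb f d) := by
        refine sum_le_sum fun d _ => (mul_le_mul_of_nonneg_left (count _ K d)
          (bb_nonneg f d)).trans (le_of_eq ?_)
        ring
    _ ≤ _ := by
        rw [sum_add_distrib, ← mul_sum]
        exact add_le_add_right (sum_le_sum_of_subset_of_nonneg
          (Ioc_subset_Ioc_left (Nat.zero_le w)) fun d _ _ => bb_nonneg f d) _

theorem sum_bb (f : ℕ → Disc) (v N : ℕ) :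
    ∑ d ∈ Ioc 0 N, bb f d ≤ v + N * ∑ d ∈ Ioc v N, bb f d / d := by
  calc _ ≤ ∑ d ∈ Ioc 0 v ∪ Ioc v N, bb f d := by
        refine sum_le_sum_of_subset_of_nonneg (fun d hd => ?_) fun d _ _ => bb_nonneg f d
        simp only [mem_union, mem_Ioc] at hd ⊢
        omega
    _ = ∑ d ∈ Ioc 0 v, bb f d + ∑ d ∈ Ioc v N, bb f d := sum_union (by
        refine disjoint_left.mpr fun d h1 h2 => ?_
        simp only [mem_Ioc] at h1 h2
        omega)
    _ ≤ _ := by
        refine add_le_add ((sum_le_card_nsmul _ _ 1 fun d _ => bb_le f d).trans (by simp)) ?_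
        rw [mul_sum]
        refine sum_le_sum fun d hd => ?_
        obtain ⟨h1, h2⟩ := mem_Ioc.mp hd
        have h3 : (0 : ℝ) < d := Nat.cast_pos.mpr (by omega)
        rw [← mul_div_assoc, le_div_iff₀ h3, mul_comm]
        exact mul_le_mul_of_nonneg_right (Nat.cast_le.mpr h2) (bb_nonneg f d)

end Lower

open Lower in
theorem lower : S_Lower := by
  intro f hf hF
  have hs := bb_summable hF
  obtain ⟨w, hw⟩ := tail hs (show (0 : ℝ) < 1 / 8 by norm_num)
  have hW : 0 < w.factorial := w.factorial_pos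
  have hW' : (0 : ℝ) < w.factorial := Nat.cast_pos.mpr hW
  obtain ⟨v, hv⟩ := tail hs (show (0 : ℝ) < 1 / 8 / w.factorial by positivity)
  refine ⟨1 / 4 / w.factorial, by positivity, ?_⟩
  filter_upwards [eventually_ge_atTop (w.factorial * (8 * v + 4))] with N hN
  obtain ⟨K, hK⟩ : ∃ K, K = N / w.factorial := ⟨_, rfl⟩
  have h1 : w.factorial * K ≤ N := hK ▸ Nat.mul_div_le N _
  have h2 : N < w.factorial * (K + 1) := hK ▸ Nat.lt_mul_div_succ N hW
  have h3 : ∀ k ∈ range K, 1 + w.factorial * k ≤ N := fun k hk => by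
    have := Nat.mul_le_mul_left w.factorial (Nat.succ_le_of_lt (mem_range.mp hk))
    rw [Nat.mul_succ] at this
    omega
  have h4 := sum_defect hf w K N h3
  have h5 := sum_bb f v N
  have h6 := mul_le_mul_of_nonneg_left (hw (Ioc w N) fun d hd => (mem_Ioc.mp hd).1)
    (Nat.cast_nonneg (α := ℝ) K)
  have h7 := mul_le_mul_of_nonneg_left (hv (Ioc v N) fun d hd => (mem_Ioc.mp hd).1)
    (Nat.cast_nonneg (α := ℝ) N)
  have h8 : ∑ k ∈ range K, ‖(f (1 + w.factorial * k) : ℂ)‖ ^ 2 ≤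
      ∑ n ∈ Icc 1 N, ‖(f n : ℂ)‖ ^ 2 := by
    rw [← sum_image (s := range K) (g := fun k => 1 + w.factorial * k)
      (f := fun n => ‖(f n : ℂ)‖ ^ 2) fun k _ k' _ e =>
        Nat.eq_of_mul_eq_mul_left hW (Nat.add_left_cancel e)]
    refine sum_le_sum_of_subset_of_nonneg (fun n hn => ?_) fun n _ _ => sq_nonneg _
    obtain ⟨k, hk, rfl⟩ := mem_image.mp hn
    exact mem_Icc.mpr ⟨by omega, h3 k hk⟩
  have h9 : (K : ℝ) - 2 * ∑ k ∈ range K, (1 - ‖(f (1 + w.factorial * k) : ℂ)‖) ≤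
      ∑ k ∈ range K, ‖(f (1 + w.factorial * k) : ℂ)‖ ^ 2 := by
    rw [mul_sum, show (K : ℝ) = ∑ _k ∈ range K, (1 : ℝ) by simp, ← sum_sub_distrib]
    exact sum_le_sum fun k _ => by nlinarith [sq_nonneg (‖(f (1 + w.factorial * k) : ℂ)‖ - 1)]
  obtain ⟨M, hM⟩ : ∃ M : ℝ, M = N / w.factorial := ⟨_, rfl⟩
  have h10 : M ≤ K + 1 := by
    rw [hM, div_le_iff₀ hW', mul_comm]
    exact_mod_cast h2.le
  have h11 : 8 * v + 4 ≤ M := by
    rw [hM, le_div_iff₀ hW', mul_comm]
    exact_mod_cast hN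
  have h12 : (N : ℝ) * (1 / 8 / w.factorial) = M / 8 := by rw [hM]; ring
  have h13 : 1 / 4 / w.factorial * (N : ℝ) = M / 4 := by rw [hM]; ring
  rw [h13]
  linarith

end Pool.Agent.P.MP_e30989_nt.W

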