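import Pool.Agent.P.MP_e30989_nt.W.St

/-!
Orthogonality to monomials extends to bounded measurable functions of finitely many coordinates.
-/

open Finset MeasureTheory Filter Topology

namespace Pool.Agent.P.MP_e30989_nt.W

namespace Orth

/-- the projection to the coordinates 1, ..., r -/
def prj (r : ℕ) (x : Sq) : Fin r → Disc := fun i => x ((i : ℕ) + 1)

theorem prj_cont (r : ℕ) : Continuous (prj r) := continuous_pi fun _ => continuous_apply _

/-- the coordinate functions -/
def co {r : ℕ} (i : Fin r) : C(Fin r → Disc, ℂ) :=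
  ⟨fun y => (y i : ℂ), continuous_subtype_val.comp (continuous_apply i)⟩

theorem norm_le (z : Disc) : ‖(z : ℂ)‖ ≤ 1 := mem_closedBall_zero_iff.1 z.2

theorem cont0 : Continuous fun x : Sq => (starRingEnd ℂ) (x 0 : ℂ) :=
  Complex.continuous_conj.comp (continuous_subtype_val.comp (continuous_apply 0))

theorem integ (μ : Measure Sq) [IsProbabilityMeasure μ] {r : ℕ} (Ψ : C(Fin r → Disc, ℂ)) :
    Integrable (fun x : Sq => (starRingEnd ℂ) (x 0 : ℂ) * Ψ (prj r x)) μ :=
  (cont0.mul (Ψ.continuous.comp (prj_cont r))).integrable_of_hasCompactSupport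
    (HasCompactSupport.of_compactSpace _)

/-- the functional -/
noncomputable def lam (μ : Measure Sq) [IsProbabilityMeasure μ] (r : ℕ) :
    C(Fin r → Disc, ℂ) →L[ℂ] ℂ :=
  LinearMap.mkContinuous
    { toFun := fun Ψ => ∫ x, (starRingEnd ℂ) (x 0 : ℂ) * Ψ (prj r x) ∂μ
      map_add' := fun a b => by
        rw [← integral_add (integ μ a) (integ μ b)]
        simp [mul_add]
      map_smul' := fun c a => by
        simp only [ContinuousMap.smul_apply, smul_eq_mul, RingHom.id_apply]
        rw [← integral_const_mul]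
        exact integral_congr_ae (ae_of_all _ fun x => by ring) } 1
    fun Ψ => by
      have := norm_integral_le_of_norm_le_const (μ := μ) (C := ‖Ψ‖)
        (f := fun x : Sq => (starRingEnd ℂ) (x 0 : ℂ) * Ψ (prj r x)) (ae_of_all _ fun x => by
          rw [norm_mul, Complex.norm_conj]
          exact (mul_le_of_le_one_left (norm_nonneg _) (norm_le _)).trans
            (Ψ.norm_coe_le_norm _))
      simpa using this

theorem mono_append (m m' : List (ℕ × Bool)) (x : ℕ → ℂ) :
    mono (m ++ m') x = mono m x * mono m' x := by simp [mono]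

theorem lam_zero (μ : Measure Sq) [IsProbabilityMeasure μ]
    (h : ∀ m : List (ℕ × Bool),
      ∫ x, (starRingEnd ℂ) (x 0 : ℂ) * mono m (fun j => (x (j : ℤ) : ℂ)) ∂μ = 0)
    (r : ℕ) (Ψ : C(Fin r → Disc, ℂ)) : lam μ r Ψ = 0 := by
  let s : Set C(Fin r → Disc, ℂ) := Set.range co
  let A := StarAlgebra.adjoin ℂ s
  have h1 : ∀ f ∈ Submonoid.closure (s ∪ star s), ∃ m : List (ℕ × Bool),
      ∀ x : Sq, f (prj r x) = mono m (fun j => (x (j : ℤ) : ℂ)) := by
    intro f hf
    induction hf using Submonoid.closure_induction with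
    | mem f hf =>
      rcases hf with ⟨i, rfl⟩ | hf
      · exact ⟨[(i, false)], fun x => by simp [mono, co, prj]⟩
      · obtain ⟨i, hi⟩ := Set.mem_star.1 hf
        refine ⟨[(i, true)], fun x => ?_⟩
        have : f = star (co i) := by rw [hi, star_star]
        simp [this, mono, co, prj]
    | one => exact ⟨[], fun x => by simp [mono]⟩
    | mul f g _ _ hf hg =>
      obtain ⟨m, hm⟩ := hf
      obtain ⟨m', hm'⟩ := hg
      exact ⟨m ++ m', fun x => by rw [mono_append, ← hm, ← hm']; rfl⟩
  have h2 : ∀ f ∈ A, lam μ r f = 0 := by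
    intro f hf
    have hf' : f ∈ Submodule.span ℂ
        (Submonoid.closure (s ∪ star s) : Set C(Fin r → Disc, ℂ)) := by
      rw [← Algebra.adjoin_eq_span, ← StarAlgebra.adjoin_toSubalgebra]
      exact hf
    refine (Submodule.span_le (p := LinearMap.ker (lam μ r).toLinearMap)).2 ?_ hf'
    intro g hg
    obtain ⟨m, hm⟩ := h1 g hg
    have : lam μ r g = ∫ x, (starRingEnd ℂ) (x 0 : ℂ) * g (prj r x) ∂μ := rfl
    show lam μ r g = 0
    rw [this]
    simp only [hm]
    exact h m
  have h3 : A.SeparatesPoints := by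
    intro y y' hy
    obtain ⟨i, hi⟩ := Function.ne_iff.1 hy
    exact ⟨co i, ⟨co i, StarAlgebra.subset_adjoin ℂ s ⟨i, rfl⟩, rfl⟩,
      fun e => hi (Subtype.ext e)⟩
  have h4 := ContinuousMap.starSubalgebra_topologicalClosure_eq_top_of_separatesPoints A h3
  have h5 : Ψ ∈ closure (A : Set C(Fin r → Disc, ℂ)) := by
    have : Ψ ∈ A.topologicalClosure := by rw [h4]; trivial
    exact this
  exact closure_minimal (t := {f | lam μ r f = 0}) h2
    (isClosed_eq (lam μ r).continuous continuous_const) h5

end Orth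

open Orth

theorem orth : S_Orth := by
  intro μ _ h r Φ hΦ hb
  have hp : Measurable (prj r) := (prj_cont r).measurable
  have : IsProbabilityMeasure (μ.map (prj r)) := Measure.isProbabilityMeasure_map hp.aemeasurable
  have hI : Integrable Φ (μ.map (prj r)) :=
    Integrable.of_bound hΦ.aestronglyMeasurable 1 (ae_of_all _ hb)
  have hI' : Integrable (fun x : Sq => (starRingEnd ℂ) (x 0 : ℂ) * Φ (prj r x)) μ :=
    Integrable.of_bound (cont0.measurable.mul (hΦ.comp hp)).aestronglyMeasurable 1
      (ae_of_all _ fun x => by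
        rw [norm_mul, Complex.norm_conj]
        exact mul_le_one₀ (norm_le _) (norm_nonneg _) (hb _))
  show ∫ x, (starRingEnd ℂ) (x 0 : ℂ) * Φ (prj r x) ∂μ = 0
  refine norm_le_zero_iff.1 (le_of_forall_pos_le_add fun ε hε => ?_)
  obtain ⟨g, hg, hgI⟩ := hI.exists_boundedContinuous_integral_sub_le hε
  have h0 : ∫ x, (starRingEnd ℂ) (x 0 : ℂ) * g.toContinuousMap (prj r x) ∂μ = 0 :=
    lam_zero μ h r g.toContinuousMap
  have h1 := integral_sub hI' (integ μ g.toContinuousMap)
  rw [h0, sub_zero] at h1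
  rw [← h1, zero_add]
  have hN : Integrable (fun y => ‖Φ y - g y‖) (μ.map (prj r)) := (hI.sub hgI).norm
  rw [integral_map hp.aemeasurable hN.aestronglyMeasurable] at hg
  refine (norm_integral_le_of_norm_le (hN.comp_measurable hp)
    (ae_of_all _ fun x => ?_)).trans hg
  rw [← mul_sub, norm_mul, Complex.norm_conj]
  exact mul_le_of_le_one_left (norm_nonneg _) (norm_le _)

end Pool.Agent.P.MP_e30989_nt.W
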