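import Pool.Agent.P.MP_e30989_nt.W.St

/-! Zero entropy: the present is predicted by the future. -/

open Finset MeasureTheory Filter Topology

namespace Pool.Agent.P.MP_e30989_nt.W

namespace Pred

/-- a finite measurable partition of the disc into small pieces -/
theorem exists_part (δ : ℝ) (hδ : 0 < δ) :
    ∃ (m : ℕ) (κ : Disc → Fin m) (z : Fin m → Disc), Measurable κ ∧
      ∀ y : Disc, ‖(y : ℂ) - (z (κ y) : ℂ)‖ ≤ δ := by
  classical
  obtain ⟨t, -, ht, hc⟩ :=
    finite_cover_balls_of_compact (isCompact_univ : IsCompact (Set.univ : Set Disc)) hδ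
  let e := ht.toFinset.equivFin
  let z : Fin ht.toFinset.card → Disc := fun a => (e.symm a : Disc)
  have hex : ∀ y : Disc, ∃ n : ℕ, ∃ h : n < ht.toFinset.card, dist y (z ⟨n, h⟩) < δ := by
    intro y
    have hy := hc (Set.mem_univ y)
    simp only [Set.mem_iUnion] at hy
    obtain ⟨x, hx, hyx⟩ := hy
    have hx' : x ∈ ht.toFinset := by simpa using hx
    refine ⟨(e ⟨x, hx'⟩ : ℕ), (e ⟨x, hx'⟩).2, ?_⟩
    simpa [z] using hyx
  have hm : Measurable fun y : Disc => Nat.find (hex y) := by
    refine measurable_find hex ?_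
    intro k
    by_cases hk : k < ht.toFinset.card
    · have : {y : Disc | ∃ h : k < ht.toFinset.card, dist y (z ⟨k, h⟩) < δ} =
          Metric.ball (z ⟨k, hk⟩) δ := by
        ext y
        simp [hk]
      rw [this]
      exact Metric.isOpen_ball.measurableSet
    · have : {y : Disc | ∃ h : k < ht.toFinset.card, dist y (z ⟨k, h⟩) < δ} = ∅ := by
        ext y
        simp [hk]
      rw [this]
      exact MeasurableSet.empty
  refine ⟨ht.toFinset.card, fun y => ⟨Nat.find (hex y), (Nat.find_spec (hex y)).1⟩, z, ?_, ?_⟩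
  · refine measurable_to_countable' ?_
    intro a
    have : (fun y : Disc => (⟨Nat.find (hex y), (Nat.find_spec (hex y)).1⟩ :
        Fin ht.toFinset.card)) ⁻¹' {a} = (fun y : Disc => Nat.find (hex y)) ⁻¹' {(a : ℕ)} := by
      ext y
      simp [Fin.ext_iff]
    rw [this]
    exact hm (measurableSet_singleton _)
  · intro y
    have h := (Nat.find_spec (hex y)).2
    rw [Subtype.dist_eq, dist_eq_norm] at h
    exact h.le

/-- the conditional entropy bounds the error of the best guess -/
theorem ent_guess {A : Type*} [Fintype A] (q : A → ℝ) (hq : ∀ a, 0 ≤ q a) (b : A)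
    (hb : ∀ a, q a ≤ q b) :
    (∑ a, q a) - q b ≤ (∑ a, Real.negMulLog (q a)) - Real.negMulLog (∑ a, q a) := by
  set s := ∑ a, q a with hs
  rcases (hq b).eq_or_lt with h0 | hpos
  · have hz : ∀ a, q a = 0 := fun a => le_antisymm (h0 ▸ hb a) (hq a)
    simp [hs, hz]
  · have hbs : q b ≤ s := single_le_sum (fun a _ => hq a) (mem_univ b)
    have hspos : 0 < s := lt_of_lt_of_le hpos hbs
    have key : ∀ a, q a * (1 - q b / s) ≤ Real.negMulLog (q a) + q a * Real.log s := by
      intro a
      rcases (hq a).eq_or_lt with h | h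
      · rw [← h]; simp
      · have h1 : Real.log (q a) ≤ Real.log (q b) := Real.log_le_log h (hb a)
        have h2 : Real.log (q b / s) ≤ q b / s - 1 :=
          Real.log_le_sub_one_of_pos (div_pos hpos hspos)
        rw [Real.log_div hpos.ne' hspos.ne'] at h2
        have h3 : 1 - q b / s ≤ Real.log s - Real.log (q a) := by linarith
        have h4 := mul_le_mul_of_nonneg_left h3 h.le
        simp only [Real.negMulLog]
        linarith
    have h5 := sum_le_sum fun a (_ : a ∈ univ) => key a
    rw [← sum_mul, sum_add_distrib, ← sum_mul, ← hs] at h5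
    have h6 : s * (1 - q b / s) = s - q b := by field_simp
    rw [h6] at h5
    simp only [Real.negMulLog] at h5 ⊢
    linarith

/-- a sublinear sequence has a small increment -/
theorem small_incr (H : ℕ → ℝ) (h0 : 0 ≤ H 0)
    (h : Tendsto (fun r : ℕ => H r / (r : ℝ)) atTop (𝓝 0)) (η : ℝ) (hη : 0 < η) :
    ∃ r, H (r + 1) - H r ≤ η := by
  by_contra hc
  push Not at hc
  have h1 : ∀ r : ℕ, η * r ≤ H r := by
    intro r
    induction r with
    | zero => simpa using h0
    | succ r ih =>
      have := hc r
      push_cast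
      linarith
  have h2 := (h.eventually (gt_mem_nhds hη)).and (eventually_gt_atTop 0)
  obtain ⟨r, hr, hr0⟩ := h2.exists
  have hr' : (0 : ℝ) < r := by exact_mod_cast hr0
  rw [div_lt_iff₀ hr'] at hr
  linarith [h1 r]

theorem split {X A : Type*} [MeasurableSpace X] [Fintype A] [MeasurableSpace A]
    [MeasurableSingletonClass A] (μ : Measure X) [IsFiniteMeasure μ] (F : X → A)
    (hF : Measurable F) (S : Set X) (hS : MeasurableSet S) :
    μ.real S = ∑ a, μ.real (S ∩ F ⁻¹' {a}) := by
  rw [← measureReal_iUnion_fintype]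
  · congr 1
    ext x
    simp
  · intro a b hab
    refine Set.disjoint_left.2 ?_
    rintro x ⟨-, hx⟩ ⟨-, hx'⟩
    exact hab (hx.symm.trans hx')
  · intro a
    exact hS.inter (hF (measurableSet_singleton a))

theorem shift_iter (n : ℕ) (x : Sq) (k : ℤ) : shift^[n] x k = x (k + n) := by
  induction n generalizing x k with
  | zero => simp
  | succ n ih =>
    rw [Function.iterate_succ_apply, ih]
    simp only [shift]
    congr 1
    push_cast
    ring

/-- the guess of the present cell from the cells of the future is wrong with small probability -/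
theorem guess (μ : Measure Sq) [IsProbabilityMeasure μ] (hT : MeasurePreserving shift μ μ)
    {m : ℕ} [Nonempty (Fin m)] (P : Sq → Fin m) (hP : Measurable P) (r : ℕ) :
    ∃ g : (Fin r → Fin m) → Fin m,
      μ.real {x | P x ≠ g (fun i => P (shift^[(i : ℕ) + 1] x))} ≤
        blockH μ P (r + 1) - blockH μ P r := by
  classical
  let W : Sq → (Fin r → Fin m) := fun x i => P (shift^[(i : ℕ) + 1] x)
  have hW : Measurable W :=
    measurable_pi_lambda _ fun i => hP.comp (hT.measurable.iterate _)
  let q : (Fin r → Fin m) → Fin m → ℝ := fun a b => μ.real (W ⁻¹' {a} ∩ P ⁻¹' {b})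
  have hq : ∀ a b, 0 ≤ q a b := fun a b => measureReal_nonneg
  choose g hg using fun a => Finite.exists_max (q a)
  refine ⟨g, ?_⟩
  have hs : ∀ a, μ.real (W ⁻¹' {a}) = ∑ b, q a b := fun a =>
    split μ P hP _ (hW (measurableSet_singleton a))
  have h1 : blockH μ P r = ∑ a, Real.negMulLog (∑ b, q a b) := by
    unfold blockH
    refine sum_congr rfl fun a _ => ?_
    rw [← hs a]
    congr 1
    have hm : MeasurableSet {x | ∀ i : Fin r, P (shift^[i] x) = a i} := by
      have : {x | ∀ i : Fin r, P (shift^[i] x) = a i} =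
          (fun x (i : Fin r) => P (shift^[i] x)) ⁻¹' {a} := by
        ext x
        simp [funext_iff]
      rw [this]
      exact (measurable_pi_lambda _ fun i => hP.comp (hT.measurable.iterate _))
        (measurableSet_singleton a)
    rw [← hT.measureReal_preimage hm.nullMeasurableSet]
    congr 1
    ext x
    simp [W, funext_iff]
  have h2 : blockH μ P (r + 1) = ∑ a, ∑ b, Real.negMulLog (q a b) := by
    unfold blockH
    rw [sum_comm, ← Fintype.sum_prod_type',
      ← (Fin.consEquiv fun _ : Fin (r + 1) => Fin m).sum_comp]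
    refine sum_congr rfl fun c _ => ?_
    congr 2
    ext x
    simp [W, funext_iff, Fin.forall_fin_succ, Fin.consEquiv, and_comm]
  have hB : MeasurableSet {x | P x ≠ g (W x)} := by
    have : Measurable fun x => (P x, g (W x)) :=
      hP.prodMk ((measurable_of_countable g).comp hW)
    exact this (Set.to_countable {c : Fin m × Fin m | c.1 ≠ c.2}).measurableSet
  have h3 : μ.real {x | P x ≠ g (W x)} = ∑ a, ((∑ b, q a b) - q a (g a)) := by
    rw [split μ W hW _ hB]
    refine sum_congr rfl fun a _ => ?_
    rw [← hs a]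
    have := measureReal_inter_add_sdiff (μ := μ) (s := W ⁻¹' {a})
      (hP (measurableSet_singleton (g a)))
    have e : {x | P x ≠ g (W x)} ∩ W ⁻¹' {a} = W ⁻¹' {a} \ P ⁻¹' {g a} := by
      ext x
      simp only [Set.mem_inter_iff, Set.mem_ofPred_eq, Set.mem_preimage, Set.mem_singleton_iff,
        Set.mem_sdiff]
      constructor
      · rintro ⟨h, h'⟩
        exact ⟨h', h' ▸ h⟩
      · rintro ⟨h, h'⟩
        exact ⟨h ▸ h', h⟩
    rw [e]
    simp only [q]
    linarith
  show μ.real {x | P x ≠ g (W x)} ≤ _
  rw [h3, h1, h2, ← sum_sub_distrib]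
  exact sum_le_sum fun a _ => ent_guess (q a) (hq a) (g a) (hg a)

end Pred

theorem pred : S_Pred := by
  classical
  intro μ hμ hT hZ ε hε
  obtain ⟨m, κ, z, hκ, hz⟩ := Pred.exists_part (ε / 2) (by positivity)
  have : Nonempty (Fin m) := ⟨κ ⟨0, Metric.mem_closedBall_self zero_le_one⟩⟩
  let P : Sq → Fin m := fun x => κ (x 0)
  have hP : Measurable P := hκ.comp (measurable_pi_apply 0)
  have h0 : 0 ≤ blockH μ P 0 :=
    sum_nonneg fun a _ => Real.negMulLog_nonneg measureReal_nonneg measureReal_le_one
  obtain ⟨r, hr⟩ := Pred.small_incr (blockH μ P) h0 (hZ m P hP) (ε / 4) (by positivity)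
  obtain ⟨g, hg⟩ := Pred.guess μ hT P hP r
  have hn : ∀ y : Disc, ‖(y : ℂ)‖ ≤ 1 := fun y => mem_closedBall_zero_iff.1 y.2
  refine ⟨r, fun y => (z (g fun i => κ (y i)) : ℂ), ?_, fun y => hn _, ?_⟩
  · exact (measurable_of_countable fun a : Fin r → Fin m => (z (g a) : ℂ)).comp
      (measurable_pi_lambda _ fun i => hκ.comp (measurable_pi_apply i))
  · set B := {x | P x ≠ g (fun i => P (shift^[(i : ℕ) + 1] x))} with hBdef
    have hB : MeasurableSet B := by
      have hW : Measurable fun (x : Sq) (i : Fin r) => P (shift^[(i : ℕ) + 1] x) :=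
        measurable_pi_lambda _ fun i => hP.comp (hT.measurable.iterate _)
      have : Measurable fun x => (P x, g (fun i : Fin r => P (shift^[(i : ℕ) + 1] x))) :=
        hP.prodMk ((measurable_of_countable g).comp hW)
      exact this (Set.to_countable {c : Fin m × Fin m | c.1 ≠ c.2}).measurableSet
    have hint : Integrable (fun x : Sq => ε / 2 + B.indicator (fun _ => (2 : ℝ)) x) μ :=
      (integrable_const _).add ((integrable_const _).indicator hB)
    have hle : ∀ x : Sq, ‖(x 0 : ℂ) - (z (g fun i : Fin r => κ (x ((i : ℕ) + 1))) : ℂ)‖ ≤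
        ε / 2 + B.indicator (fun _ => (2 : ℝ)) x := by
      intro x
      by_cases hx : x ∈ B
      · rw [Set.indicator_of_mem hx]
        have := norm_sub_le (x 0 : ℂ) (z (g fun i : Fin r => κ (x ((i : ℕ) + 1))) : ℂ)
        have h1 := hn (x 0)
        have h2 := hn (z (g fun i : Fin r => κ (x ((i : ℕ) + 1))))
        linarith
      · rw [Set.indicator_of_notMem hx, add_zero]
        have h1 : P x = g (fun i => P (shift^[(i : ℕ) + 1] x)) := by
          by_contra h
          exact hx h
        have h2 : (fun i : Fin r => P (shift^[(i : ℕ) + 1] x)) =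
            fun i : Fin r => κ (x ((i : ℕ) + 1)) := by
          funext i
          simp only [P, Pred.shift_iter]
          congr 2
          push_cast
          ring
        rw [h2] at h1
        rw [← h1]
        exact hz (x 0)
    calc _ ≤ ∫ x, (ε / 2 + B.indicator (fun _ => (2 : ℝ)) x) ∂μ :=
          integral_mono_of_nonneg (Eventually.of_forall fun x => norm_nonneg _) hint
            (Eventually.of_forall hle)
      _ = ε / 2 + 2 * μ.real B := by
          rw [integral_add (integrable_const _) ((integrable_const _).indicator hB),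
            integral_indicator_const _ hB]
          simp [mul_comm]
      _ ≤ ε := by linarith

end Pool.Agent.P.MP_e30989_nt.W
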