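import Pool.Agent.P.MP_e30989_nt.W.St

/-!
Repulsion for Dirichlet characters.
-/

open Finset Filter

namespace Pool.Agent.P.MP_e30989_nt.W

open Pool.Agent.P.MP_a14ce1_nt.Ch

namespace RepP

variable {b : ℕ} [NeZero b]

omit [NeZero b] in
theorem cm (ψ : DirichletCharacter ℂ b) : CM (tw (fun _ => 1) ψ) := by
  constructor
  · intro m n _ _
    simp [tw]
  · intro n
    simpa [tw] using ψ.norm_le_one _

omit [NeZero b] in
theorem dd_ge (ψ : DirichletCharacter ℂ b) (τ y : ℝ) (z : ℕ) :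
    rs (pr z y) - ‖∑ p ∈ (Ioc z ⌊y⌋₊).filter Nat.Prime, lc ψ p / p * nit τ p‖ ≤
      dd (tw (fun _ => 1) ψ) τ y := by
  have h1 : ∑ p ∈ pr z y, (1 - (tw (fun _ => 1) ψ p * nit τ p).re) / p ≤
      dd (tw (fun _ => 1) ψ) τ y := by
    refine sum_le_sum_of_subset_of_nonneg (filter_subset_filter _ (Ioc_subset_Ioc_left (by simp)))
      fun p _ _ => div_nonneg (sub_nonneg.2 ((Complex.re_le_norm _).trans ?_)) (Nat.cast_nonneg _)
    rw [norm_mul, norm_nit, mul_one]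
    exact (cm ψ).bd p
  refine le_trans ?_ h1
  have h2 : ∑ p ∈ pr z y, (1 - (tw (fun _ => 1) ψ p * nit τ p).re) / p =
      rs (pr z y) + (∑ p ∈ pr z y, lc ψ p / p * nit τ p).re := by
    rw [rs, Complex.re_sum, ← sum_add_distrib]
    refine sum_congr rfl fun p hp => ?_
    have : lc ψ p / p * nit τ p = -(tw (fun _ => 1) ψ p * nit τ p) / ((p : ℝ) : ℂ) := by
      rw [lc, lam_prime (mem_filter.1 hp).2, tw]
      push_cast
      ring
    rw [this, Complex.div_ofReal_re, Complex.neg_re]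
    ring
  have h3 : pr z y = (Ioc z ⌊y⌋₊).filter Nat.Prime := by rw [pr, Nat.floor_natCast]
  have h4 := (abs_le.1 (Complex.abs_re_le_norm (∑ p ∈ pr z y, lc ψ p / p * nit τ p))).1
  rw [h2, ← h3]
  linarith

theorem far (h1 : S_M1) (hH : S_H1) (ψ : DirichletCharacter ℂ b) (K : ℝ) (k : ℕ) :
    ∀ᶠ y : ℝ in atTop, ∀ τ : ℝ, 1 ≤ |τ| → |τ| ≤ y ^ k → K < dd (tw (fun _ => 1) ψ) τ y := by
  obtain ⟨C, _, hC⟩ := h1
  obtain ⟨C1, _, hC1⟩ := hH b ψ
  obtain ⟨m, hm⟩ := exists_nat_gt (Real.exp (K + C + C1))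
  have m0 : (0 : ℝ) < m := (Real.exp_pos _).trans hm
  have m1 : m ≠ 0 := by exact_mod_cast m0.ne'
  obtain ⟨y0, hy0⟩ := hC1 (2 * m * k)
  have ht := tendsto_nat_floor_atTop.comp (tendsto_rpow_atTop (inv_pos.2 m0))
  filter_upwards [ht.eventually_ge_atTop y0, ht.eventually_ge_atTop 2, eventually_ge_atTop 1]
    with y a1 a2 a3 τ t1 t2
  simp only [Function.comp] at a1 a2
  set z := ⌊y ^ (m : ℝ)⁻¹⌋₊ with hz
  have y0' : 0 ≤ y := by linarith
  have z2 : (2 : ℝ) ≤ z := by exact_mod_cast a2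
  have e1 : (z : ℝ) ^ m ≤ y := by
    rw [← Real.rpow_inv_natCast_pow y0' m1]
    exact pow_le_pow_left₀ (Nat.cast_nonneg _) (Nat.floor_le (Real.rpow_nonneg y0' _)) _
  have e2 : y ≤ (z : ℝ) ^ (2 * m) := by
    rw [← Real.rpow_inv_natCast_pow y0' m1, pow_mul]
    refine pow_le_pow_left₀ (Real.rpow_nonneg y0' _) ((Nat.lt_floor_add_one _).le.trans ?_) _
    rw [← hz]
    nlinarith
  have e3 : (z : ℝ) ≤ y := (le_self_pow₀ (by linarith) m1).trans e1
  have e4 := hy0 z ⌊y⌋₊ a1 (Nat.le_floor e3) τ t1 (t2.trans (by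
    rw [pow_mul]
    exact pow_le_pow_left₀ y0' e2 _))
  have e5 := (abs_le.1 (hC z y z2 e3)).1
  have lz : 0 < Real.log z := Real.log_pos (by linarith)
  have e6 : (m : ℝ) ≤ Real.log y / Real.log z := by
    rw [le_div_iff₀ lz, ← Real.log_pow]
    exact Real.log_le_log (by positivity) e1
  have e7 : K + C + C1 < Real.log (Real.log y / Real.log z) :=
    (Real.lt_log_iff_exp_lt (m0.trans_le e6)).2 (hm.trans_le e6)
  have e8 := dd_ge ψ τ y z
  linarith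

theorem log_ge {y : ℝ} (hy : 3 ≤ y) : 1 ≤ Real.log y := by
  rw [Real.le_log_iff_exp_le (by linarith)]
  exact Real.exp_one_lt_d9.le.trans (by linarith)

theorem LL_eq (ψ : DirichletCharacter ℂ b) {y : ℝ} (hy : 3 ≤ y) {τ : ℝ} (hτ : |τ| ≤ 1) :
    ∃ s : ℂ, s ∈ Metric.closedBall (0 : ℂ) 3 ∧ s ≠ 1 ∧ |τ| ≤ ‖s - 1‖ ∧
      LL (tw (fun _ => 1) ψ) y τ = ψ.LFunction s := by
  have l1 := log_ge hy
  have l2 : 0 < 1 / Real.log y := by positivity
  have l3 : 1 / Real.log y ≤ 1 := by rw [div_le_one (by linarith)]; exact l1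
  have hre : 1 < (((1 + 1 / Real.log y : ℝ) : ℂ) + τ * Complex.I).re := by
    simpa using l2
  refine ⟨((1 + 1 / Real.log y : ℝ) : ℂ) + τ * Complex.I, ?_, fun h => ?_, ?_, ?_⟩
  · rw [mem_closedBall_zero_iff]
    refine (norm_add_le _ _).trans ?_
    rw [norm_mul, Complex.norm_I, Complex.norm_real, Complex.norm_real, Real.norm_eq_abs,
      Real.norm_eq_abs, abs_of_pos (by linarith)]
    linarith
  · rw [h] at hre
    simp at hre
  · refine le_trans (le_of_eq ?_) (Complex.abs_im_le_norm _)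
    simp
  · rw [DirichletCharacter.LFunction_eq_LSeries ψ hre, LL]
    congr 1
    funext n
    simp [tw]

theorem low (hL : S_EulerLow) : ∃ C : ℝ, 0 < C ∧ ∀ (b : ℕ) (ψ : DirichletCharacter ℂ b)
    (K y τ : ℝ), 3 ≤ y → dd (tw (fun _ => 1) ψ) τ y ≤ K →
      Real.log y ≤ C * Real.exp K * ‖LL (tw (fun _ => 1) ψ) y τ‖ := by
  obtain ⟨C, C0, hC⟩ := hL
  refine ⟨C, C0, fun b ψ K y τ hy hK => ?_⟩
  have h1 := hC _ (cm ψ) (by simp [tw]) y τ hy
  have h2 : Real.log y * Real.exp (-K) ≤ C * ‖LL (tw (fun _ => 1) ψ) y τ‖ :=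
    (mul_le_mul_of_nonneg_left (Real.exp_le_exp.2 (neg_le_neg hK))
      (by linarith [log_ge hy])).trans h1
  rw [Real.exp_neg, ← div_eq_mul_inv, div_le_iff₀ (Real.exp_pos K)] at h2
  linarith

theorem near (hL : S_EulerLow) (ψ : DirichletCharacter ℂ b) (K : ℝ) :
    ∀ᶠ y : ℝ in atTop, ∀ τ : ℝ, |τ| ≤ 1 → dd (tw (fun _ => 1) ψ) τ y ≤ K → ψ = 1 := by
  by_cases hψ : ψ = 1
  · exact Eventually.of_forall fun _ _ _ _ => hψ
  obtain ⟨C, C0, hC⟩ := low hL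
  obtain ⟨B, hB⟩ := (isCompact_closedBall (0 : ℂ) 3).exists_bound_of_continuousOn
    (DirichletCharacter.differentiable_LFunction hψ).continuous.continuousOn
  filter_upwards [eventually_ge_atTop 3,
    Real.tendsto_log_atTop.eventually_gt_atTop (C * Real.exp K * B)] with y a1 a2 τ t1 t2
  obtain ⟨s, s1, _, _, s2⟩ := LL_eq ψ a1 t1
  have h1 := hC b ψ K y τ a1 t2
  rw [s2] at h1
  exact absurd (h1.trans (mul_le_mul_of_nonneg_left (hB s s1) (by positivity))) (not_le.2 a2)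

theorem triv (hL : S_EulerLow) (b : ℕ) [NeZero b] (K : ℝ) : ∃ c : ℝ, ∀ y τ : ℝ, 3 ≤ y → |τ| ≤ 1 →
    dd (tw (fun _ => 1) (1 : DirichletCharacter ℂ b)) τ y ≤ K → |τ| ≤ c / Real.log y := by
  obtain ⟨C, C0, hC⟩ := low hL
  obtain ⟨B, hB⟩ := (isCompact_closedBall (0 : ℂ) 3).exists_bound_of_continuousOn
    (DirichletCharacter.differentiable_LFunctionTrivChar₁ b).continuous.continuousOn
  refine ⟨C * Real.exp K * B, fun y τ a1 t1 t2 => ?_⟩
  obtain ⟨s, s1, s2, s3, s4⟩ := LL_eq (1 : DirichletCharacter ℂ b) a1 t1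
  have h1 := hC b 1 K y τ a1 t2
  have h2 := hB s s1
  rw [DirichletCharacter.LFunctionTrivChar₁, Function.update_of_ne s2, norm_mul] at h2
  rw [s4] at h1
  rw [le_div_iff₀ (by linarith [log_ge a1])]
  calc |τ| * Real.log y
      ≤ ‖s - 1‖ * (C * Real.exp K * ‖(1 : DirichletCharacter ℂ b).LFunction s‖) :=
        mul_le_mul s3 h1 (by linarith [log_ge a1]) (norm_nonneg _)
    _ = C * Real.exp K * (‖s - 1‖ * ‖(1 : DirichletCharacter ℂ b).LFunction s‖) := by ring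
    _ ≤ _ := mul_le_mul_of_nonneg_left h2 (by positivity)

end RepP

open RepP in
theorem rep (h1 : S_M1) (hH : S_H1) (hL : S_EulerLow) : S_Rep := by
  intro b hb K k
  have : NeZero b := ⟨hb.ne'⟩
  obtain ⟨c, hc⟩ := triv hL b K
  obtain ⟨y0, hy0⟩ := eventually_atTop.1 ((eventually_all.2 fun ψ : DirichletCharacter ℂ b =>
    (far h1 hH ψ K k).and (near hL ψ K)).and (eventually_ge_atTop 3))
  refine ⟨c, y0, fun y hy ψ τ t1 t2 => ?_⟩
  obtain ⟨a1, a2⟩ := hy0 y hy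
  have t3 : |τ| ≤ 1 := by
    by_contra h
    exact absurd t2 (not_le.2 ((a1 ψ).1 τ (not_le.1 h).le t1))
  obtain rfl := (a1 ψ).2 τ t3 t2
  exact ⟨rfl, hc y τ a2 t3 t2⟩

end Pool.Agent.P.MP_e30989_nt.W
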