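import Pool.Agent.P.MP_e30989_nt.W.St

/-!
A function that is not pretentious is strongly non-pretentious along suitable scales.
-/

open Finset Filter Topology

namespace Pool.Agent.P.MP_e30989_nt.W

open Pool.Agent.P.MP_a14ce1_nt.Ch

namespace Scale

theorem norm_tw {f : ℕ → ℂ} (hf : UCM f) {b : ℕ} (χ : DirichletCharacter ℂ b) (n : ℕ) :
    ‖tw f χ n‖ ≤ 1 := by
  rw [tw, norm_mul]
  exact mul_le_one₀ (hf.1.bd n) (norm_nonneg _) (χ.norm_le_one _)

theorem norm_term {F : ℕ → ℂ} (hF : ∀ n, ‖F n‖ ≤ 1) (t : ℝ) (p : ℕ) : ‖F p * nit t p‖ ≤ 1 := by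
  rw [norm_mul, norm_nit, mul_one]
  exact hF p

theorem dd_mono {F : ℕ → ℂ} (hF : ∀ n, ‖F n‖ ≤ 1) (t : ℝ) {y z : ℝ} (h : y ≤ z) :
    dd F t y ≤ dd F t z :=
  sum_le_sum_of_subset_of_nonneg (filter_subset_filter _ (Ioc_subset_Ioc_right (Nat.floor_mono h)))
    fun p _ _ => div_nonneg (sub_nonneg.2 ((Complex.re_le_norm _).trans (norm_term hF t p)))
      (Nat.cast_nonneg _)

theorem dd_lift {f : ℕ → ℂ} (hf : UCM f) {b M : ℕ} (hM : M ≠ 0) (h : b ∣ M)
    (χ : DirichletCharacter ℂ b) (t y : ℝ) :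
    dd (tw f (DirichletCharacter.changeLevel h χ)) t y ≤ dd (tw f χ) t y + 2 * M := by
  have h1 : ∑ p ∈ pr 0 y, (if p ∣ M then (2 : ℝ) else 0) ≤ 2 * M := by
    rw [← sum_filter, sum_const, nsmul_eq_mul, mul_comm]
    have : ((pr 0 y).filter (· ∣ M)).card ≤ (Icc 1 M).card := card_le_card fun p hp =>
      mem_Icc.2 ⟨Nat.pos_of_dvd_of_pos (mem_filter.1 hp).2 (Nat.pos_of_ne_zero hM),
        Nat.le_of_dvd (Nat.pos_of_ne_zero hM) (mem_filter.1 hp).2⟩
    rw [Nat.card_Icc, Nat.add_sub_cancel] at this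
    exact mul_le_mul_of_nonneg_left (by exact_mod_cast this) (by norm_num)
  refine le_trans ?_ (add_le_add_right h1 _)
  rw [dd, dd, ← sum_add_distrib]
  refine sum_le_sum fun p hp => ?_
  have hp' := (mem_filter.1 hp).2
  split_ifs with hd
  · have a1 := (abs_le.1 ((Complex.abs_re_le_norm _).trans
      (norm_term (norm_tw hf (DirichletCharacter.changeLevel h χ)) t p))).1
    have a2 := (Complex.re_le_norm _).trans (norm_term (norm_tw hf χ) t p)
    have a3 : (1 : ℝ) ≤ p := by exact_mod_cast hp'.one_le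
    have a4 : 0 ≤ (1 - (tw f χ p * nit t p).re) / p := div_nonneg (by linarith) (by linarith)
    have a5 : (1 - (tw f (DirichletCharacter.changeLevel h χ) p * nit t p).re) / p ≤ 2 := by
      rw [div_le_iff₀ (by linarith)]
      linarith
    linarith
  · have := DirichletCharacter.changeLevel_eq_cast_of_dvd' χ h (a := p)
      (Nat.isCoprime_iff_coprime.2 ((Nat.Prime.coprime_iff_not_dvd hp').2 hd))
    simp only [Int.cast_natCast] at this
    simp only [tw, this, add_zero, le_refl]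

theorem tri {u v : ℂ} (hu : ‖u‖ ≤ 1) (hv : ‖v‖ ≤ 1) :
    1 - (u * (starRingEnd ℂ) v).re ≤ 2 * (1 - u.re) + 2 * (1 - v.re) := by
  have a1 : u.re ^ 2 + u.im ^ 2 ≤ 1 := by
    have := pow_le_one₀ (norm_nonneg u) hu (n := 2)
    rw [Complex.sq_norm, Complex.normSq_apply] at this
    nlinarith
  have a2 : v.re ^ 2 + v.im ^ 2 ≤ 1 := by
    have := pow_le_one₀ (norm_nonneg v) hv (n := 2)
    rw [Complex.sq_norm, Complex.normSq_apply] at this
    nlinarith
  have a3 : u.re ≤ 1 := (Complex.re_le_norm _).trans hu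
  have a4 : v.re ≤ 1 := (Complex.re_le_norm _).trans hv
  simp only [Complex.mul_re, Complex.conj_re, Complex.conj_im]
  nlinarith [mul_nonneg (sub_nonneg.2 a3) (sub_nonneg.2 a4), sq_nonneg (u.im + v.im),
    sq_nonneg (1 - u.re), sq_nonneg (1 - v.re)]

theorem dd_tri {f : ℕ → ℂ} (hf : UCM f) {M : ℕ} [NeZero M] (χ ψ : DirichletCharacter ℂ M)
    (t s y : ℝ) :
    dd (tw (fun _ => 1) (χ * ψ⁻¹)) (t - s) y ≤ 2 * dd (tw f χ) t y + 2 * dd (tw f ψ) s y := by
  rw [dd, dd, dd, mul_sum, mul_sum, ← sum_add_distrib]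
  refine sum_le_sum fun p hp => ?_
  have hp' := (mem_filter.1 hp).2
  have a0 : f p * (starRingEnd ℂ) (f p) = 1 := by
    rw [Complex.mul_conj, Complex.normSq_eq_norm_sq, hf.2 p hp'.ne_zero]
    simp
  have a1 : (starRingEnd ℂ) (nit s p) = nit (-s) p := by
    rw [nit, conj_ex, nit, neg_mul]
  have a2 : tw (fun _ => 1) (χ * ψ⁻¹) p * nit (t - s) p =
      (tw f χ p * nit t p) * (starRingEnd ℂ) (tw f ψ p * nit s p) := by
    rw [tw, tw, tw, MulChar.mul_apply, ← MulChar.star_apply', sub_eq_add_neg, nit_add, map_mul,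
      map_mul, a1, RCLike.star_def]
    linear_combination (-(χ p * (starRingEnd ℂ) (ψ p) * nit t p * nit (-s) p)) * a0
  rw [a2, ← mul_div_assoc, ← mul_div_assoc, ← add_div]
  exact div_le_div_of_nonneg_right
    (tri (norm_term (norm_tw hf χ) t p) (norm_term (norm_tw hf ψ) s p)) (Nat.cast_nonneg _)

theorem dd_shift {F : ℕ → ℂ} (hF : ∀ n, ‖F n‖ ≤ 1) (t s y : ℝ) :
    dd F t y ≤ dd F s y + |s - t| * ∑ p ∈ pr 0 y, Real.log p / p := by
  rw [dd, dd, mul_sum, ← sum_add_distrib]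
  refine sum_le_sum fun p _ => ?_
  rw [← mul_div_assoc, ← add_div]
  refine div_le_div_of_nonneg_right ?_ (Nat.cast_nonneg _)
  have a1 : F p * nit s p - F p * nit t p = F p * nit t p * (nit (s - t) p - 1) := by
    rw [mul_sub, mul_assoc, ← nit_add, add_sub_cancel, mul_one]
  have a2 : ‖nit (s - t) p - 1‖ ≤ |s - t| * Real.log p := by
    have h := Real.norm_exp_I_mul_ofReal_sub_one_le (x := -((s - t) * Real.log p))
    rw [mul_comm, Real.norm_eq_abs, abs_neg, abs_mul,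
      abs_of_nonneg (Real.log_natCast_nonneg p)] at h
    exact h
  have a3 := Complex.re_le_norm (F p * nit s p - F p * nit t p)
  rw [Complex.sub_re, a1, norm_mul] at a3
  have a4 := mul_le_mul (norm_term hF t p) a2 (norm_nonneg _) zero_le_one
  linarith

theorem pret (hR : S_Rep) (h2 : S_M2) {f : ℕ → ℂ} (hf : UCM f) {M : ℕ} (hM : 0 < M) (K : ℝ)
    (k Z0 : ℕ) (h : ∀ Z : ℕ, Z0 ≤ Z → ∃ (χ : DirichletCharacter ℂ M) (t : ℝ),
      |t| ≤ (Z : ℝ) ^ k ∧ dd (tw f χ) t Z ≤ K) : Pret' f := by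
  have : NeZero M := ⟨hM.ne'⟩
  obtain ⟨c, y0, hc⟩ := hR M hM (4 * K) (2 * k + 1)
  obtain ⟨C, hC0, hC⟩ := h2
  obtain ⟨A, hA⟩ := exists_nat_ge (max y0 (max (Z0 : ℝ) 3))
  simp only [max_le_iff] at hA
  obtain ⟨A1, A2, A3⟩ := hA
  have hZ : ∀ m : ℕ, (A : ℝ) ≤ ((A ^ 2 ^ m : ℕ) : ℝ) := fun m => by
    exact_mod_cast Nat.le_self_pow (by positivity) A
  choose χ t ht hd using fun m : ℕ => h (A ^ 2 ^ m) (by exact_mod_cast A2.trans (hZ m))
  have lA : 1 ≤ Real.log A := by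
    rw [Real.le_log_iff_exp_le (by linarith)]
    exact (Real.exp_one_lt_three).le.trans A3
  have hL : ∀ m : ℕ, Real.log ((A ^ 2 ^ m : ℕ) : ℝ) = 2 ^ m * Real.log A := fun m => by
    push_cast
    rw [Real.log_pow]
    push_cast
    ring
  have key : ∀ m, χ m = χ (m + 1) ∧ |t m - t (m + 1)| ≤ c / (2 ^ m * Real.log A) := fun m => by
    have e : ((A ^ 2 ^ (m + 1) : ℕ) : ℝ) = ((A ^ 2 ^ m : ℕ) : ℝ) ^ 2 := by
      push_cast
      rw [← pow_mul, pow_succ]
    have b1 := ht m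
    have b2 := ht (m + 1)
    have b3 := hd m
    have b4 := hd (m + 1)
    have b5 := hZ m
    rw [e] at b2 b4
    rw [← hL m]
    generalize ((A ^ 2 ^ m : ℕ) : ℝ) = Z at *
    have z1 : 1 ≤ Z := by linarith
    have b6 := dd_mono (norm_tw hf (χ (m + 1))) (t (m + 1)) (le_self_pow₀ z1 two_ne_zero)
    have b7 : Z ^ k ≤ Z ^ (2 * k) := pow_le_pow_right₀ z1 (by omega)
    have b8 : 0 ≤ Z ^ (2 * k) := by positivity
    rw [← pow_mul] at b2
    have := hc Z (by linarith) (χ m * (χ (m + 1))⁻¹) (t m - t (m + 1))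
      ((abs_sub _ _).trans (by rw [pow_succ]; nlinarith))
      ((dd_tri hf _ _ _ _ _).trans (by linarith))
    exact ⟨mul_inv_eq_one.1 this.1, this.2⟩
  have c0 : 0 ≤ c := by
    have := (abs_nonneg _).trans (key 0).2
    rwa [pow_zero, one_mul, le_div_iff₀ (by linarith), zero_mul] at this
  have hχ : ∀ m, χ m = χ 0 := fun m => by
    induction m with
    | zero => rfl
    | succ m ih => rw [← (key m).1, ih]
  have hu : ∀ m, dist (t m) (t (m + 1)) ≤ 2 * c / Real.log A / 2 / 2 ^ m := fun m => by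
    rw [Real.dist_eq]
    refine (key m).2.trans_eq ?_
    field_simp
  obtain ⟨s, hs⟩ := cauchySeq_tendsto_of_complete (cauchySeq_of_le_geometric_two hu)
  refine ⟨M, hM, χ 0, s, K + 2 * c * (1 + C), fun y => ?_⟩
  obtain ⟨m, hm⟩ := exists_nat_ge y
  have b1 : y ≤ ((A ^ 2 ^ m : ℕ) : ℝ) := hm.trans (by
    have : 1 < A := by exact_mod_cast (by linarith : (1 : ℝ) < A)
    exact_mod_cast (Nat.lt_two_pow_self.trans (Nat.lt_pow_self this)).le)
  have b2 := dist_le_of_le_geometric_two_of_tendsto hu hs m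
  have b3 := (abs_le.1 (hC _ ((by linarith : (1 : ℝ) ≤ A).trans (hZ m)))).2
  have b4 := dd_shift (norm_tw hf (χ 0)) s (t m) ((A ^ 2 ^ m : ℕ) : ℝ)
  have b5 := hd m
  rw [hχ m] at b5
  rw [Real.dist_eq, div_div, mul_comm (Real.log A)] at b2
  rw [hL m] at b3
  have b6 : 1 ≤ 2 ^ m * Real.log A := one_le_mul_of_one_le_of_one_le (one_le_pow₀ one_le_two) lA
  generalize 2 ^ m * Real.log A = L at *
  have b7 : |t m - s| * ∑ p ∈ pr 0 ((A ^ 2 ^ m : ℕ) : ℝ), Real.log p / p ≤ 2 * c / L * (L + C) :=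
    mul_le_mul b2 (by linarith) (sum_nonneg fun p _ =>
      div_nonneg (Real.log_natCast_nonneg p) (Nat.cast_nonneg p)) (by positivity)
  have b8 : 2 * c / L * (L + C) ≤ 2 * c * (1 + C) := by
    rw [div_mul_eq_mul_div, div_le_iff₀ (by linarith)]
    nlinarith [mul_nonneg (mul_nonneg c0 hC0.le) (sub_nonneg.2 b6)]
  linarith [dd_mono (norm_tw hf (χ 0)) s b1]

end Scale

theorem scale (hR : S_Rep) (h2 : S_M2) : S_Scale := by
  intro f hf hP
  have key : ∀ i : ℕ, ∃ Z : ℕ, i ≤ Z ∧ ∀ b : ℕ, 0 < b → b ≤ i →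
      ∀ (χ : DirichletCharacter ℂ b) (t : ℝ), |t| ≤ (Z : ℝ) ^ (i * i) →
        (i : ℝ) ≤ dd (tw f χ) t Z := fun i => by
    by_contra hn
    push Not at hn
    refine hP (Scale.pret hR h2 hf (Nat.factorial_pos i) (i + 2 * i.factorial) (i * i) i
      fun Z hZ => ?_)
    obtain ⟨b, b0, bi, χ, t, ht, hd⟩ := hn Z hZ
    exact ⟨_, t, ht, (Scale.dd_lift hf (Nat.factorial_ne_zero i) (Nat.dvd_factorial b0 bi)
      χ t Z).trans (by linarith)⟩
  choose Z hZ hd using key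
  refine ⟨map (fun i => Z i ^ i) atTop, inferInstance, tendsto_atTop_mono' _ ?_ tendsto_id,
    fun C hC => ?_⟩
  · filter_upwards [eventually_ge_atTop 1] with i hi
    exact (hZ i).trans (Nat.le_self_pow (by omega) _)
  · rw [eventually_map]
    filter_upwards [eventually_ge_atTop C] with i hi b b0 bC χ t ht
    have z1 : (1 : ℝ) ≤ Z i := by exact_mod_cast hC.trans (hi.trans (hZ i))
    push_cast at ht ⊢
    rw [← pow_mul] at ht
    have a1 := hd i b b0 (bC.trans hi) χ t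
      (ht.trans (pow_le_pow_right₀ z1 (Nat.mul_le_mul_left i hi)))
    have a2 : (Z i : ℝ) ≤ ((Z i : ℝ) ^ i) ^ (1 / (C : ℝ)) := by
      rw [one_div]
      conv_lhs => rw [← Real.pow_rpow_inv_natCast (x := (Z i : ℝ)) (n := C) (by linarith) (by omega)]
      exact Real.rpow_le_rpow (by positivity) (pow_le_pow_right₀ z1 hi) (by positivity)
    have a3 : (C : ℝ) ≤ i := by exact_mod_cast hi
    exact a3.trans (a1.trans (Scale.dd_mono (Scale.norm_tw hf χ) t a2))

end Pool.Agent.P.MP_e30989_nt.W
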