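import Pool.Agent.P.MP_e30989_nt.W.St

/-! Package W4: stability of NP, and NP for the Liouville function. -/

open Finset Filter Topology

namespace Pool.Agent.P.MP_e30989_nt.W

open Pool.Agent.P.MP_a14ce1_nt.Ch

namespace Stab

theorem abs_re_le {F : ℕ → ℂ} (hF : ∀ n, ‖F n‖ ≤ 1) (t : ℝ) (p : ℕ) : |(F p * nit t p).re| ≤ 1 := by
  refine (Complex.abs_re_le_norm _).trans ?_
  rw [norm_mul, norm_nit, mul_one]
  exact hF p

theorem term_nonneg {F : ℕ → ℂ} (hF : ∀ n, ‖F n‖ ≤ 1) (t : ℝ) (p : ℕ) :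
    0 ≤ (1 - (F p * nit t p).re) / p :=
  div_nonneg (by linarith [(abs_le.1 (abs_re_le hF t p)).2]) (Nat.cast_nonneg p)

theorem dd_mono {F : ℕ → ℂ} (hF : ∀ n, ‖F n‖ ≤ 1) (t : ℝ) {y z : ℝ} (h : y ≤ z) :
    dd F t y ≤ dd F t z :=
  sum_le_sum_of_subset_of_nonneg (fun p hp => by
    rw [mem_pr le_rfl] at hp ⊢
    exact ⟨hp.1, hp.2.1, hp.2.2.trans h⟩) fun p _ _ => term_nonneg hF t p

theorem tw_bd {f : ℕ → ℂ} (hf : ∀ n, ‖f n‖ ≤ 1) {b : ℕ} (χ : DirichletCharacter ℂ b) (n : ℕ) :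
    ‖tw f χ n‖ ≤ 1 := by
  rw [tw, norm_mul]
  exact mul_le_one₀ (hf n) (norm_nonneg _) (χ.norm_le_one _)

theorem dd_conj (f : ℕ → ℂ) {b : ℕ} [NeZero b] (χ : DirichletCharacter ℂ b) (t y : ℝ) :
    dd (tw (fun n => (starRingEnd ℂ) (f n)) χ) t y = dd (tw f χ⁻¹) (-t) y := by
  refine sum_congr rfl fun p _ => ?_
  rw [← Complex.conj_re, tw, tw, map_mul, map_mul, Complex.conj_conj, ← MulChar.star_apply', nit,
    nit, conj_ex, neg_mul]
  rfl

theorem dd_change {F G : ℕ → ℂ} (hF : ∀ n, ‖F n‖ ≤ 1) (hG : ∀ n, ‖G n‖ ≤ 1) {w : ℕ}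
    (h : ∀ p, p.Prime → w < p → G p = F p) (t y : ℝ) : dd F t y ≤ dd G t y + 2 * w := by
  have h1 : ∑ p ∈ pr 0 y, (if p ∈ Ioc 0 w then (2 : ℝ) else 0) ≤ 2 * w := by
    rw [← sum_filter, sum_const, nsmul_eq_mul, mul_comm]
    refine mul_le_mul_of_nonneg_left (Nat.cast_le.2 ?_) zero_le_two
    refine (card_le_card fun p hp => (mem_filter.1 hp).2).trans (le_of_eq ?_)
    simp
  refine le_trans ?_ (add_le_add le_rfl h1)
  rw [dd, dd, ← sum_add_distrib]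
  refine sum_le_sum fun p hp => ?_
  have hp' := ((mem_pr le_rfl).1 hp).1
  split_ifs with h2
  · have h3 : (1 : ℝ) ≤ p := by exact_mod_cast hp'.one_le
    have h4 : (1 - (F p * nit t p).re) / p ≤ 2 := by
      rw [div_le_iff₀ (by linarith)]
      linarith [(abs_le.1 (abs_re_le hF t p)).1]
    linarith [term_nonneg hG t p]
  · rw [h p hp' (by have := hp'.pos; rw [mem_Ioc] at h2; omega), add_zero]

/-- large frequencies -/
theorem big (h1 : S_M1) {F : ℕ → ℂ} (hF : ∀ n, ‖F n‖ ≤ 1) (hH : H1 F) (K : ℝ) (k : ℕ) :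
    ∀ᶠ y : ℝ in atTop, ∀ t : ℝ, 1 ≤ |t| → |t| ≤ y ^ k → K ≤ dd F t y := by
  obtain ⟨C, -, hC⟩ := h1
  obtain ⟨C1, -, hC1⟩ := hH
  obtain ⟨m, hm⟩ := exists_nat_ge (2 * Real.exp (K + C + C1) + 2)
  have e0 := Real.exp_pos (K + C + C1)
  have m2 : 2 ≤ m := by exact_mod_cast (show (2 : ℝ) ≤ m by linarith)
  obtain ⟨y0, hy0⟩ := hC1 (m * k)
  filter_upwards [(tendsto_rpow_atTop (show 0 < ((m : ℝ))⁻¹ by positivity)).eventually_ge_atTop
    (y0 + 2 : ℝ), eventually_ge_atTop 0] with y hs hy t t1 t2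
  have e1 := Real.rpow_inv_natCast_pow hy (show m ≠ 0 by omega)
  generalize y ^ ((m : ℝ))⁻¹ = s at hs e1
  subst e1
  have s2 : 2 ≤ s := by linarith [Nat.cast_nonneg (α := ℝ) y0]
  have z1 := Nat.le_ceil s
  have z2 : (⌈s⌉₊ : ℝ) ≤ s ^ 2 := by nlinarith [Nat.ceil_lt_add_one (show 0 ≤ s by linarith)]
  generalize ⌈s⌉₊ = z at z1 z2
  have z3 : (z : ℝ) ≤ s ^ m := z2.trans (pow_le_pow_right₀ (by linarith) m2)
  have a1 := hy0 z ⌊s ^ m⌋₊ (by exact_mod_cast (show (y0 : ℝ) ≤ z by linarith)) (Nat.le_floor z3)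
    t t1 (by rw [pow_mul]; exact t2.trans (by gcongr))
  have a2 := (abs_le.1 (hC z (s ^ m) (by linarith) z3)).1
  have a3 : K + C + C1 ≤ Real.log (Real.log (s ^ m) / Real.log z) := by
    have l1 : 0 < Real.log z := Real.log_pos (by linarith)
    have l2 : Real.log z ≤ 2 * Real.log s := by
      have := Real.log_le_log (by linarith) z2
      rwa [Real.log_pow] at this
    have l3 : Real.exp (K + C + C1) ≤ Real.log (s ^ m) / Real.log z := by
      rw [le_div_iff₀ l1, Real.log_pow]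
      nlinarith
    exact (Real.le_log_iff_exp_le (e0.trans_le l3)).2 l3
  have a4 : pr z (s ^ m) = (Ioc z ⌊s ^ m⌋₊).filter Nat.Prime := by rw [pr, Nat.floor_natCast]
  have a5 : ∑ p ∈ pr z (s ^ m), (1 - (F p * nit t p).re) / p ≤ dd F t (s ^ m) :=
    sum_le_sum_of_subset_of_nonneg (fun p hp => by
      rw [mem_pr (by positivity)] at hp ⊢
      exact ⟨hp.1, by exact_mod_cast hp.1.pos, hp.2.2⟩) fun p _ _ => term_nonneg hF t p
  have a6 : ∑ p ∈ pr z (s ^ m), (1 - (F p * nit t p).re) / p =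
      rs (pr z (s ^ m)) - (∑ p ∈ pr z (s ^ m), F p / p * nit t p).re := by
    rw [rs, Complex.re_sum, ← sum_sub_distrib]
    refine sum_congr rfl fun p _ => ?_
    rw [div_mul_eq_mul_div, Complex.div_natCast_re, sub_div]
  rw [← a4] at a1
  linarith [Complex.re_le_norm (∑ p ∈ pr z (s ^ m), F p / p * nit t p)]

/-- small frequencies -/
theorem small (hL : S_EulerLow) {F : ℕ → ℂ} (hF : CM F) (h1 : F 1 = 1) (hH : H2 F) (K : ℝ) :
    ∀ᶠ y : ℝ in atTop, ∀ t : ℝ, |t| ≤ 2 → K ≤ dd F t y := by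
  obtain ⟨C, C0, hC⟩ := hL
  obtain ⟨C2, -, hC2⟩ := hH
  filter_upwards [Real.tendsto_log_atTop.eventually_gt_atTop (C * C2 * Real.exp K),
    Real.tendsto_log_atTop.eventually_ge_atTop 1, eventually_ge_atTop 3] with y y1 y2 y3 t ht
  have a1 := (hC F hF h1 y t y3).trans (mul_le_mul_of_nonneg_left (hC2 (1 + 1 / Real.log y) t
    (lt_add_of_pos_right _ (by positivity))
    (by linarith [(div_le_one (show 0 < Real.log y by linarith)).2 y2]) ht) C0.le)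
  by_contra h
  have a2 := mul_le_mul_of_nonneg_left (Real.exp_le_exp.2 (neg_le_neg (not_le.1 h).le))
    (show 0 ≤ Real.log y by linarith)
  have a3 := a2.trans a1
  rw [Real.exp_neg, mul_inv_le_iff₀ (Real.exp_pos K)] at a3
  linarith

end Stab

open Stab

theorem npStab : S_NPstab := by
  intro f l hl hf hN
  refine ⟨fun C hC => (hN C hC).mono fun X hX b hb hbC χ t ht => ?_, fun g w hg hw C hC => ?_⟩
  · have : NeZero b := ⟨hb.ne'⟩
    rw [dd_conj]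
    exact hX b hb hbC _ _ (by rwa [abs_neg])
  · filter_upwards [hN (C + 2 * w) (by omega), hl (eventually_ge_atTop 1)] with X hX X1 b hb hbC χ
      t ht
    have X2 : (1 : ℝ) ≤ X := by exact_mod_cast X1
    have C1 : (1 : ℝ) ≤ C := by exact_mod_cast hC
    have a1 := hX b hb (by omega) χ t (ht.trans (pow_le_pow_right₀ X2 (by omega)))
    have a2 := dd_mono (tw_bd hf.1.bd χ) t (Real.rpow_le_rpow_of_exponent_le X2
      (show 1 / ((C + 2 * w : ℕ) : ℝ) ≤ 1 / (C : ℝ) by gcongr; omega))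
    have a3 := dd_change (w := w) (tw_bd hf.1.bd χ) (tw_bd hg.1.bd χ)
      (fun p h1 h2 => by rw [tw, tw, hw p h1 h2]) t ((X : ℝ) ^ (1 / (C : ℝ)))
    push_cast at a1 a2
    linarith

theorem npLam (h1 : S_M1) (hH : S_H1) (hH2 : S_H2) (hL : S_EulerLow) : S_NPlam := by
  have n1 : ∀ n, ‖(lam n : ℂ)‖ = 1 := fun n => by rw [Complex.norm_real, Real.norm_eq_abs, abs_lam]
  refine ⟨⟨⟨fun m n hm hn => by rw [lam_mul hm hn, Complex.ofReal_mul], fun n => (n1 n).le⟩,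
    fun n _ => n1 n⟩, fun C hC => ?_⟩
  have key : ∀ b ∈ Ioc 0 C, ∀ᶠ X : ℕ in atTop, ∀ (χ : DirichletCharacter ℂ b) (t : ℝ),
      |t| ≤ (X : ℝ) ^ C → (C : ℝ) ≤ dd (lc χ) t ((X : ℝ) ^ (1 / (C : ℝ))) := fun b hb => by
    have : NeZero b := ⟨(mem_Ioc.1 hb).1.ne'⟩
    refine eventually_all.2 fun χ => ?_
    have t1 : Tendsto (fun X : ℕ => (X : ℝ) ^ (1 / (C : ℝ))) atTop atTop :=
      (tendsto_rpow_atTop (by positivity)).comp tendsto_natCast_atTop_atTop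
    filter_upwards [t1.eventually (big h1 (lc_CM χ).bd (hH b χ) C (C * C)),
      t1.eventually (small hL (lc_CM χ) (by simp [lc, lam]) (hH2 b χ) C)] with X a1 a2 t ht
    by_cases h : 1 ≤ |t|
    · refine a1 t h ?_
      rwa [pow_mul, one_div, Real.rpow_inv_natCast_pow (Nat.cast_nonneg X) (by omega)]
    · exact a2 t (by linarith)
  exact ((eventually_all_finset _).2 key).mono fun X hX b hb hbC => hX b (mem_Ioc.2 ⟨hb, hbC⟩)

end Pool.Agent.P.MP_e30989_nt.W
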