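import Pool.Agent.P.MP_e30989_nt.W.St

/-! Invariance of Furstenberg limits and existence along subsequences. -/

open Finset MeasureTheory Filter Topology

namespace Pool.Agent.P.MP_e30989_nt.W

namespace Sub

theorem continuous_shift : Continuous shift :=
  continuous_pi fun n => continuous_apply (n + 1)

/-- the empirical measure of the orbit of x of length max N 1 -/
noncomputable def emp (x : Sq) (N : ℕ) : Measure Sq :=
  ((max N 1 : ℕ) : ENNReal)⁻¹ • ∑ n ∈ Icc 1 (max N 1), Measure.dirac (shift^[n] x)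

theorem emp_prob (x : Sq) (N : ℕ) : IsProbabilityMeasure (emp x N) := by
  constructor
  have h0 : ((max N 1 : ℕ) : ENNReal) ≠ 0 := by
    have : 0 < max N 1 := lt_of_lt_of_le Nat.one_pos (le_max_right _ _)
    exact_mod_cast this.ne'
  have h1 : ((max N 1 : ℕ) : ENNReal) ≠ ⊤ := ENNReal.natCast_ne_top _
  simp only [emp, Measure.smul_apply, Measure.coe_finsetSum, Finset.sum_apply,
    measure_univ, Finset.sum_const, Nat.card_Icc, add_tsub_cancel_right, nsmul_eq_mul, mul_one,
    smul_eq_mul]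
  exact ENNReal.inv_mul_cancel h0 h1

theorem integral_emp {E : Type*} [NormedAddCommGroup E] [NormedSpace ℝ E] [CompleteSpace E]
    (x : Sq) (N : ℕ) (hN : 1 ≤ N) (φ : Sq → E) :
    ∫ y, φ y ∂(emp x N) = (N : ℝ)⁻¹ • ∑ n ∈ Icc 1 N, φ (shift^[n] x) := by
  have hm : max N 1 = N := max_eq_left hN
  rw [emp, hm, integral_smul_measure, integral_finsetSum_measure]
  · simp [integral_dirac]
  · intro n _
    exact integrable_dirac (by simp)

theorem sum_shift (φ : Sq → ℝ) (x : Sq) (N : ℕ) :
    ∑ n ∈ Icc 1 N, φ (shift (shift^[n] x)) =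
      ∑ n ∈ Icc 1 N, φ (shift^[n] x) + (φ (shift^[N + 1] x) - φ (shift^[1] x)) := by
  induction N with
  | zero => simp
  | succ N ih =>
    rw [Finset.sum_Icc_succ_top (by omega), Finset.sum_Icc_succ_top (by omega), ih,
      Function.iterate_succ_apply' shift (N + 1) x]
    ring

end Sub

open _root_.Pool.Agent.P.MP_e30989_nt.W.Sub

theorem inv : S_Inv := by
  intro f μ ⟨hμ, N, hN, hlim⟩
  refine ⟨continuous_shift.measurable, ?_⟩
  have : IsProbabilityMeasure (μ.map shift) :=
    Measure.isProbabilityMeasure_map continuous_shift.measurable.aemeasurable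
  apply ext_of_forall_integral_eq_of_IsFiniteMeasure
  intro φ
  rw [integral_map continuous_shift.measurable.aemeasurable φ.continuous.aestronglyMeasurable]
  have h1 := hlim ⟨fun x => φ (shift x), φ.continuous.comp continuous_shift⟩
  have h2 := hlim φ.toContinuousMap
  have hNr : Tendsto (fun k => (N k : ℝ)) atTop atTop := tendsto_natCast_atTop_atTop.comp hN
  have h3 : Tendsto (fun k => (φ (shift^[N k + 1] (pt f)) - φ (shift^[1] (pt f))) / (N k : ℝ))
      atTop (𝓝 0) := by
    have hb : Tendsto (fun k => (2 * ‖φ‖) / (N k : ℝ)) atTop (𝓝 0) :=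
      tendsto_const_nhds.div_atTop hNr
    refine squeeze_zero_norm (fun k => ?_) hb
    rw [norm_div, Real.norm_natCast]
    refine div_le_div_of_nonneg_right ?_ (Nat.cast_nonneg _)
    calc ‖φ (shift^[N k + 1] (pt f)) - φ (shift^[1] (pt f))‖
        ≤ ‖φ (shift^[N k + 1] (pt f))‖ + ‖φ (shift^[1] (pt f))‖ := norm_sub_le _ _
      _ ≤ ‖φ‖ + ‖φ‖ := add_le_add (φ.norm_coe_le_norm _) (φ.norm_coe_le_norm _)
      _ = 2 * ‖φ‖ := by ring
  have h4 := h2.add h3
  rw [add_zero] at h4
  refine tendsto_nhds_unique h1 (h4.congr fun k => ?_)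
  simp only [ContinuousMap.coe_mk, BoundedContinuousFunction.coe_toContinuousMap]
  rw [sum_shift (fun x => φ x) (pt f) (N k), add_div]

theorem sub : S_Sub := by
  intro f N hN
  let P : ℕ → ProbabilityMeasure Sq := fun k => ⟨emp (pt f) (N k), emp_prob _ _⟩
  obtain ⟨ν, κ, hκ, hlim⟩ := CompactSpace.tendsto_subseq P
  have hNκ : Tendsto (fun k => N (κ k)) atTop atTop := hN.comp hκ.tendsto_atTop
  have hev : ∀ᶠ k in atTop, 1 ≤ N (κ k) := hNκ.eventually_ge_atTop 1
  refine ⟨(ν : Measure Sq), κ, hκ, ⟨inferInstance, fun k => N (κ k), hNκ, fun φ => ?_⟩, fun φ => ?_⟩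
  · have h := (ProbabilityMeasure.tendsto_iff_forall_integral_tendsto.1 hlim)
      (BoundedContinuousFunction.mkOfCompact φ)
    refine h.congr' (hev.mono fun k hk => ?_)
    change ∫ y, φ y ∂(emp (pt f) (N (κ k))) = _
    rw [integral_emp _ _ hk, smul_eq_mul, ← div_eq_inv_mul]
  · have h := ((ProbabilityMeasure.tendsto_iff_forall_integral_rclike_tendsto ℂ).1 hlim)
      (BoundedContinuousFunction.mkOfCompact φ)
    refine h.congr' (hev.mono fun k hk => ?_)
    change ∫ y, φ y ∂(emp (pt f) (N (κ k))) = _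
    rw [integral_emp _ _ hk, Complex.real_smul]
    push_cast
    rw [← div_eq_inv_mul]

end Pool.Agent.P.MP_e30989_nt.W
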