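import Pool.Agent.P.MP_e30989_nt.W.St

/-!
Package W8: if the sum of (1 - |f p|) / p diverges then the mean value of |f| is zero.
-/

open Finset Filter Topology

namespace Pool.Agent.P.MP_e30989_nt.W

namespace Triv

theorem crt {a b : ℕ} (ha : 0 < a) (hb : 0 < b) (hab : a.Coprime b) (F G : ℕ → ℝ)
    (hF : ∀ n, F (n % a) = F n) (hG : ∀ n, G (n % b) = G n) :
    ∑ n ∈ range (a * b), F n * G n = (∑ n ∈ range a, F n) * ∑ n ∈ range b, G n := by
  rw [sum_mul_sum, ← sum_product']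
  refine sum_bij (fun n _ => (n % a, n % b)) (fun n _ => ?_) (fun n hn m hm h => ?_)
    (fun x hx => ?_) fun n _ => ?_
  · exact mem_product.2 ⟨mem_range.2 (Nat.mod_lt _ ha), mem_range.2 (Nat.mod_lt _ hb)⟩
  · obtain ⟨h1, h2⟩ := Prod.ext_iff.1 h
    exact ((Nat.modEq_and_modEq_iff_modEq_mul hab).1 ⟨h1, h2⟩).eq_of_lt_of_lt (mem_range.1 hn)
      (mem_range.1 hm)
  · obtain ⟨h1, h2⟩ := mem_product.1 hx
    refine ⟨Nat.chineseRemainder hab x.1 x.2,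
      mem_range.2 (Nat.chineseRemainder_lt_mul hab _ _ ha.ne' hb.ne'), Prod.ext ?_ ?_⟩
    · exact Eq.trans (Nat.chineseRemainder hab x.1 x.2).2.1 (Nat.mod_eq_of_lt (mem_range.1 h1))
    · exact Eq.trans (Nat.chineseRemainder hab x.1 x.2).2.2 (Nat.mod_eq_of_lt (mem_range.1 h2))
  · rw [hF, hG]

theorem blocks {M : ℕ} (F : ℕ → ℝ) (hF : ∀ n, F (n % M) = F n) (k : ℕ) :
    ∑ n ∈ range (k * M), F n = k * ∑ n ∈ range M, F n := by
  induction k with
  | zero => simp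
  | succ k ih =>
    rw [add_mul, one_mul, sum_range_add, ih, Nat.cast_succ, add_mul, one_mul]
    congr 1
    refine sum_congr rfl fun n _ => ?_
    rw [← hF, Nat.mul_add_mod_self_right, hF]

/-- the local factor -/
noncomputable def ph (h : ℕ → ℝ) (p n : ℕ) : ℝ := if p ∣ n ∧ ¬ p ^ 2 ∣ n then h p else 1

theorem ph_mod (h : ℕ → ℝ) {p M : ℕ} (hM : p ^ 2 ∣ M) (n : ℕ) : ph h p (n % M) = ph h p n := by
  unfold ph
  simp only [Nat.dvd_mod_iff hM, Nat.dvd_mod_iff ((dvd_pow_self p two_ne_zero).trans hM)]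

theorem ph_nonneg {h : ℕ → ℝ} (h0 : ∀ n, 0 ≤ h n) (p n : ℕ) : 0 ≤ ph h p n := by
  unfold ph
  split_ifs
  exacts [h0 p, zero_le_one]

theorem sum_ph {h : ℕ → ℝ} (h1 : ∀ n, h n ≤ 1) {p : ℕ} (hp : p.Prime) :
    ∑ n ∈ range (p ^ 2), ph h p n ≤ (p : ℝ) ^ 2 * Real.exp (-((1 - h p) / p / 2)) := by
  have hp2 : (2 : ℝ) ≤ p := by exact_mod_cast hp.two_le
  have e : ∀ n, ph h p n = 1 - if p ∣ n ∧ ¬ p ^ 2 ∣ n then 1 - h p else 0 := fun n => by
    unfold ph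
    split_ifs <;> ring
  have hc : p - 1 ≤ ((range (p ^ 2)).filter fun n => p ∣ n ∧ ¬ p ^ 2 ∣ n).card := by
    rw [← Nat.card_Ico 1 p]
    refine card_le_card_of_injOn (fun k => p * k) (fun k hk => ?_) fun k _ k' _ hk =>
      Nat.eq_of_mul_eq_mul_left hp.pos hk
    obtain ⟨h2, h3⟩ := mem_Ico.1 (mem_coe.1 hk)
    have h4 : p * k < p ^ 2 := by rw [sq]; exact Nat.mul_lt_mul_of_pos_left h3 hp.pos
    exact mem_coe.2 (mem_filter.2 ⟨mem_range.2 h4, dvd_mul_right _ _,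
      Nat.not_dvd_of_pos_of_lt (Nat.mul_pos hp.pos h2) h4⟩)
  have hc' : (p : ℝ) - 1 ≤ ((range (p ^ 2)).filter fun n => p ∣ n ∧ ¬ p ^ 2 ∣ n).card := by
    have : ((p - 1 : ℕ) : ℝ) = p - 1 := by rw [Nat.cast_sub hp.one_le, Nat.cast_one]
    rw [← this]
    exact_mod_cast hc
  simp_rw [e]
  rw [sum_sub_distrib, ← sum_filter, sum_const, sum_const, card_range, nsmul_eq_mul, nsmul_eq_mul,
    mul_one, Nat.cast_pow]
  have h2 := Real.add_one_le_exp (-((1 - h p) / p / 2))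
  have h3 : 0 ≤ 1 - h p := sub_nonneg.2 (h1 p)
  calc _ ≤ (p : ℝ) ^ 2 - p / 2 * (1 - h p) := by
        have := mul_le_mul_of_nonneg_right (show (p : ℝ) / 2 ≤ _ from le_trans (by linarith) hc') h3
        linarith
    _ = (p : ℝ) ^ 2 * (-((1 - h p) / p / 2) + 1) := by field_simp; ring
    _ ≤ _ := by gcongr

theorem sum_prod {h : ℕ → ℝ} (h0 : ∀ n, 0 ≤ h n) (h1 : ∀ n, h n ≤ 1) (P : Finset ℕ)
    (hP : ∀ p ∈ P, p.Prime) : ∑ n ∈ range (∏ p ∈ P, p ^ 2), ∏ p ∈ P, ph h p n ≤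
      ((∏ p ∈ P, p ^ 2 : ℕ) : ℝ) * Real.exp (-((∑ p ∈ P, (1 - h p) / p) / 2)) := by
  induction P using Finset.induction_on with
  | empty => simp
  | insert p P hp ih =>
    have hpp := hP p (mem_insert_self _ _)
    have hP' : ∀ q ∈ P, q.Prime := fun q hq => hP q (mem_insert_of_mem hq)
    simp only [prod_insert hp, sum_insert hp]
    rw [crt (pow_pos hpp.pos 2) (prod_pos fun q hq => pow_pos (hP' q hq).pos 2)
      (Nat.Coprime.prod_right fun q hq => Nat.Coprime.pow _ _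
        ((Nat.coprime_primes hpp (hP' q hq)).2 fun e => hp (e ▸ hq))) _ _
      (ph_mod h dvd_rfl) fun n => prod_congr rfl fun q hq =>
        ph_mod h (dvd_prod_of_mem (fun p => p ^ 2) hq) n]
    calc _ ≤ ((p : ℝ) ^ 2 * Real.exp (-((1 - h p) / p / 2))) * (((∏ p ∈ P, p ^ 2 : ℕ) : ℝ) *
          Real.exp (-((∑ p ∈ P, (1 - h p) / p) / 2))) :=
          mul_le_mul (sum_ph h1 hpp) (ih hP')
            (sum_nonneg fun n _ => prod_nonneg fun q _ => ph_nonneg h0 q n) (by positivity)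
      _ = _ := by
          rw [add_div, neg_add, Real.exp_add, Nat.cast_mul, Nat.cast_pow]
          ring

theorem le_prod {h : ℕ → ℝ} (h0 : ∀ n, 0 ≤ h n) (h1 : ∀ n, h n ≤ 1)
    (hm : ∀ m n : ℕ, 0 < m → 0 < n → m.Coprime n → h (m * n) = h m * h n) (Q : Finset ℕ) :
    ∀ n, 0 < n → (∀ p ∈ Q, p.Prime ∧ p ∣ n ∧ ¬ p ^ 2 ∣ n) → h n ≤ ∏ p ∈ Q, h p := by
  induction Q using Finset.induction_on with
  | empty => intro n _ _; simpa using h1 n
  | insert p Q hp ih =>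
    intro n hn hQ
    obtain ⟨hpp, ⟨m, rfl⟩, h2⟩ := hQ p (mem_insert_self _ _)
    have hm0 : 0 < m := Nat.pos_of_mul_pos_left hn
    rw [prod_insert hp, hm p m hpp.pos hm0 (hpp.coprime_iff_not_dvd.2 fun e =>
      h2 (by rw [sq]; exact Nat.mul_dvd_mul_left p e))]
    refine mul_le_mul_of_nonneg_left (ih m hm0 fun q hq => ?_) (h0 p)
    obtain ⟨h3, h4, h5⟩ := hQ q (mem_insert_of_mem hq)
    exact ⟨h3, ((Nat.coprime_primes h3 hpp).2 fun e => hp (e ▸ hq)).dvd_of_dvd_mul_left h4,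
      fun e => h5 (e.mul_left p)⟩

end Triv

open Triv

theorem triv : S_Triv := by
  intro f hf hF
  set h : ℕ → ℝ := fun n => ‖(f n : ℂ)‖ with hh
  have h0 : ∀ n, 0 ≤ h n := fun n => norm_nonneg _
  have h1 : ∀ n, h n ≤ 1 := fun n => mem_closedBall_zero_iff.1 (f n).2
  have hm : ∀ m n : ℕ, 0 < m → 0 < n → m.Coprime n → h (m * n) = h m * h n :=
    fun m n a b c => by simp only [hh, hf.2 m n a b c, norm_mul]
  refine Metric.tendsto_atTop.2 fun ε hε => ?_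
  obtain ⟨u, hu⟩ : ∃ u : Finset Nat.Primes,
      -(2 * Real.log (ε / 2)) < ∑ p ∈ u, (1 - h p) / ((p : ℕ) : ℝ) := by
    by_contra hc
    push Not at hc
    exact hF (summable_of_sum_le
      (fun p => div_nonneg (sub_nonneg.2 (h1 p)) (Nat.cast_nonneg _)) hc)
  set P : Finset ℕ := u.map ⟨Subtype.val, Subtype.val_injective⟩ with hPd
  have hP : ∀ p ∈ P, p.Prime := fun p hp => by
    obtain ⟨q, -, rfl⟩ := mem_map.1 hp
    exact q.2
  have hs : ∑ p ∈ P, (1 - h p) / p = ∑ p ∈ u, (1 - h p) / ((p : ℕ) : ℝ) := sum_map _ _ _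
  have hS := sum_prod h0 h1 P hP
  have hmod : ∀ n, ∏ p ∈ P, ph h p (n % ∏ p ∈ P, p ^ 2) = ∏ p ∈ P, ph h p n := fun n =>
    prod_congr rfl fun q hq => ph_mod h (dvd_prod_of_mem (fun p => p ^ 2) hq) n
  have hM : 0 < ∏ p ∈ P, p ^ 2 := prod_pos fun q hq => pow_pos (hP q hq).pos 2
  generalize ∏ p ∈ P, p ^ 2 = M at hS hmod hM
  have he : Real.exp (-((∑ p ∈ P, (1 - h p) / p) / 2)) < ε / 2 := by
    rw [← Real.exp_log (half_pos hε), hs]
    exact Real.exp_lt_exp.2 (by linarith)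
  refine ⟨M, fun N hN => ?_⟩
  have hN0 : (0 : ℝ) < N := by exact_mod_cast hM.trans_le hN
  have hMN : (M : ℝ) ≤ N := by exact_mod_cast hN
  rw [Real.dist_eq, sub_zero, abs_of_nonneg (div_nonneg (sum_nonneg fun n _ => h0 n) hN0.le),
    div_lt_iff₀ hN0]
  have hk : ((N / M + 1 : ℕ) : ℝ) * M ≤ 2 * N := by
    have : ((N / M * M : ℕ) : ℝ) ≤ N := by exact_mod_cast Nat.div_mul_le_self N M
    push_cast at this ⊢
    linarith
  calc ∑ n ∈ Icc 1 N, h n ≤ ∑ n ∈ Icc 1 N, ∏ p ∈ P, ph h p n := sum_le_sum fun n hn => by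
        unfold ph
        rw [← prod_filter]
        exact le_prod h0 h1 hm _ n (mem_Icc.1 hn).1 fun p hp =>
          ⟨hP p (mem_filter.1 hp).1, (mem_filter.1 hp).2⟩
    _ ≤ ∑ n ∈ range ((N / M + 1) * M), ∏ p ∈ P, ph h p n :=
        sum_le_sum_of_subset_of_nonneg (fun n hn => mem_range.2 ((mem_Icc.1 hn).2.trans_lt
          (by rw [mul_comm]; exact Nat.lt_mul_div_succ N hM)))
          fun n _ _ => prod_nonneg fun q _ => ph_nonneg h0 q n
    _ = _ := blocks (fun n => ∏ p ∈ P, ph h p n) hmod _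
    _ ≤ ((N / M + 1 : ℕ) : ℝ) * (M * Real.exp (-((∑ p ∈ P, (1 - h p) / p) / 2))) := by gcongr
    _ ≤ 2 * N * Real.exp (-((∑ p ∈ P, (1 - h p) / p) / 2)) := by rw [← mul_assoc]; gcongr
    _ < 2 * N * (ε / 2) := by gcongr
    _ = ε * N := by ring

end Pool.Agent.P.MP_e30989_nt.W
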