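import Pool.Agent.P.MP_a14ce1_nt.Ch.All
import Pool.Agent.P.MP_e30989_nt.W.Att
import Pool.Agent.P.MP_e30989_nt.W.Comb
import Pool.Agent.P.MP_e30989_nt.W.Corr
import Pool.Agent.P.MP_e30989_nt.W.Diag
import Pool.Agent.P.MP_e30989_nt.W.Euler
import Pool.Agent.P.MP_e30989_nt.W.Few
import Pool.Agent.P.MP_e30989_nt.W.FinalNP
import Pool.Agent.P.MP_e30989_nt.W.Lower
import Pool.Agent.P.MP_e30989_nt.W.MRH
import Pool.Agent.P.MP_e30989_nt.W.Orth
import Pool.Agent.P.MP_e30989_nt.W.Pred
import Pool.Agent.P.MP_e30989_nt.W.Q1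
import Pool.Agent.P.MP_e30989_nt.W.Rep
import Pool.Agent.P.MP_e30989_nt.W.Scale
import Pool.Agent.P.MP_e30989_nt.W.Stab
import Pool.Agent.P.MP_e30989_nt.W.Sub
import Pool.Agent.P.MP_e30989_nt.W.Triv

/-! Assembly of part W. -/

open Finset Filter

namespace Pool.Agent.P.MP_e30989_nt.W

open Pool.Agent.P.MP_a14ce1_nt Pool.Agent.P.MP_a14ce1_nt.Ch

theorem h1_all : S_H1 := hone m2 m6 (roughL (rough m1 sieve vdc))

theorem low_all : S_EulerLow := eulerLow m1 m2 m6

theorem scale_all : S_Scale := scale (rep m1 h1_all low_all) m2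

theorem mrnp_all : S_MRNP :=
  mrNP (reduce cauchy) (scales m1 tk mvt (separate fourier) (moment cauchy kernel) smReg)
    (finalNP m1 tk mvt fourier (smPrimes cauchy m2) (hm vdc fourier) h1_all (rxNP fourier) few)

/-- short interval means of a strongly non-pretentious function are small -/
theorem mrh_all : S_MRH := mrh eulerUp mrnp_all

theorem nplam_all : S_NPlam := npLam m1 h1_all htwo low_all

theorem ucm_lam : UCM fun n => (lam n : ℂ) := nplam_all.1

/-- the hypothesis MRH holds for the Liouville function at all scales -/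
theorem mrh_lam : MRH (fun n => (lam n : ℂ)) atTop :=
  mrh_all _ _ le_rfl nplam_all.1 nplam_all.2

/-- the robust form -/
theorem rmrh_all : S_RMRH := rmrh eulerUp mrnp_all

theorem rmrh_lam : RMRH (fun n => (lam n : ℂ)) atTop :=
  rmrh_all _ _ le_rfl nplam_all.1 nplam_all.2

theorem q1_of_ell (hE : S_EllN) : S_Q1 :=
  q1 triv att scale_all (corr hE npStab (comb tail)) diag sub inv pred orth lower

theorem pcm {f : ℕ → ℂ} (hf : UCM f) : V.PCM f :=
  ⟨hf.1, 0, fun p hp _ => hf.2 p hp.ne_zero⟩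

theorem ell (hV : V.S_V) (hU : S_LU) : S_EllN := by
  intro l hl f hf hN r g h hg hh δ hδ
  refine (hV r f g 0 h l hl (pcm hf) (fun j => pcm (hg j)) (fun j => (hh j).ne')
    (hU f l hl hf (rmrh_all f l hl hf hN) r) δ hδ).mono fun X hX => ?_
  refine le_of_eq_of_le (sum_congr rfl fun N _ => ?_) hX
  simp only [add_zero]
  rw [div_eq_mul_inv, div_eq_mul_inv, one_div, one_div, mul_comm, mul_comm ((N : ℂ)⁻¹)]

theorem q1_of_lu (hV : V.S_V) (hU : S_LU) : S_Q1 := q1_of_ell (ell hV hU)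

end Pool.Agent.P.MP_e30989_nt.W
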