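import Pool.Agent.P.MP_e30989_nt.W.Q1
import Pool.Agent.P.MP_e30989_nt.W.Sub

/-! Functions of mean modulus zero are completely deterministic. -/

open Finset MeasureTheory Filter Topology

namespace Pool.Agent.P.MP_e30989_nt.W

theorem compDet_of_trivial {f : ℕ → Disc} (hf : Trivial f) : CompDet f := by
  intro μ hμ m P hP
  have hI := inv f μ hμ
  obtain ⟨hμ1, N, hN, hlim⟩ := hμ
  have c0 : ∀ j : ℤ, Continuous fun x : Sq => ‖(x j : ℂ)‖ := fun j => (Q1.cont_coord j).norm
  have h0 : ∫ x : Sq, ‖(x 0 : ℂ)‖ ∂μ = 0 := by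
    refine tendsto_nhds_unique (hlim ⟨_, c0 0⟩) ((hf.comp hN).congr fun k => ?_)
    simp only [Function.comp, ContinuousMap.coe_mk]
    congr 1
    refine sum_congr rfl fun n hn => ?_
    rw [Q1.iter_shift, zero_add, Q1.pt_pos f (mem_Icc.1 hn).1]
  have h1 : ∀ j : ℤ, ∫ x : Sq, ‖(x (j + 1) : ℂ)‖ ∂μ = ∫ x : Sq, ‖(x j : ℂ)‖ ∂μ := fun j => by
    have := integral_map (μ := μ) hI.measurable.aemeasurable
      (f := fun x : Sq => ‖(x j : ℂ)‖) (c0 j).aestronglyMeasurable
    rw [hI.map_eq] at this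
    exact this.symm
  have h2 : ∀ j : ℤ, ∫ x : Sq, ‖(x j : ℂ)‖ ∂μ = 0 := fun j => by
    induction j using Int.induction_on with
    | zero => exact h0
    | succ j ih => rw [h1, ih]
    | pred j ih => rw [← h1, sub_add_cancel, ih]
  have h3 : ∀ᵐ x ∂μ, ∀ j : ℤ, (x j : ℂ) = 0 := by
    rw [ae_all_iff]
    intro j
    have hi : Integrable (fun x : Sq => ‖(x j : ℂ)‖) μ :=
      (integrable_const (1 : ℝ)).mono' (c0 j).aestronglyMeasurable
        (Eventually.of_forall fun x => by rw [norm_norm]; exact Q1.norm_le _)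
    filter_upwards [(integral_eq_zero_iff_of_nonneg (fun x => norm_nonneg _) hi).1 (h2 j)] with x hx
    exact norm_eq_zero.1 hx
  let o : Sq := fun _ => ⟨0, Metric.mem_closedBall_self zero_le_one⟩
  have h4 : ∀ᵐ x ∂μ, x = o := h3.mono fun x hx => funext fun j => Subtype.ext (hx j)
  have h5 : ∀ s : Set Sq, Real.negMulLog (μ.real s) = 0 := fun s => by
    by_cases ho : o ∈ s
    · have : s =ᵐ[μ] Set.univ := h4.mono fun x hx => by
        subst hx
        exact propext ⟨fun _ => trivial, fun _ => ho⟩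
      rw [measureReal_congr this]
      simp
    · have : s =ᵐ[μ] (∅ : Set Sq) := h4.mono fun x hx => by
        subst hx
        exact propext ⟨fun h => ho h, fun h => h.elim⟩
      rw [measureReal_congr this]
      simp
  simp only [blockH, h5, sum_const_zero, zero_div]
  exact tendsto_const_nhds

/-- the characterisation, from the one-sided statement -/
theorem iff_of_q1 (h : S_Q1) :
    ∀ f : ℕ → Disc, IsMult f → ¬ Pret f → (CompDet f ↔ Trivial f) :=
  fun f hf hP => ⟨fun hc => (h f hf hc).resolve_left hP, compDet_of_trivial⟩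

end Pool.Agent.P.MP_e30989_nt.W
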