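import Pool.Agent.P.MP_e30989_nt.W.St

/-! Assembly of part W. -/

open Finset MeasureTheory Filter Topology

namespace Pool.Agent.P.MP_e30989_nt.W

namespace Q1

theorem iter_shift (n : ℕ) (x : Sq) (j : ℤ) : (shift^[n] x) j = x (j + n) := by
  induction n generalizing x j with
  | zero => simp
  | succ n ih =>
    rw [Function.iterate_succ_apply, ih]
    simp only [shift]
    congr 1
    push_cast; ring

theorem pt_pos (f : ℕ → Disc) {n : ℕ} (hn : 0 < n) : pt f (n : ℤ) = f n := by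
  unfold pt
  rw [if_pos (by exact_mod_cast hn)]
  simp

theorem norm_le (z : Disc) : ‖(z : ℂ)‖ ≤ 1 := by
  exact mem_closedBall_zero_iff.1 z.2

theorem cont_coord (j : ℤ) : Continuous fun x : Sq => (x j : ℂ) :=
  continuous_subtype_val.comp (continuous_apply j)

theorem cont_mono (m : List (ℕ × Bool)) :
    Continuous fun x : Sq => mono m (fun j => (x (j : ℤ) : ℂ)) := by
  induction m with
  | nil => simpa [mono] using continuous_const
  | cons a m ih =>
    simp only [mono, List.map_cons, List.prod_cons] at ih ⊢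
    refine Continuous.mul ?_ ih
    split_ifs
    · exact Complex.continuous_conj.comp (cont_coord _)
    · exact cont_coord _

theorem norm_mono_le (m : List (ℕ × Bool)) {x : ℕ → ℂ} (hx : ∀ j, ‖x j‖ ≤ 1) :
    ‖mono m x‖ ≤ 1 := by
  induction m with
  | nil => simp [mono]
  | cons a m ih =>
    simp only [mono, List.map_cons, List.prod_cons] at ih ⊢
    rw [norm_mul]
    refine mul_le_one₀ ?_ (norm_nonneg _) ih
    split_ifs
    · rw [RCLike.norm_conj]; exact hx _
    · exact hx _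

theorem mono_congr (m : List (ℕ × Bool)) {x y : ℕ → ℂ} (h : ∀ j, x (j + 1) = y (j + 1)) :
    mono m x = mono m y := by
  unfold mono
  simp only [h]

end Q1

open Q1

theorem q1 (hTr : S_Triv) (hA : S_Att) (hSc : S_Scale) (hC : S_Corr) (hD : S_Diag) (hSub : S_Sub)
    (hI : S_Inv) (hP : S_Pred) (hO : S_Orth) (hL : S_Lower) : S_Q1 := by
  intro f hf hcd
  by_cases hF : Full f
  swap
  · exact Or.inr (hTr f hf hF)
  left
  obtain ⟨g, hg, hpg⟩ := hA f
  refine hpg hF ?_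
  by_contra hnp
  obtain ⟨l, hl1, hl2, hl3⟩ := hSc g hg.1 hnp
  have hb : ∀ (m : List (ℕ × Bool)) (N : ℕ), ‖(∑ n ∈ Icc 1 N,
      (starRingEnd ℂ) (f n : ℂ) * mono m (fun j => (f (n + j) : ℂ))) / (N : ℂ)‖ ≤ 1 := by
    intro m N
    rcases Nat.eq_zero_or_pos N with rfl | hN
    · simp
    rw [norm_div, Complex.norm_natCast, div_le_one (by exact_mod_cast hN)]
    refine (norm_sum_le _ _).trans ?_
    have : ∀ n ∈ Icc 1 N, ‖(starRingEnd ℂ) (f n : ℂ) * mono m (fun j => (f (n + j) : ℂ))‖ ≤ 1 := by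
      intro n _
      rw [norm_mul, RCLike.norm_conj]
      exact mul_le_one₀ (norm_le _) (norm_nonneg _) (norm_mono_le m fun j => norm_le _)
    simpa using sum_le_card_nsmul _ _ _ this
  obtain ⟨N, hN, hc⟩ := hD l hl1 hl2 (List (ℕ × Bool)) _ hb (hC f g l hf hF hg hl2 hl3)
  obtain ⟨μ, κ, hκ, hμ, hlim⟩ := hSub f N hN
  have hprob := hμ.1
  have horth : ∀ m : List (ℕ × Bool),
      ∫ x, (starRingEnd ℂ) (x 0 : ℂ) * mono m (fun j => (x (j : ℤ) : ℂ)) ∂μ = 0 := by
    intro m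
    have h1 := hlim ⟨fun x => (starRingEnd ℂ) (x 0 : ℂ) * mono m (fun j => (x (j : ℤ) : ℂ)),
      (Complex.continuous_conj.comp (cont_coord 0)).mul (cont_mono m)⟩
    have h2 := (hc m).comp hκ.tendsto_atTop
    refine tendsto_nhds_unique h1 (h2.congr fun k => ?_)
    simp only [Function.comp, ContinuousMap.coe_mk]
    congr 1
    refine sum_congr rfl fun n hn => ?_
    have hn1 : 0 < n := (mem_Icc.1 hn).1
    rw [iter_shift, zero_add, pt_pos f hn1]
    congr 1
    refine mono_congr m fun j => ?_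
    rw [iter_shift, ← Nat.cast_add, pt_pos f (by omega), add_comm n]
  obtain ⟨c, hc0, hcl⟩ := hL f hf hF
  have hint : c ≤ ∫ x, ‖(x 0 : ℂ)‖ ^ 2 ∂μ := by
    have h1 := hlim ⟨fun x => ((‖(x 0 : ℂ)‖ ^ 2 : ℝ) : ℂ),
      Complex.continuous_ofReal.comp ((cont_coord 0).norm.pow 2)⟩
    simp only [ContinuousMap.coe_mk] at h1
    rw [integral_complex_ofReal] at h1
    have h2 := (Complex.continuous_re.tendsto _).comp h1
    simp only [Complex.ofReal_re] at h2
    refine ge_of_tendsto h2 ?_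
    have h3 := (hN.comp hκ.tendsto_atTop).eventually (hcl.and (eventually_gt_atTop 0))
    filter_upwards [h3] with k hk
    simp only [Function.comp] at hk ⊢
    have h4 : ∑ n ∈ Icc 1 (N (κ k)), ((‖((shift^[n] (pt f)) 0 : ℂ)‖ ^ 2 : ℝ) : ℂ) =
        ((∑ n ∈ Icc 1 (N (κ k)), ‖(f n : ℂ)‖ ^ 2 : ℝ) : ℂ) := by
      rw [Complex.ofReal_sum]
      refine sum_congr rfl fun n hn => ?_
      rw [iter_shift, zero_add, pt_pos f (mem_Icc.1 hn).1]
    rw [h4, ← Complex.ofReal_natCast, ← Complex.ofReal_div, Complex.ofReal_re,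
      le_div_iff₀ (by exact_mod_cast hk.2)]
    exact hk.1
  obtain ⟨r, Φ, hΦm, hΦb, hΦ⟩ := hP μ hprob (hI f μ hμ) (hcd μ hμ) (c / 2) (by positivity)
  have h5 := hO μ hprob horth r Φ hΦm hΦb
  have hm0 : Measurable fun x : Sq => (x 0 : ℂ) := (cont_coord 0).measurable
  have hmΦ : Measurable fun x : Sq => Φ (fun i => x ((i : ℕ) + 1)) :=
    hΦm.comp (measurable_pi_lambda _ fun i => measurable_pi_apply _)
  have hmc : Measurable fun x : Sq => (starRingEnd ℂ) (x 0 : ℂ) :=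
    (Complex.continuous_conj.comp (cont_coord 0)).measurable
  have i1 : Integrable (fun x : Sq => (starRingEnd ℂ) (x 0 : ℂ) * Φ (fun i => x ((i : ℕ) + 1))) μ := by
    refine Integrable.of_bound (hmc.mul hmΦ).aestronglyMeasurable 1 (Eventually.of_forall fun x => ?_)
    rw [norm_mul, RCLike.norm_conj]
    exact mul_le_one₀ (norm_le _) (norm_nonneg _) (hΦb _)
  have i2 : Integrable (fun x : Sq => (starRingEnd ℂ) (x 0 : ℂ) *
      ((x 0 : ℂ) - Φ (fun i => x ((i : ℕ) + 1)))) μ := by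
    refine Integrable.of_bound (hmc.mul (hm0.sub hmΦ)).aestronglyMeasurable 2
      (Eventually.of_forall fun x => ?_)
    rw [norm_mul, RCLike.norm_conj]
    have := norm_sub_le (x 0 : ℂ) (Φ (fun i => x ((i : ℕ) + 1)))
    nlinarith [norm_le (x 0), hΦb (fun i => x ((i : ℕ) + 1)), norm_nonneg (x 0 : ℂ),
      norm_nonneg ((x 0 : ℂ) - Φ (fun i => x ((i : ℕ) + 1)))]
  have i3 : Integrable (fun x : Sq => ‖(x 0 : ℂ) - Φ (fun i => x ((i : ℕ) + 1))‖) μ := by
    refine Integrable.of_bound (hm0.sub hmΦ).norm.aestronglyMeasurable 2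
      (Eventually.of_forall fun x => ?_)
    rw [norm_norm]
    have := norm_sub_le (x 0 : ℂ) (Φ (fun i => x ((i : ℕ) + 1)))
    linarith [norm_le (x 0), hΦb (fun i => x ((i : ℕ) + 1))]
  have h6 : ((∫ x, ‖(x 0 : ℂ)‖ ^ 2 ∂μ : ℝ) : ℂ) = ∫ x, (starRingEnd ℂ) (x 0 : ℂ) *
      ((x 0 : ℂ) - Φ (fun i => x ((i : ℕ) + 1))) ∂μ := by
    have h8 := integral_add i2 i1
    rw [h5, add_zero] at h8
    rw [← h8, ← integral_complex_ofReal]
    refine integral_congr_ae (Eventually.of_forall fun x => ?_)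
    simp only
    rw [← mul_add, sub_add_cancel, Complex.conj_mul']
    push_cast; rfl
  have h7 : ‖((∫ x, ‖(x 0 : ℂ)‖ ^ 2 ∂μ : ℝ) : ℂ)‖ ≤ c / 2 := by
    rw [h6]
    refine (norm_integral_le_of_norm_le i3 (Eventually.of_forall fun x => ?_)).trans hΦ
    rw [norm_mul, RCLike.norm_conj]
    exact mul_le_of_le_one_left (norm_nonneg _) (norm_le _)
  rw [Complex.norm_real, Real.norm_eq_abs] at h7
  linarith [le_abs_self (∫ x, ‖(x 0 : ℂ)‖ ^ 2 ∂μ)]

end Pool.Agent.P.MP_e30989_nt.W
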