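import Pool.Agent.P.MP_a14ce1_nt.Ch.Defs
import Pool.Agent.P.MP_e30989_nt.Stmt

/-!
Interface statements, part W: non-pretentious functions in short intervals, reduction to unimodular
completely multiplicative functions, and the ergodic wrapper.
Every piece is a theorem of the shape  S_a → S_b → S_c  in a file importing only this one.
-/

open Finset MeasureTheory Filter Topology

namespace Pool.Agent.P.MP_e30989_nt.W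

open Pool.Agent.P.MP_a14ce1_nt.Ch

/-- completely multiplicative of modulus one on the positive integers -/
def UCM (f : ℕ → ℂ) : Prop := CM f ∧ ∀ n, n ≠ 0 → ‖f n‖ = 1

/-- the twist of f by a character -/
noncomputable def tw (f : ℕ → ℂ) {b : ℕ} (χ : DirichletCharacter ℂ b) (n : ℕ) : ℂ :=
  f n * χ (n : ZMod b)

/-- squared pretentious distance of F from n ^ (i t), over primes up to y -/
noncomputable def dd (F : ℕ → ℂ) (t y : ℝ) : ℝ := ∑ p ∈ pr 0 y, (1 - (F p * nit t p).re) / p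

/-- the Dirichlet series of F at 1 + 1 / log y + i t -/
noncomputable def LL (F : ℕ → ℂ) (y t : ℝ) : ℂ :=
  LSeries F ((1 + 1 / Real.log y : ℝ) + t * Complex.I)

/-- bounded distance from some character twist -/
def Pret' (f : ℕ → ℂ) : Prop :=
  ∃ (b : ℕ) (_ : 0 < b) (χ : DirichletCharacter ℂ b) (t C : ℝ), ∀ y : ℝ, dd (tw f χ) t y ≤ C

/-- strongly non-pretentious along the scales l -/
def NP (f : ℕ → ℂ) (l : Filter ℕ) : Prop :=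
  ∀ C : ℕ, 1 ≤ C → ∀ᶠ X : ℕ in l, ∀ b : ℕ, 0 < b → b ≤ C → ∀ (χ : DirichletCharacter ℂ b) (t : ℝ),
    |t| ≤ (X : ℝ) ^ C → (C : ℝ) ≤ dd (tw f χ) t ((X : ℝ) ^ (1 / (C : ℝ)))

/-- short interval means in residue classes are small along the scales l -/
def MRH (f : ℕ → ℂ) (l : Filter ℕ) : Prop :=
  ∀ b : ℕ, 0 < b → ∀ δ : ℝ, 0 < δ → ∃ (R0 : ℕ) (ρ : ℝ), 0 < ρ ∧ ∀ᶠ X : ℕ in l, ∀ Y : ℕ,
    (X : ℝ) ^ δ ≤ Y → (Y : ℝ) ≤ (X : ℝ) ^ (1 / δ) → ∀ R : ℕ, R0 ≤ R → (R : ℝ) ≤ ρ * Y → ∀ c : ℕ,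
      ∑ x ∈ Ico Y (2 * Y), ‖∑ j ∈ (range R).filter (fun j => x + j ≡ c [MOD b]), f (x + j)‖ ≤
        δ * R * Y

/-! ### N. Non-pretentious functions -/

/-- upper bound for the Dirichlet series by the distance -/
def S_EulerUp : Prop := ∀ (F : ℕ → ℂ), CM F → F 1 = 1 → ∀ y Y t : ℝ, 2 ≤ y → y ≤ Y →
  ‖LL F Y t‖ ≤ (1 + Real.log Y) * Real.exp (-(dd F t y) / 6)

/-- lower bound for the Dirichlet series by the prime sum -/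
def S_EulerLow : Prop := ∃ C : ℝ, 0 < C ∧ ∀ (F : ℕ → ℂ), CM F → F 1 = 1 → ∀ y t : ℝ, 3 ≤ y →
  Real.log y * Real.exp (-(dd F t y)) ≤ C * ‖LL F y t‖

/-- repulsion -/
def S_Rep : Prop := ∀ (b : ℕ), 0 < b → ∀ (K : ℝ) (k : ℕ), ∃ c y0 : ℝ, ∀ y : ℝ, y0 ≤ y →
  ∀ (ψ : DirichletCharacter ℂ b) (τ : ℝ), |τ| ≤ y ^ k → dd (tw (fun _ => 1) ψ) τ y ≤ K →
    ψ = 1 ∧ |τ| ≤ c / Real.log y

/-- a function that is not pretentious is strongly non-pretentious along suitable scales -/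
def S_Scale : Prop := ∀ f : ℕ → ℂ, UCM f → ¬ Pret' f →
  ∃ l : Filter ℕ, l.NeBot ∧ l ≤ atTop ∧ NP f l

/-- stability of NP -/
def S_NPstab : Prop := ∀ (f : ℕ → ℂ) (l : Filter ℕ), l ≤ atTop → UCM f → NP f l →
  NP (fun n => (starRingEnd ℂ) (f n)) l ∧
  ∀ (g : ℕ → ℂ) (w : ℕ), UCM g → (∀ p, p.Prime → w < p → g p = f p) → NP g l

/-- the Liouville function is strongly non-pretentious at all scales -/
def S_NPlam : Prop := UCM (fun n => (lam n : ℂ)) ∧ NP (fun n => (lam n : ℂ)) atTop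

/-- the long smooth polynomial is small when the Dirichlet series is -/
def S_RxNP : Prop := ∃ C : ℝ, 0 < C ∧ ∀ (F : ℕ → ℂ), CM F → ∀ (X : ℕ) (ε : ℝ), 3 ≤ X → 0 < ε →
  (∀ t : ℝ, |t| ≤ 3 * X → ‖LL F X t‖ ≤ ε * Real.log X) →
  ∀ s : ℝ, |s| ≤ 2 * X → ‖Rx F X s‖ ≤ C * (ε * Real.log X + 1)

/-- a prime polynomial is large only near a bounded number of points -/
def S_Few : Prop := ∀ (A : Finset ℕ) (F : ℕ → ℂ) (T C1 η : ℝ), (∀ n, ‖F n‖ ≤ 1) → 0 < η →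
  (∀ t : ℝ, 1 ≤ |t| → |t| ≤ 2 * T → ‖∑ p ∈ A, (1 : ℂ) / p * nit t p‖ ≤ C1) →
  0 < rs A → 2 * C1 ≤ η ^ 2 * rs A →
  ∃ J : Finset ℝ, (J.card : ℝ) ≤ 2 / η ^ 2 ∧ ∀ s : ℝ, |s| ≤ T →
    η * rs A < ‖∑ p ∈ A, F p / p * nit s p‖ → ∃ j ∈ J, |s - j| ≤ 1

def S_FinalNP : Prop := ∃ c : ℝ, 0 < c ∧ ∀ δ : ℝ, 0 < δ → ∃ (ε : ℝ) (X0 : ℕ), 0 < ε ∧
  ∀ X : ℕ, X0 ≤ X → ∀ F : ℕ → ℂ, CM F → (∀ t : ℝ, |t| ≤ 3 * X → ‖LL F X t‖ ≤ ε * Real.log X) →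
    ∀ U : Set ℝ, MeasurableSet U → U ⊆ Set.Icc (-(X : ℝ)) X → volume.real U ≤ (X : ℝ) ^ c →
      ∫ t in U, ‖Fx F X t‖ ^ 2 ≤ δ

def S_MRNP : Prop := ∀ δ : ℝ, 0 < δ → ∃ (ε : ℝ) (R0 X0 : ℕ), 0 < ε ∧
  ∀ X : ℕ, X0 ≤ X → ∀ F : ℕ → ℂ, CM F → (∀ t : ℝ, |t| ≤ 3 * X → ‖LL F X t‖ ≤ ε * Real.log X) →
    ∀ R : ℕ, R0 ≤ R → (R : ℝ) ≤ ε * X →
      ∑ x ∈ Ico X (2 * X), ‖∑ j ∈ range R, F (x + j)‖ ≤ δ * R * X

def S_MRH : Prop := ∀ (f : ℕ → ℂ) (l : Filter ℕ), l ≤ atTop → UCM f → NP f l → MRH f l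

/-! ### A. Reduction to unimodular completely multiplicative functions -/

/-- the sum over primes of (1 - |f p|) / p converges -/
def Full (f : ℕ → Disc) : Prop :=
  Summable fun p : Nat.Primes => (1 - ‖(f p : ℂ)‖) / ((p : ℕ) : ℝ)

/-- g is the unimodular completely multiplicative function attached to f -/
def Att (f : ℕ → Disc) (g : ℕ → ℂ) : Prop :=
  UCM g ∧ ∀ p : ℕ, p.Prime → (f p : ℂ) = (‖(f p : ℂ)‖ : ℂ) * g p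

def S_Triv : Prop := ∀ f : ℕ → Disc, IsMult f → ¬ Full f → Trivial f

def S_Att : Prop := ∀ f : ℕ → Disc, ∃ g, Att f g ∧ (Full f → Pret' g → Pret f)

/-- away from small primes f is close to g on average -/
def S_Tail : Prop := ∀ (f : ℕ → Disc) (g : ℕ → ℂ), IsMult f → Full f → Att f g →
  ∀ ε : ℝ, 0 < ε → ∃ w0 : ℕ, ∀ w : ℕ, w0 ≤ w → ∃ e : ℕ → ℝ, (∀ n, 0 ≤ e n) ∧
    (∀ d m : ℕ, 0 < d → 0 < m → (∀ p, p.Prime → p ∣ d → p ≤ w) → Nat.Coprime m (primorial w) →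
      ‖(f m : ℂ) - g m‖ ≤ e (d * m)) ∧
    ∀ N : ℕ, ∑ n ∈ Icc 1 N, e n ≤ ε * N

/-- f is close in mean to a finite combination of unimodular completely multiplicative functions -/
def S_Comb : Prop := ∀ (f : ℕ → Disc) (g : ℕ → ℂ), IsMult f → Full f → Att f g →
  ∀ ε : ℝ, 0 < ε → ∃ (w : ℕ) (ι : Type) (_ : Fintype ι) (c : ι → ℂ) (u : ι → ℕ → ℂ),
    (∀ i, UCM (u i) ∧ ∀ p, p.Prime → w < p → u i p = g p) ∧
    (∀ n, ‖∑ i, c i * u i n‖ ≤ 1) ∧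
    ∀ N : ℕ, ∑ n ∈ Icc 1 N, ‖(f n : ℂ) - ∑ i, c i * u i n‖ ≤ ε * N

def S_Lower : Prop := ∀ f : ℕ → Disc, IsMult f → Full f →
  ∃ c : ℝ, 0 < c ∧ ∀ᶠ N : ℕ in atTop, c * N ≤ ∑ n ∈ Icc 1 N, ‖(f n : ℂ)‖ ^ 2

/-! ### E. Ergodic part -/

def S_Inv : Prop := ∀ (f : ℕ → Disc) (μ : Measure Sq), IsFurst f μ → MeasurePreserving shift μ μ

/-- every sequence of lengths has a subsequence along which the empirical measures converge -/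
def S_Sub : Prop := ∀ (f : ℕ → Disc) (N : ℕ → ℕ), Tendsto N atTop atTop →
  ∃ (μ : Measure Sq) (κ : ℕ → ℕ), StrictMono κ ∧ IsFurst f μ ∧ ∀ φ : C(Sq, ℂ),
    Tendsto (fun k => (∑ n ∈ Icc 1 (N (κ k)), φ (shift^[n] (pt f))) / (N (κ k) : ℂ)) atTop
      (𝓝 (∫ x, φ x ∂μ))

/-- zero entropy: the present is predicted by the future -/
def S_Pred : Prop := ∀ μ : Measure Sq, IsProbabilityMeasure μ → MeasurePreserving shift μ μ →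
  ZeroEnt μ → ∀ ε : ℝ, 0 < ε → ∃ (r : ℕ) (Φ : (Fin r → Disc) → ℂ), Measurable Φ ∧ (∀ y, ‖Φ y‖ ≤ 1) ∧
    ∫ x, ‖(x 0 : ℂ) - Φ (fun i => x ((i : ℕ) + 1))‖ ∂μ ≤ ε

/-- a monomial in the positive coordinates and their conjugates -/
noncomputable def mono (m : List (ℕ × Bool)) (x : ℕ → ℂ) : ℂ :=
  (m.map fun a => if a.2 then (starRingEnd ℂ) (x (a.1 + 1)) else x (a.1 + 1)).prod

/-- orthogonality to monomials extends to bounded measurable functions -/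
def S_Orth : Prop := ∀ μ : Measure Sq, IsProbabilityMeasure μ →
  (∀ m : List (ℕ × Bool),
    ∫ x, (starRingEnd ℂ) (x 0 : ℂ) * mono m (fun j => (x (j : ℤ) : ℂ)) ∂μ = 0) →
  ∀ (r : ℕ) (Φ : (Fin r → Disc) → ℂ), Measurable Φ → (∀ y, ‖Φ y‖ ≤ 1) →
    ∫ x, (starRingEnd ℂ) (x 0 : ℂ) * Φ (fun i => x ((i : ℕ) + 1)) ∂μ = 0

/-- small logarithmic mean over scales -/
def Aas (l : Filter ℕ) (c : ℕ → ℂ) : Prop :=
  ∀ δ : ℝ, 0 < δ → ∀ᶠ X : ℕ in l, ∑ N ∈ Icc 1 X, ‖c N‖ / (N : ℝ) ≤ δ * Real.log X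

/-- diagonal choice of good scales -/
def S_Diag : Prop := ∀ (l : Filter ℕ), l.NeBot → l ≤ atTop → ∀ (ι : Type) [Countable ι]
  (c : ι → ℕ → ℂ), (∀ i N, ‖c i N‖ ≤ 1) → (∀ i, Aas l (c i)) →
  ∃ N : ℕ → ℕ, Tendsto N atTop atTop ∧ ∀ i, Tendsto (fun k => c i (N k)) atTop (𝓝 0)

/-- the Elliott estimate at almost all scales (output of the nilsequence route) -/
def S_Ell : Prop := ∀ (l : Filter ℕ), l ≤ atTop → ∀ f : ℕ → ℂ, UCM f → MRH f l →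
  ∀ (r : ℕ) (g : Fin r → ℕ → ℂ) (h : Fin r → ℕ), (∀ j, UCM (g j)) → (∀ j, 0 < h j) →
    Aas l fun N => (∑ n ∈ Icc 1 N, f n * ∏ j, g j (n + h j)) / (N : ℂ)

/-- correlations of f itself -/
def S_Corr : Prop := ∀ (f : ℕ → Disc) (g : ℕ → ℂ) (l : Filter ℕ), IsMult f → Full f → Att f g →
  l ≤ atTop → NP g l → ∀ m : List (ℕ × Bool),
    Aas l fun N => (∑ n ∈ Icc 1 N,
      (starRingEnd ℂ) (f n : ℂ) * mono m (fun j => (f (n + j) : ℂ))) / (N : ℂ)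

/-- the target -/
def S_Q1 : Prop := ∀ f : ℕ → Disc, IsMult f → CompDet f → Pret f ∨ Trivial f

end Pool.Agent.P.MP_e30989_nt.W
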