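import Pool.Agent.P.MP_e30989_nt.W.St
import Pool.Agent.P.MP_a14ce1_nt.V.Norm

/-! The robust form of the short interval hypothesis. -/

open Finset Filter

namespace Pool.Agent.P.MP_e30989_nt.W

/-- short interval means in residue classes are small along the scales l, uniformly over all
unimodular completely multiplicative g that agree with f on the small primes -/
def RMRH (f : ℕ → ℂ) (l : Filter ℕ) : Prop :=
  ∀ b : ℕ, 0 < b → ∀ δ : ℝ, 0 < δ → ∃ (R0 : ℕ) (ρ : ℝ), 0 < ρ ∧ ∀ᶠ X : ℕ in l, ∀ g : ℕ → ℂ, UCM g →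
    (∀ p : ℕ, p.Prime → (p : ℝ) ≤ (X : ℝ) ^ δ → g p = f p) → ∀ Y : ℕ,
    (X : ℝ) ^ δ ≤ Y → (Y : ℝ) ≤ (X : ℝ) ^ (1 / δ) → ∀ R : ℕ, R0 ≤ R → (R : ℝ) ≤ ρ * Y → ∀ c : ℕ,
      ∑ x ∈ Ico Y (2 * Y), ‖∑ j ∈ (range R).filter (fun j => x + j ≡ c [MOD b]), g (x + j)‖ ≤
        δ * R * Y

def S_RMRH : Prop := ∀ (f : ℕ → ℂ) (l : Filter ℕ), l ≤ atTop → UCM f → NP f l → RMRH f l

/-- the Elliott estimate at almost all scales for one function -/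
def Ell (f : ℕ → ℂ) (l : Filter ℕ) : Prop :=
  ∀ (r : ℕ) (g : Fin r → ℕ → ℂ) (h : Fin r → ℕ), (∀ j, UCM (g j)) → (∀ j, 0 < h j) →
    Aas l fun N => (∑ n ∈ Icc 1 N, f n * ∏ j, g j (n + h j)) / (N : ℂ)

def S_EllN : Prop := ∀ (l : Filter ℕ), l ≤ atTop → ∀ f : ℕ → ℂ, UCM f → NP f l → Ell f l

/-- local uniformity from short interval means (output of the inverse theorem and the lift) -/
def S_LU : Prop := ∀ (f : ℕ → ℂ) (l : Filter ℕ), l ≤ atTop → UCM f → RMRH f l →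
  Pool.Agent.P.MP_a14ce1_nt.V.LU f l

theorem RMRH.mrh {f : ℕ → ℂ} {l : Filter ℕ} (hf : UCM f) (h : RMRH f l) : MRH f l := by
  intro b hb δ hδ
  obtain ⟨R0, ρ, hρ, h⟩ := h b hb δ hδ
  exact ⟨R0, ρ, hρ, h.mono fun X hX => hX f hf fun _ _ _ => rfl⟩

end Pool.Agent.P.MP_e30989_nt.W
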